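import Mathlib

/-!
Functions of one variable for the speed criterion: a smooth convex regularisation of the powers of
`s = |u|^2`, whose second derivative vanishes for `s ≤ N`.
-/

open MeasureTheory Set Filter Topology
open scoped ContDiff

namespace Pool.Agent.TH811.SPD

/-- smooth cutoff: `0` for `s ≤ N`, `1` for `s ≥ N + 1` -/
noncomputable def tau (N s : ℝ) : ℝ := Real.smoothTransition (s - N)

/-- `N + 1 + ∫₀ˢ tau` -/
noncomputable def ze (N s : ℝ) : ℝ := N + 1 + ∫ r in (0 : ℝ)..s, tau N r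

/-- `psi = ze ^ α` -/
noncomputable def psi (N α s : ℝ) : ℝ := ze N s ^ α

/-- `Phi = ∫₀ˢ psi` -/
noncomputable def Phi (N α s : ℝ) : ℝ := ∫ r in (0 : ℝ)..s, psi N α r

theorem tau_contDiff (N : ℝ) : ContDiff ℝ ∞ (tau N) :=
  Real.smoothTransition.contDiff.comp (contDiff_id.sub contDiff_const)

theorem tau_cont (N : ℝ) : Continuous (tau N) := (tau_contDiff N).continuous

theorem tau_nonneg (N s : ℝ) : 0 ≤ tau N s := Real.smoothTransition.nonneg _

theorem tau_le_one (N s : ℝ) : tau N s ≤ 1 := Real.smoothTransition.le_one _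

theorem tau_zero {N s : ℝ} (h : s ≤ N) : tau N s = 0 :=
  Real.smoothTransition.zero_of_nonpos (by linarith)

theorem tau_one {N s : ℝ} (h : N + 1 ≤ s) : tau N s = 1 :=
  Real.smoothTransition.one_of_one_le (by linarith)

/-- primitives of smooth functions are smooth -/
theorem hasDerivAt_prim {f : ℝ → ℝ} (hf : Continuous f) (s : ℝ) :
    HasDerivAt (fun s => ∫ r in (0 : ℝ)..s, f r) (f s) s :=
  intervalIntegral.integral_hasDerivAt_right (hf.intervalIntegrable _ _)
    (hf.stronglyMeasurableAtFilter _ _) hf.continuousAt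

theorem contDiff_prim {f : ℝ → ℝ} (hf : ContDiff ℝ ∞ f) :
    ContDiff ℝ ∞ (fun s => ∫ r in (0 : ℝ)..s, f r) := by
  rw [contDiff_infty_iff_deriv]
  refine ⟨fun s => (hasDerivAt_prim hf.continuous s).differentiableAt, ?_⟩
  have : deriv (fun s => ∫ r in (0 : ℝ)..s, f r) = f :=
    funext fun s => (hasDerivAt_prim hf.continuous s).deriv
  rw [this]
  exact hf

theorem ze_hasDerivAt (N s : ℝ) : HasDerivAt (ze N) (tau N s) s :=
  (hasDerivAt_prim (tau_cont N) s).const_add (N + 1)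

theorem ze_contDiff (N : ℝ) : ContDiff ℝ ∞ (ze N) :=
  contDiff_const.add (contDiff_prim (tau_contDiff N))

theorem int_tau_nonneg {N : ℝ} (hN : 0 ≤ N) (s : ℝ) : 0 ≤ ∫ r in (0 : ℝ)..s, tau N r := by
  rcases le_total 0 s with h | h
  · exact intervalIntegral.integral_nonneg h fun r _ => tau_nonneg N r
  · rw [intervalIntegral.integral_symm]
    have : ∫ r in s..(0 : ℝ), tau N r = ∫ r in s..(0 : ℝ), (0 : ℝ) := by
      refine intervalIntegral.integral_congr fun r hr => ?_
      rw [uIcc_of_le h] at hr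
      exact tau_zero (hr.2.trans hN)
    rw [this]
    simp

theorem ze_ge {N : ℝ} (hN : 0 ≤ N) (s : ℝ) : N + 1 ≤ ze N s := by
  have := int_tau_nonneg hN s
  unfold ze
  linarith

theorem ze_pos {N : ℝ} (hN : 0 ≤ N) (s : ℝ) : 0 < ze N s := by
  have := ze_ge hN s
  linarith

theorem one_le_ze {N : ℝ} (hN : 0 ≤ N) (s : ℝ) : 1 ≤ ze N s := by
  have := ze_ge hN s
  linarith

theorem ze_ge_self {N : ℝ} (hN : 0 ≤ N) (s : ℝ) : s ≤ ze N s := by
  rcases le_total s (N + 1) with h | h
  · exact h.trans (ze_ge hN s)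
  · have h1 : ∫ r in (N + 1)..s, tau N r = s - (N + 1) := by
      have : ∫ r in (N + 1)..s, tau N r = ∫ r in (N + 1)..s, (1 : ℝ) := by
        refine intervalIntegral.integral_congr fun r hr => ?_
        rw [uIcc_of_le h] at hr
        exact tau_one hr.1
      rw [this]
      simp
    have h2 := intervalIntegral.integral_add_adjacent_intervals
      ((tau_cont N).intervalIntegrable (μ := volume) 0 (N + 1))
      ((tau_cont N).intervalIntegrable (μ := volume) (N + 1) s)
    have h3 := int_tau_nonneg hN (N + 1)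
    unfold ze
    linarith

theorem ze_low {N s : ℝ} (h0 : 0 ≤ s) (h : s ≤ N) : ze N s = N + 1 := by
  have : ∫ r in (0 : ℝ)..s, tau N r = ∫ r in (0 : ℝ)..s, (0 : ℝ) := by
    refine intervalIntegral.integral_congr fun r hr => ?_
    rw [uIcc_of_le h0] at hr
    exact tau_zero (hr.2.trans h)
  unfold ze
  rw [this]
  simp

theorem rpow_ze_hasDerivAt {N : ℝ} (hN : 0 ≤ N) (a s : ℝ) :
    HasDerivAt (fun s => ze N s ^ a) (a * ze N s ^ (a - 1) * tau N s) s := by
  have h := (ze_hasDerivAt N s).rpow_const (p := a) (Or.inl (ze_pos hN s).ne')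
  refine h.congr_deriv ?_
  ring

theorem rpow_ze_contDiff {N : ℝ} (hN : 0 ≤ N) (a : ℝ) : ContDiff ℝ ∞ (fun s => ze N s ^ a) :=
  (ze_contDiff N).rpow_const_of_ne fun s => (ze_pos hN s).ne'

section

variable {N α : ℝ} (hN : 0 ≤ N)

include hN

theorem psi_contDiff : ContDiff ℝ ∞ (psi N α) := rpow_ze_contDiff hN α

theorem psi_deriv (s : ℝ) : deriv (psi N α) s = α * ze N s ^ (α - 1) * tau N s :=
  (rpow_ze_hasDerivAt hN α s).deriv

theorem psi_pos (s : ℝ) : 0 < psi N α s := Real.rpow_pos_of_pos (ze_pos hN s) _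

theorem dpsi_nonneg (hα : 0 ≤ α) (s : ℝ) : 0 ≤ deriv (psi N α) s := by
  rw [psi_deriv hN]
  have h1 := tau_nonneg N s
  have h2 := Real.rpow_nonneg (ze_pos hN s).le (α - 1)
  positivity

theorem dpsi_low {s : ℝ} (h : s ≤ N) : deriv (psi N α) s = 0 := by
  rw [psi_deriv hN, tau_zero h, mul_zero]

/-- `s psi' ≤ α psi` -/
theorem dpsi_mul_le (hα : 0 ≤ α) {s : ℝ} (hs : 0 ≤ s) : s * deriv (psi N α) s ≤ α * psi N α s := by
  rw [psi_deriv hN]
  have hz := ze_pos hN s
  have h1 : s * tau N s ≤ ze N s :=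
    (mul_le_of_le_one_right hs (tau_le_one N s)).trans (ze_ge_self hN s)
  have h2 : psi N α s = ze N s ^ (α - 1) * ze N s := by
    unfold psi
    rw [Real.rpow_sub_one hz.ne']
    field_simp
  rw [h2]
  have h3 := mul_le_mul_of_nonneg_left h1
    (mul_nonneg hα (Real.rpow_nonneg hz.le (α - 1)))
  calc s * (α * ze N s ^ (α - 1) * tau N s) = α * ze N s ^ (α - 1) * (s * tau N s) := by ring
    _ ≤ α * ze N s ^ (α - 1) * ze N s := h3
    _ = _ := by ring

theorem Phi_hasDerivAt (s : ℝ) : HasDerivAt (Phi N α) (psi N α s) s :=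
  hasDerivAt_prim (psi_contDiff hN).continuous s

theorem Phi_contDiff : ContDiff ℝ ∞ (Phi N α) := contDiff_prim (psi_contDiff hN)

theorem Phi_deriv (s : ℝ) : deriv (Phi N α) s = psi N α s := (Phi_hasDerivAt hN s).deriv

theorem Phi_nonneg {s : ℝ} (hs : 0 ≤ s) : 0 ≤ Phi N α s :=
  intervalIntegral.integral_nonneg hs fun r _ => (psi_pos hN r).le

/-- `ze ^ (α + 1) ≤ (N + 1) ^ (α + 1) + (α + 1) Phi` -/
theorem ze_rpow_le_Phi (hα : 0 ≤ α) {s : ℝ} (hs : 0 ≤ s) :
    ze N s ^ (α + 1) ≤ (N + 1) ^ (α + 1) + (α + 1) * Phi N α s := by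
  have h0 : ze N 0 = N + 1 := by unfold ze; simp
  have hc : Continuous fun r => (α + 1) * ze N r ^ (α + 1 - 1) * tau N r :=
    (continuous_const.mul (rpow_ze_contDiff hN _).continuous).mul (tau_cont N)
  have h1 : ∫ r in (0 : ℝ)..s, (α + 1) * ze N r ^ (α + 1 - 1) * tau N r
      = ze N s ^ (α + 1) - ze N 0 ^ (α + 1) :=
    intervalIntegral.integral_eq_sub_of_hasDerivAt
      (fun r _ => rpow_ze_hasDerivAt hN (α + 1) r) (hc.intervalIntegrable _ _)
  have h2 : ∫ r in (0 : ℝ)..s, (α + 1) * ze N r ^ (α + 1 - 1) * tau N r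
      ≤ ∫ r in (0 : ℝ)..s, (α + 1) * psi N α r := by
    refine intervalIntegral.integral_mono_on hs (hc.intervalIntegrable _ _)
      ((continuous_const.mul (psi_contDiff hN).continuous).intervalIntegrable _ _) fun r _ => ?_
    rw [add_sub_cancel_right]
    have h3 : 0 ≤ (α + 1) * ze N r ^ α :=
      mul_nonneg (by linarith) (Real.rpow_nonneg (ze_pos hN r).le _)
    exact mul_le_of_le_one_right h3 (tau_le_one N r)
  rw [intervalIntegral.integral_const_mul] at h2
  unfold Phi
  rw [h0] at h1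
  linarith

end

end Pool.Agent.TH811.SPD
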