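import Pool.Agent.TH811.SPD.Fin

/-!
A regularity criterion for the three-dimensional Navier-Stokes equations on the torus which
compares the pressure at pairs of points of equal speed (first version).
-/

open MeasureTheory Set H459R3.NS Pool.Agent.TH811.SPD
open scoped ENNReal

set_option autoImplicit false

namespace Pool.Agent.TH811.SPD.Candidate

/-- Let `3/2 < p ≤ ∞`, `3/p + 2/q = 2`, `ν > 0`, `0 ≤ κ < 1`, and let `(u, P)` be a smooth
`1`-periodic solution of the Navier-Stokes equations with viscosity `ν` on `[0, T) × ℝ³`. Let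
`β, l` be functions with `β^q` and `l` integrable on `(0, T)`. Suppose that for almost every
`t ∈ (0, T)` there are `f ≥ 0` with `L^p` norm at most `β(t)`, a smooth periodic function `g` and a
null set `Z` such that, outside `Z`,
* `-u · ∇g ≤ f (1 + |u|²)` where `|u| > M`,
* for all `x, y` with `|u(x)| = |u(y)| > M` such that the speed increases along the flow at `x` and
  decreases along the flow at `y`, i.e. `a(x) > 0 > a(y)` for `a = u · ∇ (|u|² / 2)`,
  `P(x) - g(x) - E(x)/a(x) ≤ P(y) - g(y) - E(y)/a(y) + l (1 + |u(x)|) d(x, y)`, where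
  `E = κ ν (|u|² |∇u|² + |∇ (|u|² / 2)|²) + f |u|² (1 + |u|²)`.
Then `u` is bounded on `[0, T) × ℝ³`. -/
theorem result {p : ℝ≥0∞} (hp : 3 / 2 < p) {q : ℝ} (hpq : 3 * (p⁻¹).toReal + 2 / q = 2)
    {ν κ M : ℝ} (hν : 0 < ν) (hκ0 : 0 ≤ κ) (hκ : κ < 1) {T : ℝ} {u : ℝ → V → V}
    {P : ℝ → V → ℝ} (h : IsSol ν T u P) {β l : ℝ → ℝ}
    (hβ : IntegrableOn (fun t => β t ^ q) (Ioo 0 T)) (hl : IntegrableOn l (Ioo 0 T))
    (hcomp : ∀ᵐ t ∂(volume.restrict (Ioo 0 T)), 0 ≤ β t ∧ 0 ≤ l t ∧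
      ∃ (f g : V → ℝ) (Z : Set V),
      AEStronglyMeasurable f (volume.restrict cube) ∧ (∀ x, 0 ≤ f x) ∧
      eLpNorm f p (volume.restrict cube) ≤ ENNReal.ofReal (β t) ∧ SP g ∧ volume Z = 0 ∧
      (∀ x ∈ cube \ Z, M < speed (u t) x →
        -(∑ j, u t x j * pd j g x) ≤ f x * (1 + speed (u t) x ^ 2)) ∧
      (∀ x ∈ cube \ Z, ∀ y ∈ cube \ Z, speed (u t) x = speed (u t) y → M < speed (u t) x →
        0 < growth (u t) x → growth (u t) y < 0 →
        P t x - g x - allow (κ * ν) f (u t) x / growth (u t) x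
          ≤ P t y - g y - allow (κ * ν) f (u t) y / growth (u t) y
            + l t * (1 + speed (u t) x) * tdist x y)) :
    ∃ C, ∀ t ∈ Ico 0 T, ∀ x i, |u t x i| ≤ C :=
  criterion hp hpq hν hκ0 hκ h hβ hl hcomp

end Pool.Agent.TH811.SPD.Candidate
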