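import Mathlib

/-!
A smooth partition of unity on the circle: powers of the cosine.
-/

open Finset

namespace Pool.Agent.TH811.SPD

theorem cos_pow_eq (m : ℕ) (θ : ℂ) : Complex.cos θ ^ (2 * m)
    = (1 / 4 ^ m) * ∑ k ∈ range (2 * m + 1),
      Complex.exp (2 * ((k : ℂ) - m) * θ * Complex.I) * ((2 * m).choose k : ℂ) := by
  unfold Complex.cos
  rw [div_pow, add_pow, pow_mul (2 : ℂ) 2 m]
  norm_num
  rw [div_eq_mul_inv, mul_comm]
  congr 1
  refine Finset.sum_congr rfl fun k hk => ?_
  have hk' : k ≤ 2 * m := Nat.lt_succ_iff.1 (Finset.mem_range.1 hk)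
  rw [← Complex.exp_nat_mul, ← Complex.exp_nat_mul, ← Complex.exp_add, Nat.cast_sub hk']
  congr 2
  push_cast
  ring

theorem sum_root {n : ℕ} {l : ℤ} (hl : l ≠ 0) (h1 : |l| < n) (t : ℝ) :
    ∑ a ∈ range n, Complex.exp (2 * (l : ℂ) * (Real.pi * (t - a / n)) * Complex.I) = 0 := by
  have hn : 0 < n := by
    rcases Nat.eq_zero_or_pos n with h | h
    · subst h
      have := abs_nonneg l
      simp at h1
      omega
    · exact h
  have hn' : (n : ℂ) ≠ 0 := Nat.cast_ne_zero.2 hn.ne'
  set z : ℂ := Complex.exp (-(2 * Real.pi * Complex.I * (l / n))) with hz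
  have e : ∀ a ∈ range n, Complex.exp (2 * (l : ℂ) * (Real.pi * (t - a / n)) * Complex.I)
      = Complex.exp (2 * (l : ℂ) * (Real.pi * t) * Complex.I) * z ^ a := by
    intro a _
    rw [hz, ← Complex.exp_nat_mul, ← Complex.exp_add]
    congr 1
    ring
  rw [Finset.sum_congr rfl e, ← Finset.mul_sum]
  have hz1 : z ≠ 1 := by
    intro h
    rw [hz, Complex.exp_eq_one_iff] at h
    obtain ⟨N, hN⟩ := h
    have hpi : (2 * Real.pi * Complex.I : ℂ) ≠ 0 := by
      have := Real.pi_ne_zero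
      simp [this]
    have h2 : -((l : ℂ) / n) = N := by
      have : (2 * Real.pi * Complex.I : ℂ) * (-((l : ℂ) / n)) = (2 * Real.pi * Complex.I) * N := by
        rw [mul_comm _ (N : ℂ), ← hN]
        ring
      exact mul_left_cancel₀ hpi this
    have h3 : -(l : ℂ) = N * n := by
      rw [← h2]; field_simp
    have h4 : -l = N * n := by exact_mod_cast h3
    have h5 : (n : ℤ) ∣ l := ⟨-N, by linarith⟩
    have h6 := Int.le_of_dvd (abs_pos.2 hl) ((dvd_abs _ _).2 h5)
    omega
  have hzn : z ^ n = 1 := by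
    rw [hz, ← Complex.exp_nat_mul, Complex.exp_eq_one_iff]
    refine ⟨-l, ?_⟩
    push_cast
    field_simp
  have hg := mul_neg_geom_sum z n
  rw [hzn, sub_self] at hg
  rcases mul_eq_zero.1 hg with h | h
  · exact absurd (sub_eq_zero.1 h).symm hz1
  · rw [h, mul_zero]

/-- the mean of `cos ^ (2 m)` -/
noncomputable def wal (m : ℕ) : ℝ := (m.centralBinom : ℝ) / 4 ^ m

theorem wal_pos (m : ℕ) : 0 < wal m := by
  unfold wal
  have : 0 < (m.centralBinom : ℝ) := by exact_mod_cast m.centralBinom_pos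
  positivity

theorem wal_succ (m : ℕ) : wal (m + 1) * (2 * m + 2) = wal m * (2 * m + 1) := by
  have h : ((m : ℝ) + 1) * ((m + 1).centralBinom : ℝ) = 2 * (2 * m + 1) * (m.centralBinom : ℝ) := by
    exact_mod_cast Nat.succ_mul_centralBinom_succ m
  unfold wal
  rw [pow_succ]
  field_simp
  linarith

theorem sum_cos_pow {m n : ℕ} (h : m < n) (t : ℝ) :
    ∑ a ∈ range n, Real.cos (Real.pi * (t - a / n)) ^ (2 * m) = n * wal m := by
  have hn : (n : ℂ) ≠ 0 := Nat.cast_ne_zero.2 (by omega)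
  have key : ((∑ a ∈ range n, Real.cos (Real.pi * (t - a / n)) ^ (2 * m) : ℝ) : ℂ)
      = ((n * wal m : ℝ) : ℂ) := by
    push_cast
    have e : ∀ a ∈ range n, Complex.cos (Real.pi * (t - a / n)) ^ (2 * m)
        = ∑ k ∈ range (2 * m + 1), (1 / 4 ^ m) * ((2 * m).choose k : ℂ)
          * Complex.exp (2 * (((k : ℤ) - m : ℤ) : ℂ) * (Real.pi * (t - a / n)) * Complex.I) := by
      intro a _
      rw [cos_pow_eq, Finset.mul_sum]
      refine Finset.sum_congr rfl fun k _ => ?_
      push_cast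
      ring
    rw [Finset.sum_congr rfl e, Finset.sum_comm]
    have e2 : ∀ k ∈ range (2 * m + 1), ∑ a ∈ range n, (1 / 4 ^ m) * ((2 * m).choose k : ℂ)
          * Complex.exp (2 * (((k : ℤ) - m : ℤ) : ℂ) * (Real.pi * (t - a / n)) * Complex.I)
        = if k = m then (1 / 4 ^ m) * ((2 * m).choose k : ℂ) * n else 0 := by
      intro k hk
      have hk' : k ≤ 2 * m := Nat.lt_succ_iff.1 (Finset.mem_range.1 hk)
      rw [← Finset.mul_sum]
      split_ifs with hkm
      · subst hkm
        simp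
      · rw [sum_root (l := (k : ℤ) - m) (by omega) (by rw [abs_lt]; constructor <;> omega) t,
          mul_zero]
    rw [Finset.sum_congr rfl e2, Finset.sum_ite_eq' (range (2 * m + 1)) m]
    rw [if_pos (Finset.mem_range.2 (by omega))]
    unfold wal
    rw [Nat.centralBinom_eq_two_mul_choose]
    push_cast
    ring
  exact_mod_cast key

end Pool.Agent.TH811.SPD
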