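import Pool.Agent.H459R3.NS.Defs

/-!
Definitions for the criterion which compares points of equal speed.
-/

open H459R3.NS

namespace Pool.Agent.TH811.SPD

/-- The square of the speed, `|v|²`. -/
noncomputable def sq3 (v : V → V) (x : V) : ℝ := ∑ i, v x i ^ 2

/-- The speed, `|v|`. -/
noncomputable def speed (v : V → V) (x : V) : ℝ := Real.sqrt (sq3 v x)

/-- `∑ vᵢ vⱼ ∂ᵢ vⱼ = v · ∇ (|v|² / 2)`: the rate at which the kinetic energy density `|v|² / 2`
grows along the flow. It is positive where the speed increases along the flow. -/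
noncomputable def growth (v : V → V) (x : V) : ℝ :=
  ∑ i, ∑ j, v x i * v x j * pd i (fun y => v y j) x

/-- `|∇v|²` -/
noncomputable def grad2 (v : V → V) (x : V) : ℝ := ∑ i, ∑ j, pd i (fun y => v y j) x ^ 2

/-- `|∇ (|v|² / 2)|²` -/
noncomputable def rad2 (v : V → V) (x : V) : ℝ :=
  ∑ i, (∑ j, v x j * pd i (fun y => v y j) x) ^ 2

/-- The allowance `c (|v|² |∇v|² + |∇ (|v|² / 2)|²) + f |v|² (1 + |v|²)`. -/
noncomputable def allow (c : ℝ) (f : V → ℝ) (v : V → V) (x : V) : ℝ :=
  c * (sq3 v x * grad2 v x + rad2 v x) + f x * (sq3 v x * (1 + sq3 v x))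

/-- The distance `∑ |sin (π (xᵢ - yᵢ))|` on the torus; it lies between fixed multiples of the
distance of `x` to the nearest point of `y + ℤ³`. -/
noncomputable def tdist (x y : V) : ℝ := ∑ i, |Real.sin (Real.pi * (x i - y i))|

end Pool.Agent.TH811.SPD
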