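import Pool.Agent.TH811.SPD.Defs

/-!
Definitions for the criterion along streamlines.
-/

open MeasureTheory Set H459R3.NS

namespace Pool.Agent.TH811.SPD

/-- `(X, τ)` is an excursion of the speed above a value larger than `M` along a streamline of the
vector field `v`: `X` is a streamline, `X' = v(X)`; the speed has the same value `s > M` at `X(0)`
and at `X(τ)` and is larger than `s` in between; the curve enters the region `|v| > s` at `X(0)` and
leaves it at `X(τ)` transversally, `v · ∇ (|v|² / 2)` being positive at `X(0)` and negative at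
`X(τ)`. -/
structure Excursion (v : V → V) (M : ℝ) (X : ℝ → V) (τ : ℝ) : Prop where
  streamline : ∀ r, HasDerivAt X (v (X r)) r
  pos : 0 < τ
  fast : M < speed v (X 0)
  level : speed v (X τ) = speed v (X 0)
  above : ∀ r ∈ Ioo 0 τ, speed v (X 0) < speed v (X r)
  entry : 0 < growth v (X 0)
  exit : growth v (X τ) < 0

/-- `ν (κ |v|² |∇v|² + |∇ (|v|² / 2)|²) + f |v|² (1 + |v|²)` -/
noncomputable def room (ν κ : ℝ) (f : V → ℝ) (v : V → V) (x : V) : ℝ :=
  ν * (κ * (sq3 v x * grad2 v x) + rad2 v x) + f x * (sq3 v x * (1 + sq3 v x))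

/-- The potential `f` is form-bounded: `∫ f z² ≤ a ∫ |∇z|² + b ∫ z²` for smooth periodic `z`, the
integrals being taken over the period cell. -/
def FormBound (a b : ℝ) (f : V → ℝ) : Prop :=
  ∀ z : V → ℝ, SP z → ∫ x in cube, f x * z x ^ 2
    ≤ a * (∫ x in cube, ∑ i, pd i z x ^ 2) + b * ∫ x in cube, z x ^ 2

end Pool.Agent.TH811.SPD
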