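import Pool.Agent.TH811.SPD.Defs2

/-!
Definitions for the criterion along streamlines: the terms at the end points.
-/

open MeasureTheory Set H459R3.NS

namespace Pool.Agent.TH811.SPD

/-- `E = ν (κ₁ |v|² |∇v|² + κ₂ |∇ (|v|² / 2)|²) + f |v|² (1 + |v|²)` -/
noncomputable def endTerm (ν κ₁ κ₂ : ℝ) (f : V → ℝ) (v : V → V) (x : V) : ℝ :=
  ν * (κ₁ * (sq3 v x * grad2 v x) + κ₂ * rad2 v x) + f x * (sq3 v x * (1 + sq3 v x))

end Pool.Agent.TH811.SPD
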