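import Pool.Agent.TH811.SPD.Null
import Pool.Agent.TH811.SPD.Defs

/-!
The evolution of the integral of a function of the speed.
-/

open MeasureTheory Set Filter Topology
open scoped ContDiff
open H459R3.NS Pool.Agent.W268.NS

namespace Pool.Agent.TH811.SPD

section fixed

variable {v : V → V} (hv : ∀ i, SP (fun y => v y i))
  (hdiv : ∀ x, ∑ i, pd i (fun y => v y i) x = 0)

theorem sq3_nonneg (v : V → V) (x : V) : 0 ≤ sq3 v x := Finset.sum_nonneg fun _ _ => sq_nonneg _

theorem grad2_nonneg (v : V → V) (x : V) : 0 ≤ grad2 v x :=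
  Finset.sum_nonneg fun _ _ => Finset.sum_nonneg fun _ _ => sq_nonneg _

theorem rad2_nonneg (v : V → V) (x : V) : 0 ≤ rad2 v x := Finset.sum_nonneg fun _ _ => sq_nonneg _

include hv in
theorem sp_sq3 : SP (sq3 v) := by
  have e : sq3 v = fun x => ∑ i, v x i * v x i := by
    funext x
    exact Finset.sum_congr rfl fun i _ => sq _
  rw [e]
  exact SP.sum fun i _ => (hv i).mul (hv i)

include hv in
theorem pd_sq3 (j : Fin 3) (x : V) :
    pd j (sq3 v) x = 2 * ∑ i, v x i * pd j (fun y => v y i) x := by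
  have e : sq3 v = fun x => ∑ i, v x i * v x i := by
    funext x
    exact Finset.sum_congr rfl fun i _ => sq _
  rw [e, pd_sum (f := fun i x => v x i * v x i) (fun i _ => (hv i).mul (hv i)), Finset.mul_sum]
  refine Finset.sum_congr rfl fun i _ => ?_
  rw [pd_mul (hv i) (hv i)]
  ring

include hv in
theorem adv_sq3 (x : V) : adv v (sq3 v) x = 2 * growth v x := by
  unfold adv growth
  rw [Finset.mul_sum]
  refine Finset.sum_congr rfl fun i _ => ?_
  rw [pd_sq3 hv, Finset.mul_sum, Finset.mul_sum, Finset.mul_sum]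
  refine Finset.sum_congr rfl fun j _ => ?_
  ring

include hv in
theorem sp_grad2 : SP (grad2 v) := by
  have e : grad2 v = fun x => ∑ i, ∑ j, pd i (fun y => v y j) x * pd i (fun y => v y j) x := by
    funext x
    exact Finset.sum_congr rfl fun i _ => Finset.sum_congr rfl fun j _ => sq _
  rw [e]
  exact SP.sum fun i _ => SP.sum fun j _ => ((hv j).pd i).mul ((hv j).pd i)

include hv in
theorem sp_inner (i : Fin 3) : SP (fun x => ∑ j, v x j * pd i (fun y => v y j) x) :=
  SP.sum fun j _ => (hv j).mul ((hv j).pd i)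

include hv in
theorem sp_rad2 : SP (rad2 v) := by
  have e : rad2 v = fun x => ∑ i, (∑ j, v x j * pd i (fun y => v y j) x)
      * (∑ j, v x j * pd i (fun y => v y j) x) := by
    funext x
    exact Finset.sum_congr rfl fun i _ => sq _
  rw [e]
  exact SP.sum fun i _ => (sp_inner hv i).mul (sp_inner hv i)

/-- Cauchy-Schwarz -/
theorem rad2_le (v : V → V) (x : V) : rad2 v x ≤ sq3 v x * grad2 v x := by
  unfold rad2 grad2 sq3
  rw [Finset.mul_sum]
  refine Finset.sum_le_sum fun i _ => ?_
  exact Finset.sum_mul_sq_le_sq_mul_sq _ _ _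

theorem adv_comp {F : ℝ → ℝ} (hF : ContDiff ℝ ∞ F) {g : V → ℝ} (hg : SP g) (x : V) :
    adv v (fun x => F (g x)) x = deriv F (g x) * adv v g x := by
  unfold adv
  rw [Finset.mul_sum]
  refine Finset.sum_congr rfl fun j _ => ?_
  rw [pd_comp hg hF]
  ring

theorem adv_mul {f g : V → ℝ} (hf : SP f) (hg : SP g) (x : V) :
    adv v (fun x => f x * g x) x = adv v f x * g x + f x * adv v g x := by
  unfold adv
  rw [Finset.sum_mul, Finset.mul_sum, ← Finset.sum_add_distrib]
  refine Finset.sum_congr rfl fun j _ => ?_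
  rw [pd_mul hf hg]
  ring

include hv hdiv in
theorem int_adv {g : V → ℝ} (hg : SP g) : ∫ x in cube, adv v g x = 0 := by
  have h := int_press (v := fun i x => v x i) hv hdiv hg
  rw [← integral_finsetSum _ fun i _ => ((hv i).mul (hg.pd i)).int] at h
  exact h

include hv hdiv in
/-- integration by parts along the flow -/
theorem int_adv_mul {f g : V → ℝ} (hf : SP f) (hg : SP g) :
    ∫ x in cube, adv v f x * g x = -∫ x in cube, f x * adv v g x := by
  have h := int_adv hv hdiv (hf.mul hg)
  simp_rw [adv_mul hf hg] at h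
  rw [integral_add ((sp_adv hv hf).mul hg).int (hf.mul (sp_adv hv hg)).int] at h
  linarith

include hv in
/-- The viscous term. -/
theorem int_visc {F : ℝ → ℝ} (hF : ContDiff ℝ ∞ F) :
    ∑ i, ∫ x in cube, lap (fun y => v y i) x * (F (sq3 v x) * v x i)
      = -∫ x in cube, (F (sq3 v x) * grad2 v x + 2 * deriv F (sq3 v x) * rad2 v x) := by
  have hq : SP (fun x => F (sq3 v x)) := sp_comp (sp_sq3 hv) hF
  have h1 : ∀ i, ∫ x in cube, lap (fun y => v y i) x * (F (sq3 v x) * v x i)
      = -∑ j, ∫ x in cube, pd j (fun y => v y i) x * pd j (fun x => F (sq3 v x) * v x i) x :=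
    fun i => int_lap_mul (hv i) (hq.mul (hv i))
  have hs : ∀ i j, SP (fun x => pd j (fun y => v y i) x * pd j (fun x => F (sq3 v x) * v x i) x) :=
    fun i j => ((hv i).pd j).mul ((hq.mul (hv i)).pd j)
  simp_rw [h1]
  rw [Finset.sum_neg_distrib]
  congr 1
  have h2 : ∀ i, ∑ j, ∫ x in cube, pd j (fun y => v y i) x * pd j (fun x => F (sq3 v x) * v x i) x
      = ∫ x in cube, ∑ j, pd j (fun y => v y i) x * pd j (fun x => F (sq3 v x) * v x i) x :=
    fun i => (integral_finsetSum _ fun j _ => (hs i j).int).symm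
  simp_rw [h2]
  rw [← integral_finsetSum _ fun i _ => (SP.sum fun j _ => hs i j).int]
  congr 1
  funext x
  set Sg : Fin 3 → ℝ := fun j => ∑ k, v x k * pd j (fun y => v y k) x with hSg
  have h3 : ∀ i j, pd j (fun x => F (sq3 v x) * v x i) x
      = F (sq3 v x) * pd j (fun y => v y i) x
        + deriv F (sq3 v x) * (2 * Sg j) * v x i := by
    intro i j
    rw [pd_mul hq (hv i), pd_comp (sp_sq3 hv) hF, pd_sq3 hv]
  simp_rw [h3]
  have h5 : ∀ j, ∑ i, pd j (fun y => v y i) x * (F (sq3 v x) * pd j (fun y => v y i) x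
      + deriv F (sq3 v x) * (2 * Sg j) * v x i)
      = F (sq3 v x) * (∑ i, pd j (fun y => v y i) x ^ 2) + 2 * deriv F (sq3 v x) * Sg j ^ 2 := by
    intro j
    have h6 : ∀ i, pd j (fun y => v y i) x * (F (sq3 v x) * pd j (fun y => v y i) x
        + deriv F (sq3 v x) * (2 * Sg j) * v x i)
        = F (sq3 v x) * pd j (fun y => v y i) x ^ 2
          + 2 * deriv F (sq3 v x) * Sg j * (v x i * pd j (fun y => v y i) x) := by
      intro i; ring
    simp_rw [h6]
    rw [Finset.sum_add_distrib, ← Finset.mul_sum, ← Finset.mul_sum]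
    simp only [hSg]
    ring
  unfold grad2 rad2
  rw [Finset.sum_comm]
  simp_rw [h5]
  rw [Finset.sum_add_distrib, ← Finset.mul_sum, ← Finset.mul_sum]

include hv hdiv in
/-- The convection term does not contribute. -/
theorem int_conv_F {F : ℝ → ℝ} (hF : ContDiff ℝ ∞ F) :
    ∑ i, ∫ x in cube, conv (fun i y => v y i) i x * (deriv F (sq3 v x) * v x i) = 0 := by
  have hF' : ContDiff ℝ ∞ (deriv F) := (contDiff_infty_iff_deriv.1 hF).2
  have hq : SP (fun x => deriv F (sq3 v x)) := sp_comp (sp_sq3 hv) hF'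
  have h := int_adv hv hdiv (sp_comp (sp_sq3 hv) hF)
  have hc : ∀ i, SP (conv (fun i y => v y i) i) := fun i => sp_conv hv i
  rw [← integral_finsetSum _ fun i _ => ((hc i).mul (hq.mul (hv i))).int]
  have e : ∀ x, ∑ i, conv (fun i y => v y i) i x * (deriv F (sq3 v x) * v x i)
      = (1 / 2) * adv v (fun x => F (sq3 v x)) x := by
    intro x
    rw [adv_comp hF (sp_sq3 hv)]
    unfold adv conv
    rw [Finset.mul_sum, Finset.mul_sum]
    simp_rw [pd_sq3 hv, Finset.sum_mul, Finset.mul_sum]
    rw [Finset.sum_comm]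
    refine Finset.sum_congr rfl fun j _ => Finset.sum_congr rfl fun i _ => ?_
    ring
  simp_rw [e]
  rw [integral_const_mul, h, mul_zero]

include hv hdiv in
/-- The pressure term. -/
theorem int_press_F {F : ℝ → ℝ} (hF : ContDiff ℝ ∞ F) {p : V → ℝ} (hp : SP p) :
    ∑ i, ∫ x in cube, pd i p x * (F (sq3 v x) * v x i)
      = -∫ x in cube, deriv F (sq3 v x) * (p x * adv v (sq3 v) x) := by
  have hq : SP (fun x => F (sq3 v x)) := sp_comp (sp_sq3 hv) hF
  rw [← integral_finsetSum _ fun i _ => ((hp.pd i).mul (hq.mul (hv i))).int]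
  have h := int_adv_mul hv hdiv hp hq
  simp_rw [adv_comp hF (sp_sq3 hv)] at h
  have e1 : ∀ x, ∑ i, pd i p x * (F (sq3 v x) * v x i) = adv v p x * F (sq3 v x) := by
    intro x
    unfold adv
    rw [Finset.sum_mul]
    exact Finset.sum_congr rfl fun i _ => by ring
  simp_rw [e1]
  rw [h]
  congr 2
  funext x
  ring

end fixed

section evo

variable {ν T : ℝ} {u : ℝ → V → V} {p : ℝ → V → ℝ}

theorem sq3_contDiffOn (h : IsSol ν T u p) :
    ContDiffOn ℝ ∞ (fun z : ℝ × V => sq3 (u z.1) z.2) (Ico 0 T ×ˢ univ) := by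
  unfold sq3
  exact ContDiffOn.sum fun i _ => (h.smooth_c i).pow 2

theorem F_contDiffOn (h : IsSol ν T u p) {F : ℝ → ℝ} (hF : ContDiff ℝ ∞ F) :
    ContDiffOn ℝ ∞ (fun z : ℝ × V => F (sq3 (u z.1) z.2)) (Ico 0 T ×ˢ univ) :=
  hF.comp_contDiffOn (sq3_contDiffOn h)

theorem F_continuousOn (h : IsSol ν T u p) {F : ℝ → ℝ} (hF : ContDiff ℝ ∞ F) :
    ContinuousOn (fun s => ∫ x in cube, F (sq3 (u s) x)) (Ico 0 T) :=
  continuousOn_int (F := fun s x => F (sq3 (u s) x)) (F_contDiffOn h hF).continuousOn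

theorem F_hasDerivAt (h : IsSol ν T u p) {F : ℝ → ℝ} (hF : ContDiff ℝ ∞ F) {t : ℝ}
    (ht : t ∈ Ioo 0 T) :
    HasDerivAt (fun s => ∫ x in cube, F (sq3 (u s) x))
      (-(2 * ν * ∫ x in cube, (deriv F (sq3 (u t) x) * grad2 (u t) x
          + 2 * deriv (deriv F) (sq3 (u t) x) * rad2 (u t) x))
        + 2 * ∫ x in cube, deriv (deriv F) (sq3 (u t) x)
          * (p t x * adv (u t) (sq3 (u t)) x)) t := by
  have hI : t ∈ Ico 0 T := ⟨ht.1.le, ht.2⟩
  set v : V → V := u t with hvdef
  have hv : ∀ i, SP (fun y => v y i) := fun i => h.sp hI i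
  have hdiv : ∀ x, ∑ i, pd i (fun y => v y i) x = 0 := h.divfree t hI
  have hF' : ContDiff ℝ ∞ (deriv F) := (contDiff_infty_iff_deriv.1 hF).2
  have hq : SP (fun x => deriv F (sq3 v x)) := sp_comp (sp_sq3 hv) hF'
  have key := hasDerivAt_int (F := fun s x => F (sq3 (u s) x))
    (mono_Ioo (f := fun s x => F (sq3 (u s) x)) (F_contDiffOn h hF) (by norm_cast)) ht
  refine key.congr_deriv ?_
  have e1 : ∀ x, deriv (fun s => F (sq3 (u s) x)) t
      = ∑ i, 2 * (dt (fun s y => u s y i) t x * (deriv F (sq3 v x) * v x i)) := by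
    intro x
    have h2 : ∀ i, HasDerivAt (fun s => u s x i) (dt (fun s y => u s y i) t x) t := by
      intro i
      have := hasDerivAt_slice (F := fun s y => u s y i)
        (mono_Ioo (f := fun s y => u s y i) (h.smooth_c i) (by norm_cast)) ht x
      rwa [← H459R3.NS.dt_eq (f := fun s y => u s y i) (h.smooth_c i) ht x] at this
    have h3 : HasDerivAt (fun s => sq3 (u s) x)
        (∑ i, 2 * (v x i * dt (fun s y => u s y i) t x)) t := by
      have : HasDerivAt (fun s => ∑ i, u s x i ^ 2)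
          (∑ i, 2 * (v x i * dt (fun s y => u s y i) t x)) t := by
        refine HasDerivAt.fun_sum fun i _ => ?_
        refine ((h2 i).pow 2).congr_deriv ?_
        push_cast
        ring
      exact this
    have h4 : HasDerivAt F (deriv F (sq3 (u t) x)) (sq3 (u t) x) :=
      ((hF.differentiable (by norm_cast)) _).hasDerivAt
    have h5 := h4.comp t h3
    have h6 : deriv (fun s => F (sq3 (u s) x)) t
        = deriv F (sq3 (u t) x) * ∑ i, 2 * (v x i * dt (fun s y => u s y i) t x) := h5.deriv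
    rw [h6, Finset.mul_sum]
    refine Finset.sum_congr rfl fun i _ => ?_
    ring
  simp_rw [e1]
  have hdt : ∀ i, SP (dt (fun s y => u s y i) t) := fun i => h.sp_dt ht i
  rw [integral_finsetSum _ fun i _ => ((hdt i).mul (hq.mul (hv i))).int.const_mul 2]
  have e2 : ∀ i, ∫ x in cube, 2 * (dt (fun s y => u s y i) t x * (deriv F (sq3 v x) * v x i))
      = 2 * (ν * (∫ x in cube, lap (fun y => v y i) x * (deriv F (sq3 v x) * v x i))
        - (∫ x in cube, conv (fun i y => v y i) i x * (deriv F (sq3 v x) * v x i))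
        - ∫ x in cube, pd i (p t) x * (deriv F (sq3 v x) * v x i)) := by
    intro i
    have e : ∀ x, dt (fun s y => u s y i) t x * (deriv F (sq3 v x) * v x i)
        = ν * (lap (fun y => v y i) x * (deriv F (sq3 v x) * v x i))
          - conv (fun i y => v y i) i x * (deriv F (sq3 v x) * v x i)
          - pd i (p t) x * (deriv F (sq3 v x) * v x i) := by
      intro x
      rw [h.dt_eq ht]
      ring
    rw [integral_const_mul]
    simp_rw [e]
    have i1 : IntegrableOn (fun x => ν * (lap (fun y => v y i) x * (deriv F (sq3 v x) * v x i)))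
      cube := ((hv i).lap.mul (hq.mul (hv i))).int.const_mul ν
    have i2 : IntegrableOn (fun x => conv (fun i y => v y i) i x * (deriv F (sq3 v x) * v x i))
      cube := ((sp_conv hv i).mul (hq.mul (hv i))).int
    have i3 : IntegrableOn (fun x => pd i (p t) x * (deriv F (sq3 v x) * v x i)) cube :=
      (((h.sp_p hI).pd i).mul (hq.mul (hv i))).int
    have i12 : IntegrableOn (fun x => ν * (lap (fun y => v y i) x * (deriv F (sq3 v x) * v x i))
          - conv (fun i y => v y i) i x * (deriv F (sq3 v x) * v x i)) cube := i1.sub i2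
    rw [integral_sub i12 i3, integral_sub i1 i2, integral_const_mul]
  simp_rw [e2]
  rw [← Finset.mul_sum, Finset.sum_sub_distrib, Finset.sum_sub_distrib, ← Finset.mul_sum,
    int_visc hv hF', int_conv_F hv hdiv hF, int_press_F hv hdiv hF' (h.sp_p hI)]
  ring

end evo

end Pool.Agent.TH811.SPD
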