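import Pool.Agent.TH811.SPD.Calc
import Pool.Agent.TH811.SPD.Evol
import Pool.Agent.W268.NS.Crit

/-!
The potential term.
-/

open MeasureTheory Set Filter Topology
open scoped ENNReal
open H459R3.NS Pool.Agent.W268.NS

namespace Pool.Agent.TH811.SPD

theorem nrm_one : nrm (fun _ : V => (1 : ℝ)) = 1 := by
  unfold nrm
  have : ∫ _ in cube, (1 : ℝ) ^ 2 = 1 := by
    simp [Measure.real, volume_cube]
  rw [this, Real.sqrt_one]

theorem int_const_cube (c : ℝ) : ∫ _ in cube, c = c := by
  rw [setIntegral_const]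
  simp [Measure.real, volume_cube]

theorem sp_const (c : ℝ) : SP (fun _ : V => c) := ⟨contDiff_const, fun _ _ => rfl⟩

/-- Splitting off the mean value. -/
theorem mean_split {f z : V → ℝ} {β c : ℝ} (hz : SP z) (hfi : IntegrableOn f cube)
    (hf0 : ∀ x, 0 ≤ f x) (hfβ : ∫ x in cube, f x ≤ β)
    (hg : ∫ x in cube, f x * ((z x - ∫ y in cube, z y) * (z x - ∫ y in cube, z y)) ≤ c) :
    ∫ x in cube, f x * z x ^ 2 ≤ 2 * β * nrm z ^ 2 + 2 * c := by
  have := cube_fin
  set m := ∫ y in cube, z y with hm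
  have hm2 : m ^ 2 ≤ nrm z ^ 2 := by
    have h1 := abs_int_mul_le hz.cont (continuous_const (y := (1 : ℝ)))
    simp only [mul_one] at h1
    rw [nrm_one, mul_one] at h1
    rw [← sq_abs m]
    exact pow_le_pow_left₀ (abs_nonneg _) h1 2
  have ct1 : Continuous (fun x => (z x - m) * (z x - m)) :=
    (hz.cont.sub continuous_const).mul (hz.cont.sub continuous_const)
  have imul : ∀ {g : V → ℝ}, Continuous g → IntegrableOn (fun x => f x * g x) cube := by
    intro g hg
    obtain ⟨B, hB⟩ := isCompact_Icc.exists_bound_of_continuousOn (s := cube) hg.continuousOn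
    refine Integrable.mul_bdd (c := B) hfi hg.aestronglyMeasurable ?_
    exact (ae_restrict_iff' measurableSet_Icc).2 (Filter.Eventually.of_forall fun x hx => hB x hx)
  have j1 : IntegrableOn (fun x => 2 * m ^ 2 * f x) cube := hfi.const_mul _
  have j2 : IntegrableOn (fun x => 2 * (f x * ((z x - m) * (z x - m)))) cube :=
    (imul ct1).const_mul _
  calc ∫ x in cube, f x * z x ^ 2
      ≤ ∫ x in cube, (2 * m ^ 2 * f x + 2 * (f x * ((z x - m) * (z x - m)))) := by
        refine integral_mono (imul (hz.cont.pow 2)) (j1.add j2) fun x => ?_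
        have h3 : z x ^ 2 ≤ 2 * m ^ 2 + 2 * ((z x - m) * (z x - m)) := by
          nlinarith [sq_nonneg (z x - 2 * m)]
        have := mul_le_mul_of_nonneg_left h3 (hf0 x)
        show f x * z x ^ 2 ≤ 2 * m ^ 2 * f x + 2 * (f x * ((z x - m) * (z x - m)))
        linarith
    _ = 2 * m ^ 2 * (∫ x in cube, f x) + 2 * ∫ x in cube, f x * ((z x - m) * (z x - m)) := by
        rw [integral_add j1 j2, integral_const_mul, integral_const_mul]
    _ ≤ 2 * nrm z ^ 2 * β + 2 * c := by
        have a1 : 0 ≤ ∫ x in cube, f x := integral_nonneg hf0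
        have a2 := sq_nonneg m
        have a3 := sq_nonneg (nrm z)
        gcongr
    _ = _ := by ring

/-- The potential term. -/
theorem pot_le {p : ℝ≥0∞} (hp : 3 / 2 < p) {N α ε : ℝ} (hN : 0 ≤ N) (hα : 0 < α) (hε : 0 < ε) :
    ∃ D : ℝ, 0 ≤ D ∧ ∀ (f : V → ℝ) (v : V → V) (β : ℝ),
      AEStronglyMeasurable f (volume.restrict cube) → 0 ≤ β →
      eLpNorm f p (volume.restrict cube) ≤ ENNReal.ofReal β → (∀ x, 0 ≤ f x) →
      (∀ i, SP (fun y => v y i)) →
      IntegrableOn f cube ∧
      ∫ x in cube, f x * ze N (sq3 v x) ^ (α + 1)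
        ≤ ε * (∫ x in cube, psi N α (sq3 v x) * grad2 v x)
          + D * ((β + β ^ (2 / (2 - th p))) * ∫ x in cube, ze N (sq3 v x) ^ (α + 1)) := by
  obtain ⟨C1, hC10, hC1⟩ := pot_of_Lp hp
  obtain ⟨D1, hD10, hD1⟩ := young2 (θ := th p) (ε := ε / (2 * (α + 1) ^ 2)) (c := C1)
    (th_nonneg p) (th_lt_two hp) (by positivity) hC10
  refine ⟨2 + 2 * D1, by positivity, fun f v β hf hβ hfβ hf0 hv => ?_⟩
  have := cube_fin
  have hprob : IsProbabilityMeasure (volume.restrict cube) := ⟨by
    rw [Measure.restrict_apply_univ, volume_cube]⟩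
  have hp1 : 1 ≤ p := by
    refine le_trans ?_ hp.le
    rw [ENNReal.le_div_iff_mul_le (by norm_num) (by norm_num)]
    norm_num
  have hLp : MemLp f p (volume.restrict cube) := ⟨hf, hfβ.trans_lt ENNReal.ofReal_lt_top⟩
  have hfi : IntegrableOn f cube := hLp.integrable hp1
  refine ⟨hfi, ?_⟩
  have hfI : ∫ x in cube, f x ≤ β := by
    have h1 : ENNReal.ofReal (∫ x in cube, f x) ≤ ENNReal.ofReal β := by
      rw [ofReal_integral_eq_lintegral_ofReal hfi (Filter.Eventually.of_forall hf0)]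
      refine le_trans ?_ ((eLpNorm_le_eLpNorm_of_exponent_le hp1 hf).trans hfβ)
      rw [eLpNorm_one_eq_lintegral_enorm]
      refine lintegral_mono fun x => ?_
      rw [← ofReal_norm, Real.norm_eq_abs, abs_of_nonneg (hf0 x)]
    exact (ENNReal.ofReal_le_ofReal_iff hβ).1 h1
  set w : V → ℝ := sq3 v with hw
  have hws : SP w := sp_sq3 hv
  set z : V → ℝ := fun x => ze N (w x) ^ ((α + 1) / 2) with hz
  have hzs : SP z := sp_comp hws (rpow_ze_contDiff hN _)
  have hz2 : ∀ x, z x ^ 2 = ze N (w x) ^ (α + 1) := by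
    intro x
    simp only [hz]
    rw [← Real.rpow_natCast, ← Real.rpow_mul (ze_pos hN _).le]
    congr 1
    push_cast
    ring
  set m := ∫ y in cube, z y with hm
  set g : V → ℝ := fun x => z x - m with hg
  have hgs : SP g := SP.sub' hzs (sp_const m)
  have hg0 : ∫ x in cube, g x = 0 := by
    simp only [hg]
    rw [integral_sub hzs.int (sp_const m).int, int_const_cube, ← hm, sub_self]
  have hpot := hC1 f β g hf hβ hfβ hgs hg0
  -- norms
  have hnrm : nrm g ^ 2 ≤ nrm z ^ 2 := by
    rw [nrm_sq, nrm_sq]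
    have e : ∀ x, g x ^ 2 = z x ^ 2 - (2 * m * z x - m ^ 2) := fun x => by
      simp only [hg]; ring
    simp_rw [e]
    have i1 : IntegrableOn (fun x => z x ^ 2) cube := integrableOn_cube (hzs.cont.pow 2)
    have i2 : IntegrableOn (fun x => 2 * m * z x) cube := hzs.int.const_mul _
    have i3 : IntegrableOn (fun _ : V => m ^ 2) cube := (sp_const _).int
    have i4 : IntegrableOn (fun x => 2 * m * z x - m ^ 2) cube := i2.sub i3
    rw [integral_sub i1 i4, integral_sub i2 i3, integral_const_mul, ← hm, int_const_cube]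
    nlinarith [sq_nonneg m]
  have hgrd : grd g ^ 2 ≤ (α + 1) ^ 2 * ∫ x in cube, psi N α (w x) * grad2 v x := by
    have ij : ∀ j, IntegrableOn (fun x => pd j g x ^ 2) cube := fun j =>
      integrableOn_cube ((hgs.pd j).cont.pow 2)
    rw [grd_sq, ← integral_finsetSum _ fun j _ => ij j, ← integral_const_mul]
    refine integral_mono (integrable_finsetSum _ fun j _ => ij j)
      (((sp_comp hws (psi_contDiff hN)).mul (sp_grad2 hv)).int.const_mul _) fun x => ?_
    show ∑ j, pd j g x ^ 2 ≤ (α + 1) ^ 2 * (psi N α (w x) * grad2 v x)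
    have e1 : ∀ j, pd j g x = (α + 1) / 2 * ze N (w x) ^ ((α + 1) / 2 - 1) * tau N (w x)
        * pd j w x := by
      intro j
      have a1 : pd j g x = pd j z x - pd j (fun _ => m) x := pd_sub hzs (sp_const m) j x
      have a2 : pd j (fun _ : V => m) x = 0 := by unfold pd; simp
      have a3 : pd j z x = deriv (fun s => ze N s ^ ((α + 1) / 2)) (w x) * pd j w x :=
        pd_comp hws (rpow_ze_contDiff hN _) j x
      rw [a1, a2, sub_zero, a3, (rpow_ze_hasDerivAt hN _ _).deriv]
    have e2 : ∑ j, pd j w x ^ 2 = 4 * rad2 v x := by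
      unfold rad2
      rw [Finset.mul_sum]
      refine Finset.sum_congr rfl fun j _ => ?_
      rw [hw, pd_sq3 hv]
      ring
    simp_rw [e1, mul_pow]
    rw [← Finset.mul_sum, e2]
    have hzp := ze_pos hN (w x)
    have e3 : (ze N (w x) ^ ((α + 1) / 2 - 1)) ^ 2 = ze N (w x) ^ (α - 1) := by
      rw [← Real.rpow_natCast, ← Real.rpow_mul hzp.le]
      congr 1
      push_cast
      ring
    rw [e3]
    have e4 : psi N α (w x) = ze N (w x) ^ (α - 1) * ze N (w x) := by
      unfold psi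
      rw [Real.rpow_sub_one hzp.ne']
      field_simp
    rw [e4]
    have t0 := tau_nonneg N (w x)
    have t1 := tau_le_one N (w x)
    have t2 : tau N (w x) ^ 2 ≤ 1 := pow_le_one₀ t0 t1
    have r0 := rad2_nonneg v x
    have r1 := rad2_le v x
    have g0 := grad2_nonneg v x
    have z1 := ze_ge_self hN (w x)
    have b1 : tau N (w x) ^ 2 * rad2 v x ≤ ze N (w x) * grad2 v x :=
      calc tau N (w x) ^ 2 * rad2 v x ≤ 1 * rad2 v x := mul_le_mul_of_nonneg_right t2 r0
        _ = rad2 v x := one_mul _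
        _ ≤ w x * grad2 v x := r1
        _ ≤ ze N (w x) * grad2 v x := mul_le_mul_of_nonneg_right z1 g0
    have b2 : 0 ≤ (α + 1) ^ 2 * ze N (w x) ^ (α - 1) := by positivity
    have b3 := mul_le_mul_of_nonneg_left b1 b2
    calc ((α + 1) / 2) ^ 2 * ze N (w x) ^ (α - 1) * tau N (w x) ^ 2 * (4 * rad2 v x)
        = (α + 1) ^ 2 * ze N (w x) ^ (α - 1) * (tau N (w x) ^ 2 * rad2 v x) := by ring
      _ ≤ _ := b3
      _ = _ := by ring
  have hY := hD1 β (nrm g) (grd g) hβ (nrm_nonneg _) (grd_nonneg _)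
  have hc : ∫ x in cube, f x * ((z x - ∫ y in cube, z y) * (z x - ∫ y in cube, z y))
      ≤ (ε / 2) * (∫ x in cube, psi N α (w x) * grad2 v x)
        + D1 * (β ^ (2 / (2 - th p)) * nrm z ^ 2) := by
    have h1 := (le_abs_self _).trans hpot
    refine h1.trans ?_
    have h3 : C1 * β * (nrm g ^ (2 - th p) * grd g ^ th p)
        = C1 * (β * (nrm g ^ (2 - th p) * grd g ^ th p)) := by ring
    rw [h3]
    refine hY.trans (add_le_add ?_ ?_)
    · calc ε / (2 * (α + 1) ^ 2) * grd g ^ 2
          ≤ ε / (2 * (α + 1) ^ 2) * ((α + 1) ^ 2 * ∫ x in cube, psi N α (w x) * grad2 v x) :=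
            mul_le_mul_of_nonneg_left hgrd (by positivity)
        _ = _ := by
            have : (α + 1) ≠ 0 := by positivity
            field_simp
    · have := Real.rpow_nonneg hβ (2 / (2 - th p))
      gcongr
  have hfin := mean_split hzs hfi hf0 hfI hc
  have hn2 : nrm z ^ 2 = ∫ x in cube, ze N (w x) ^ (α + 1) := by
    rw [nrm_sq]
    simp_rw [hz2]
  simp_rw [hz2] at hfin
  rw [hn2] at hfin
  refine hfin.trans ?_
  have hI0 : 0 ≤ ∫ x in cube, ze N (w x) ^ (α + 1) :=
    integral_nonneg fun x => Real.rpow_nonneg (ze_pos hN _).le _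
  have hβq := Real.rpow_nonneg hβ (2 / (2 - th p))
  have c1 : 0 ≤ D1 * (β * ∫ x in cube, ze N (w x) ^ (α + 1)) := by positivity
  have c2 : 0 ≤ β ^ (2 / (2 - th p)) * ∫ x in cube, ze N (w x) ^ (α + 1) := by positivity
  nlinarith

end Pool.Agent.TH811.SPD
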