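import Pool.Agent.TH811.SPD.Two

/-!
The two-point condition, conclusion.
-/

open MeasureTheory Set Filter Topology
open scoped ENNReal
open H459R3.NS Pool.Agent.W268.NS

namespace Pool.Agent.TH811.SPD

variable {v : V → V} (hv : ∀ i, SP (fun y => v y i))
  (hdiv : ∀ x, ∑ i, pd i (fun y => v y i) x = 0) {w : V → ℝ} (hw : SP w)

/-- clamping is `1`-Lipschitz -/
theorem clamp_lip (n a b : ℝ) :
    |max (-n) (min a n) - max (-n) (min b n)| ≤ |a - b| := by
  refine (abs_max_sub_max_le_max _ _ _ _).trans ?_
  rw [sub_self, abs_zero]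
  refine max_le (abs_nonneg _) ?_
  refine (abs_min_sub_min_le_max _ _ _ _).trans ?_
  rw [sub_self, abs_zero]
  exact max_le le_rfl (abs_nonneg _)

/-- The pointwise inequality. -/
theorem clamp_point {h D k n : ℝ} (hn : 0 ≤ n) (hD : D ≠ 0) (hpos : 0 < D → h / D ≤ k)
    (hneg : D < 0 → k ≤ h / D) : h - max (-n) (min k n) * D ≤ if n < |k| then |h| else 0 := by
  have hen0 : 0 ≤ if n < |k| then |h| else 0 := by
    split_ifs
    · exact abs_nonneg _
    · exact le_rfl
  set kn := max (-n) (min k n) with hkn
  have h4 : h = (h / D) * D := by field_simp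
  have e : h - kn * D = (h / D - kn) * D := by rw [sub_mul, ← h4]
  rcases lt_or_gt_of_ne hD with hD' | hD'
  · have h3 := hneg hD'
    by_cases hc : kn ≤ h / D
    · rw [e]
      exact (mul_nonpos_of_nonneg_of_nonpos (sub_nonneg.2 hc) hD'.le).trans hen0
    · push Not at hc
      have h5 : k < -n := by
        by_contra hcon
        push Not at hcon
        have : kn ≤ k := max_le hcon (min_le_left _ _)
        linarith
      have h6 : kn = -n := max_eq_left ((min_le_left _ _).trans h5.le)
      have h7 : n < |k| := by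
        rw [lt_abs]; right; linarith
      rw [h6, if_pos h7]
      have := le_abs_self h
      nlinarith
  · have h3 := hpos hD'
    by_cases hc : h / D ≤ kn
    · rw [e]
      exact (mul_nonpos_of_nonpos_of_nonneg (sub_nonpos.2 hc) hD'.le).trans hen0
    · push Not at hc
      have h5 : n < k := by
        by_contra hcon
        push Not at hcon
        have : k ≤ kn := by
          rw [hkn, min_eq_left hcon]
          exact le_max_right _ _
        linarith
      have h6 : kn = n := by
        rw [hkn, min_eq_right h5.le]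
        exact max_eq_right (by linarith)
      have h7 : n < |k| := by
        rw [lt_abs]; left; exact h5
      rw [h6, if_pos h7]
      have := le_abs_self h
      nlinarith

include hv hdiv hw in
/-- The two-point condition. -/
theorem two_pt (hw0 : ∀ x, 0 ≤ w x) {L : ℝ → ℝ} (hL : Continuous L) (hL0 : ∀ s, 0 ≤ L s)
    {h : V → ℝ} (hh : IntegrableOn h cube) {Z : Set V} (hZ : volume Z = 0)
    (h0 : ∀ x ∈ cube \ Z, adv v w x = 0 → h x ≤ 0)
    (h2 : ∀ x ∈ cube \ Z, ∀ y ∈ cube \ Z, w x = w y → 0 < adv v w x → adv v w y < 0 →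
      h x / adv v w x ≤ h y / adv v w y + L (w x) * tdist x y) :
    ∫ x in cube, h x ≤ 6 * Real.pi * ∫ x in cube, (∑ i, |v x i|) * ∫ r in (0 : ℝ)..w x, L r := by
  have := cube_fin
  set D : V → ℝ := adv v w with hD
  have hDc : Continuous D := (sp_adv hv hw).cont
  obtain ⟨K, hKm, hKlip, hK1, hK2'⟩ := exists_sep' hDc hw hL hL0 hh hZ h2
  have hz : ∀ᵐ x ∂(volume.restrict cube), x ∈ cube \ Z := by
    rw [ae_restrict_iff' measurableSet_cube]
    filter_upwards [measure_eq_zero_iff_ae_notMem.1 hZ] with x hx hxc
    exact ⟨hxc, hx⟩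
  have hK2 : ∀ᵐ x ∂(volume.restrict cube), D x < 0 → K x (w x) ≤ ((h x / D x : ℝ) : EReal) := by
    filter_upwards [hz] with x hx
    exact hK2' x hx
  have hDi : IntegrableOn D cube := (sp_adv hv hw).int
  -- infinite values
  have htopiff : ∀ x y s, K x s = ⊤ → K y s = ⊤ := by
    intro x y s hx
    have h3 := hKlip x y s
    rw [hx, top_le_iff] at h3
    by_contra hne
    exact (EReal.add_lt_top hne (EReal.coe_ne_top _)).ne h3
  have hbotiff : ∀ x y s, K x s = ⊥ → K y s = ⊥ := by
    intro x y s hx
    have h3 := hKlip y x s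
    rw [hx, EReal.bot_add, le_bot_iff] at h3
    exact h3
  classical
  have htop : ∀ᵐ x ∂(volume.restrict cube), K x (w x) = ⊤ → D x = 0 := by
    set k : ℝ → ℝ := fun s => if K 0 s = ⊤ then 1 else 0 with hk
    have hkm : Measurable k := Measurable.ite (hKm 0 (measurableSet_singleton _)) measurable_const
      measurable_const
    have hkb : ∀ s, |k s| ≤ 1 := fun s => by simp only [hk]; split_ifs <;> simp
    have h1 := int_null_one hv hdiv hw hkm hkb
    have hi : IntegrableOn (fun x => k (w x) * D x) cube :=
      hDi.bdd_mul (c := 1) (hkm.comp hw.cont.measurable).aestronglyMeasurable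
        (Filter.Eventually.of_forall fun x => hkb _)
    have h3 : 0 ≤ᵐ[volume.restrict cube] fun x => k (w x) * D x := by
      filter_upwards [hK2] with x hx
      show 0 ≤ k (w x) * D x
      by_cases hkt : K 0 (w x) = ⊤
      · by_cases hneg : D x < 0
        · have := hx hneg
          rw [htopiff 0 x _ hkt, top_le_iff] at this
          exact absurd this (EReal.coe_ne_top _)
        · simp only [hk, if_pos hkt, one_mul]
          exact not_lt.1 hneg
      · simp [hk, if_neg hkt]
    have h4 := (integral_eq_zero_iff_of_nonneg_ae h3 hi).1 h1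
    filter_upwards [h4] with x hx hkt
    simpa [hk, htopiff x 0 _ hkt] using hx
  have hbot : ∀ᵐ x ∂(volume.restrict cube), K x (w x) = ⊥ → D x = 0 := by
    set k : ℝ → ℝ := fun s => if K 0 s = ⊥ then -1 else 0 with hk
    have hkm : Measurable k := Measurable.ite (hKm 0 (measurableSet_singleton _)) measurable_const
      measurable_const
    have hkb : ∀ s, |k s| ≤ 1 := fun s => by simp only [hk]; split_ifs <;> simp
    have h1 := int_null_one hv hdiv hw hkm hkb
    have hi : IntegrableOn (fun x => k (w x) * D x) cube :=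
      hDi.bdd_mul (c := 1) (hkm.comp hw.cont.measurable).aestronglyMeasurable
        (Filter.Eventually.of_forall fun x => hkb _)
    have h3 : 0 ≤ᵐ[volume.restrict cube] fun x => k (w x) * D x := by
      filter_upwards [hK1] with x hx
      show 0 ≤ k (w x) * D x
      by_cases hkt : K 0 (w x) = ⊥
      · by_cases hpos : 0 < D x
        · have := hx hpos
          rw [hbotiff 0 x _ hkt, le_bot_iff] at this
          exact absurd this (EReal.coe_ne_bot _)
        · simp only [hk, if_pos hkt, neg_mul, one_mul]
          linarith [not_lt.1 hpos]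
      · simp [hk, if_neg hkt]
    have h4 := (integral_eq_zero_iff_of_nonneg_ae h3 hi).1 h1
    filter_upwards [h4] with x hx hkt
    simpa [hk, hbotiff x 0 _ hkt] using hx
  -- the real valued functions
  set k : V → ℝ → ℝ := fun x s => (K x s).toReal with hk
  have hkm : ∀ x, Measurable (k x) := fun x => (hKm x).ereal_toReal
  have hklip1 : ∀ x y s, k x s ≤ k y s + L s * tdist x y := by
    intro x y s
    have hr : 0 ≤ L s * tdist x y := mul_nonneg (hL0 s) (tdist_nonneg x y)
    by_cases hT : K x s = ⊤
    · have hT' := htopiff x y s hT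
      simp only [hk, hT, hT', EReal.toReal_top]
      linarith
    by_cases hB : K x s = ⊥
    · have hB' := hbotiff x y s hB
      simp only [hk, hB, hB', EReal.toReal_bot]
      linarith
    have hT' : K y s ≠ ⊤ := fun e => hT (htopiff y x s e)
    have hB' : K y s ≠ ⊥ := fun e => hB (hbotiff y x s e)
    have h3 := hKlip x y s
    rw [← EReal.coe_toReal hT hB, ← EReal.coe_toReal hT' hB', ← EReal.coe_add] at h3
    exact_mod_cast h3
  have hklip : ∀ x y s, |k x s - k y s| ≤ L s * tdist x y := by
    intro x y s
    rw [abs_le]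
    have h3 := hklip1 x y s
    have h4 := hklip1 y x s
    rw [tdist_comm y x] at h4
    constructor <;> linarith
  set kn : ℕ → V → ℝ → ℝ := fun n x s => max (-(n : ℝ)) (min (k x s) n) with hkn
  have hknm : ∀ n x, Measurable (kn n x) := fun n x =>
    measurable_const.max ((hkm x).min measurable_const)
  have hknb : ∀ n x s, |kn n x s| ≤ n := by
    intro n x s
    rw [abs_le]
    have hn : (0 : ℝ) ≤ n := Nat.cast_nonneg n
    exact ⟨le_max_left _ _, max_le (by linarith) (min_le_right _ _)⟩
  have hknlip : ∀ n x y s, |kn n x s - kn n y s| ≤ L s * tdist x y := fun n x y s =>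
    (clamp_lip _ _ _).trans (hklip x y s)
  -- the error
  set B0 : V → ℝ := fun x => |k 0 (w x)| + 3 * L (w x) with hB0
  have hLw : Continuous fun x => L (w x) := hL.comp hw.cont
  have hB0m : Measurable B0 :=
    ((hkm 0).comp hw.cont.measurable).abs.add (measurable_const.mul hLw.measurable)
  have hkB : ∀ x, |k x (w x)| ≤ B0 x := by
    intro x
    have h3 := hklip x 0 (w x)
    have h4 := mul_le_mul_of_nonneg_left (tdist_le x 0) (hL0 (w x))
    have h5 := abs_sub_abs_le_abs_sub (k x (w x)) (k 0 (w x))
    simp only [hB0]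
    linarith
  set en : ℕ → V → ℝ := fun n x => if (n : ℝ) < B0 x then |h x| else 0 with hen
  have hen0 : ∀ n x, 0 ≤ en n x := by
    intro n x
    simp only [hen]
    split_ifs
    · exact abs_nonneg _
    · exact le_rfl
  have henm : ∀ n, AEStronglyMeasurable (en n) (volume.restrict cube) := by
    intro n
    have hs : MeasurableSet {x | (n : ℝ) < B0 x} := measurableSet_lt measurable_const hB0m
    have : en n = Set.indicator {x | (n : ℝ) < B0 x} (fun x => |h x|) := by
      funext x
      simp only [hen, Set.indicator, mem_ofPred_eq]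
    rw [this]
    exact (hh.aestronglyMeasurable.norm).indicator hs
  have henb : ∀ n, ∀ᵐ x ∂(volume.restrict cube), ‖en n x‖ ≤ |h x| := by
    intro n
    refine Filter.Eventually.of_forall fun x => ?_
    simp only [hen]
    split_ifs
    · rw [Real.norm_eq_abs, abs_abs]
    · rw [norm_zero]; exact abs_nonneg _
  have heni : ∀ n, IntegrableOn (en n) cube := fun n =>
    Integrable.mono' hh.abs (henm n) (henb n)
  have hlim : Tendsto (fun n => ∫ x in cube, en n x) atTop (𝓝 (∫ x in cube, (0 : ℝ))) := by
    refine tendsto_integral_of_dominated_convergence (fun x => |h x|) henm hh.abs henb ?_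
    refine Filter.Eventually.of_forall fun x => ?_
    refine tendsto_const_nhds.congr' ?_
    filter_upwards [eventually_ge_atTop ⌈B0 x⌉₊] with n hn
    have : B0 x ≤ n := (Nat.le_ceil _).trans (by exact_mod_cast hn)
    simp only [hen, if_neg (not_lt.2 this)]
  rw [integral_zero] at hlim
  set R : ℝ := 6 * Real.pi * ∫ x in cube, (∑ i, |v x i|) * ∫ r in (0 : ℝ)..w x, L r with hR
  set E : ℝ := ∫ x in cube, L (w x) * |D x| with hE
  have hEi : IntegrableOn (fun x => L (w x) * |D x|) cube := integrableOn_cube (hLw.mul hDc.abs)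
  have hlim2 : Tendsto (fun n : ℕ => (3 : ℝ) / ((n + 1 : ℕ) : ℝ)) atTop (𝓝 0) := by
    have := tendsto_one_div_add_atTop_nhds_zero_nat (𝕜 := ℝ)
    have h3 := this.const_mul 3
    rw [mul_zero] at h3
    refine h3.congr fun n => ?_
    push_cast
    ring
  have hlim3 : Tendsto (fun n : ℕ => (∫ x in cube, en n x) + (3 / ((n + 1 : ℕ) : ℝ)) * E + R) atTop
      (𝓝 (0 + 0 * E + R)) := (hlim.add (hlim2.mul_const E)).add_const R
  rw [zero_mul, zero_add, zero_add] at hlim3
  refine ge_of_tendsto' hlim3 fun n => ?_
  set μ := n + 1 with hμ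
  set N := μ ^ 2 + 2 with hN
  have hμ1 : 1 ≤ μ := by omega
  have hN1 : μ ^ 2 + 1 < N := by omega
  obtain ⟨i1, i2⟩ := int_avg hv hdiv hw hw0 hL hL0 (hknm n) (hknb n) (hknlip n) hμ1 hN1
  set J : V → ℝ := avg (μ ^ 2) N (kn n) w with hJ
  have e1 : ∫ x in cube, h x = (∫ x in cube, (h x - J x * D x)) + ∫ x in cube, J x * D x := by
    rw [integral_sub hh i1]; ring
  rw [e1]
  refine add_le_add ?_ i2
  rw [← integral_const_mul, ← integral_add (heni n) (hEi.const_mul _)]
  refine integral_mono_ae (hh.sub i1) ((heni n).add (hEi.const_mul _)) ?_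
  filter_upwards [hz, hK1, hK2, htop, hbot] with x hx hx1 hx2 hxt hxb
  show h x - J x * D x ≤ en n x + 3 / (μ : ℝ) * (L (w x) * |D x|)
  have h5 := avg_sub (w := w) hL0 (hknlip n) hμ1 hN1 x
  have h6 : h x - kn n x (w x) * D x ≤ en n x := by
    rcases eq_or_ne (D x) 0 with hD0 | hD0
    · rw [hD0, mul_zero, sub_zero]
      exact (h0 x hx hD0).trans (hen0 n x)
    · have ht : K x (w x) ≠ ⊤ := fun h => hD0 (hxt h)
      have hb : K x (w x) ≠ ⊥ := fun h => hD0 (hxb h)
      refine (clamp_point (Nat.cast_nonneg n) hD0 (k := k x (w x)) (fun hpos => ?_)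
        fun hneg => ?_).trans ?_
      · have := hx1 hpos
        rw [← EReal.coe_toReal ht hb] at this
        exact_mod_cast this
      · have := hx2 hneg
        rw [← EReal.coe_toReal ht hb] at this
        exact_mod_cast this
      · simp only [hen]
        split_ifs with c1 c2 c2
        · exact le_rfl
        · exact absurd (c1.trans_le (hkB x)) c2
        · exact abs_nonneg _
        · exact le_rfl
  have h7 : (kn n x (w x) - J x) * D x ≤ 3 / (μ : ℝ) * (L (w x) * |D x|) := by
    refine (le_abs_self _).trans ?_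
    rw [abs_mul]
    calc |kn n x (w x) - J x| * |D x| ≤ (L (w x) * (3 / μ)) * |D x| := by gcongr
      _ = _ := by ring
  calc h x - J x * D x = (h x - kn n x (w x) * D x) + (kn n x (w x) - J x) * D x := by ring
    _ ≤ _ := add_le_add h6 h7

end Pool.Agent.TH811.SPD
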