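import Pool.Agent.TH811.SPD.Calc
import Pool.Agent.TH811.SPD.Evol
import Pool.Agent.TH811.SPD.Two2

/-!
The bound of the pressure term.
-/

open MeasureTheory Set Filter Topology
open scoped ContDiff
open H459R3.NS Pool.Agent.W268.NS

namespace Pool.Agent.TH811.SPD

section

variable {N α : ℝ} (hN : 0 ≤ N) (hα : 0 < α)

include hN

theorem zepow (s : ℝ) : ze N s ^ (α + 1) = psi N α s * ze N s := by
  unfold psi
  exact Real.rpow_add_one (ze_pos hN s).ne' α

theorem psi_mul_le {s c : ℝ} (h : c ≤ ze N s) : psi N α s * c ≤ ze N s ^ (α + 1) := by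
  rw [zepow hN]
  exact mul_le_mul_of_nonneg_left h (psi_pos hN s).le

theorem psi_zero : psi N α 0 = (N + 1) ^ α := by
  unfold psi
  rw [ze_low le_rfl hN]

theorem psi_low {s : ℝ} (h0 : 0 ≤ s) (h : s ≤ N) : psi N α s = psi N α 0 := by
  rw [psi_zero hN]
  unfold psi
  rw [ze_low h0 h]

theorem dpsi_contDiff : ContDiff ℝ ∞ (deriv (psi N α)) :=
  (contDiff_infty_iff_deriv.1 (psi_contDiff hN)).2

include hα

theorem psi_mono {s : ℝ} (h0 : 0 ≤ s) : psi N α 0 ≤ psi N α s := by
  have hm : Monotone (psi N α) := monotone_of_deriv_nonneg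
    ((psi_contDiff hN).differentiable (by norm_cast)) fun s => dpsi_nonneg hN hα.le s
  exact hm h0

theorem int_dpsi {s l : ℝ} (hl : 0 ≤ l) (h0 : 0 ≤ s) :
    ∫ r in (0 : ℝ)..s, deriv (psi N α) r * (l * (1 + Real.sqrt r))
      ≤ psi N α s * (l * (1 + Real.sqrt s)) := by
  have hc := (dpsi_contDiff (α := α) hN).continuous
  have hc2 : Continuous fun r : ℝ => l * (1 + Real.sqrt r) := by fun_prop
  calc ∫ r in (0 : ℝ)..s, deriv (psi N α) r * (l * (1 + Real.sqrt r))
      ≤ ∫ r in (0 : ℝ)..s, deriv (psi N α) r * (l * (1 + Real.sqrt s)) := by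
        refine intervalIntegral.integral_mono_on h0 ((hc.mul hc2).intervalIntegrable _ _)
          ((hc.mul continuous_const).intervalIntegrable _ _) fun r hr => ?_
        have h1 := dpsi_nonneg hN hα.le r
        have h2 := Real.sqrt_le_sqrt hr.2
        gcongr
    _ = (psi N α s - psi N α 0) * (l * (1 + Real.sqrt s)) := by
        rw [intervalIntegral.integral_mul_const]
        congr 1
        exact intervalIntegral.integral_deriv_eq_sub
          (fun r _ => ((psi_contDiff hN).differentiable (by norm_cast)) r)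
          (hc.intervalIntegrable _ _)
    _ ≤ _ := by
        have h3 := psi_pos (α := α) hN 0
        have h4 := Real.sqrt_nonneg s
        refine mul_le_mul_of_nonneg_right (by linarith) (by positivity)

end

theorem sum_abs_le (v : V → V) (x : V) : ∑ i, |v x i| ≤ 2 * Real.sqrt (sq3 v x) := by
  have h1 : (∑ i, |v x i|) ^ 2 ≤ 3 * sq3 v x := by
    have := sq_sum_le_card_mul_sum_sq (s := (Finset.univ : Finset (Fin 3))) (f := fun i => |v x i|)
    simp only [sq_abs, Finset.card_univ, Fintype.card_fin] at this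
    exact_mod_cast this
  have h2 := Real.sq_sqrt (sq3_nonneg v x)
  have h3 := Real.sqrt_nonneg (sq3 v x)
  have h4 := sq3_nonneg v x
  refine le_of_sq_le_sq ?_ (by positivity)
  rw [mul_pow, h2]
  linarith

theorem speed_factor {N : ℝ} (hN : 0 ≤ N) (v : V → V) (x : V) :
    (∑ i, |v x i|) * (1 + Real.sqrt (sq3 v x)) ≤ 4 * ze N (sq3 v x) := by
  have h0 := sum_abs_le v x
  have h1 := Real.sqrt_nonneg (sq3 v x)
  have h2 := Real.sq_sqrt (sq3_nonneg v x)
  have h3 := one_le_ze hN (sq3 v x)
  have h4 := ze_ge_self hN (sq3 v x)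
  set r := Real.sqrt (sq3 v x)
  have h5 : (∑ i, |v x i|) * (1 + r) ≤ 2 * r * (1 + r) :=
    mul_le_mul_of_nonneg_right h0 (by linarith)
  nlinarith [sq_nonneg (r - 1)]

/-- products of integrable and smooth functions -/
theorem int_mul_cont {f g : V → ℝ} (hf : IntegrableOn f cube) (hg : Continuous g) :
    IntegrableOn (fun x => f x * g x) cube := by
  obtain ⟨B, hB⟩ := isCompact_Icc.exists_bound_of_continuousOn (s := cube) hg.continuousOn
  refine Integrable.mul_bdd (c := B) hf hg.aestronglyMeasurable ?_
  exact (ae_restrict_iff' measurableSet_Icc).2 (Filter.Eventually.of_forall fun x hx => hB x hx)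

/-- The bound of the pressure term. -/
theorem press_le {N α c l : ℝ} (hN : 0 ≤ N) (hα : 0 < α) (hc : 0 ≤ c) (hl : 0 ≤ l)
    {v : V → V} (hv : ∀ i, SP (fun y => v y i)) (hdiv : ∀ x, ∑ i, pd i (fun y => v y i) x = 0)
    {P g f : V → ℝ} (hP : SP P) (hg : SP g) (hf : IntegrableOn f cube) (hf0 : ∀ x, 0 ≤ f x)
    {Z : Set V} (hZ : volume Z = 0)
    (h1 : ∀ x ∈ cube \ Z, N < sq3 v x → -adv v g x ≤ f x * (1 + sq3 v x))
    (h2 : ∀ x ∈ cube \ Z, ∀ y ∈ cube \ Z, sq3 v x = sq3 v y → N < sq3 v x → 0 < growth v x →
      growth v y < 0 → P x - g x - allow c f v x / growth v x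
        ≤ P y - g y - allow c f v y / growth v y + l * (1 + Real.sqrt (sq3 v x)) * tdist x y) :
    ∫ x in cube, deriv (psi N α) (sq3 v x) * (P x * adv v (sq3 v) x)
      ≤ 2 * α * c * (∫ x in cube, psi N α (sq3 v x) * grad2 v x)
        + 2 * c * (∫ x in cube, deriv (psi N α) (sq3 v x) * rad2 v x)
        + (4 * α + 2) * (∫ x in cube, f x * ze N (sq3 v x) ^ (α + 1))
        + 24 * Real.pi * l * ∫ x in cube, ze N (sq3 v x) ^ (α + 1) := by
  have := cube_fin
  set w : V → ℝ := sq3 v with hw
  have hws : SP w := sp_sq3 hv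
  have hw0 : ∀ x, 0 ≤ w x := sq3_nonneg v
  set φ : ℝ → ℝ := deriv (psi N α) with hφ
  have hφc : ContDiff ℝ ∞ φ := dpsi_contDiff hN
  have hφ0 : ∀ s, 0 ≤ φ s := fun s => dpsi_nonneg hN hα.le s
  have sφ : SP (fun x => φ (w x)) := sp_comp hws hφc
  have sψ : SP (fun x => psi N α (w x)) := sp_comp hws (psi_contDiff hN)
  have sz : SP (fun x => ze N (w x) ^ (α + 1)) := sp_comp hws (rpow_ze_contDiff hN _)
  have sG : SP (grad2 v) := sp_grad2 hv
  have sR : SP (rad2 v) := sp_rad2 hv
  have sD : SP (adv v w) := sp_adv hv hws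
  set D : V → ℝ := adv v w with hD
  have hDg : ∀ x, D x = 2 * growth v x := adv_sq3 hv
  have hallow : ∀ x, 0 ≤ allow c f v x := by
    intro x
    unfold allow
    have a1 := hw0 x
    have a2 := grad2_nonneg v x
    have a3 := rad2_nonneg v x
    have a4 := hf0 x
    have a5 : 0 ≤ sq3 v x := a1
    positivity
  set h : V → ℝ := fun x => φ (w x) * ((P x - g x) * D x) - 2 * (φ (w x) * allow c f v x) with hh
  -- integrability
  have e_al : ∀ x, φ (w x) * allow c f v x
      = c * (φ (w x) * (w x * grad2 v x + rad2 v x)) + f x * (φ (w x) * (w x * (1 + w x))) := by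
    intro x; unfold allow; ring
  have sv1 : SP (fun x => φ (w x) * (w x * grad2 v x + rad2 v x)) :=
    sφ.mul ((hws.mul sG).add sR)
  have ct2 : Continuous (fun x => φ (w x) * (w x * (1 + w x))) :=
    sφ.cont.mul (hws.cont.mul (continuous_const.add hws.cont))
  have ial : IntegrableOn (fun x => φ (w x) * allow c f v x) cube := by
    simp_rw [e_al]
    exact (sv1.int.const_mul c).add (int_mul_cont hf ct2)
  have iPg : IntegrableOn (fun x => φ (w x) * ((P x - g x) * D x)) cube :=
    (sφ.mul ((SP.sub' hP hg).mul sD)).int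
  have ih : IntegrableOn h cube := iPg.sub (ial.const_mul 2)
  -- the two-point condition
  set L : ℝ → ℝ := fun r => φ r * (l * (1 + Real.sqrt r)) with hL
  have hLc : Continuous L := by
    have : Continuous fun r : ℝ => l * (1 + Real.sqrt r) := by fun_prop
    exact hφc.continuous.mul this
  have hL0 : ∀ s, 0 ≤ L s := by
    intro s
    have := hφ0 s
    have := Real.sqrt_nonneg s
    simp only [hL]
    positivity
  have key := two_pt hv hdiv hws hw0 hLc hL0 ih hZ
    (fun x hx hD0 => by
      have hD0' : D x = 0 := hD0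
      simp only [hh, hD0', mul_zero, zero_sub]
      have := mul_nonneg (hφ0 (w x)) (hallow x)
      linarith)
    (fun x hx y hy hxy hDx hDy => by
      have hDx' : 0 < D x := hDx
      have hDy' : D y < 0 := hDy
      have gx : 0 < growth v x := by have := hDg x; linarith
      have gy : growth v y < 0 := by have := hDg y; linarith
      have gx' : growth v x ≠ 0 := gx.ne'
      have gy' : growth v y ≠ 0 := gy.ne
      have ex : h x / D x = φ (w x) * (P x - g x - allow c f v x / growth v x) := by
        simp only [hh]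
        rw [hDg x]
        field_simp
      have ey : h y / D y = φ (w y) * (P y - g y - allow c f v y / growth v y) := by
        simp only [hh]
        rw [hDg y]
        field_simp
      show h x / D x ≤ h y / D y + L (w x) * tdist x y
      rw [ex, ey, ← hxy]
      rcases le_or_gt (w x) N with hle | hlt
      · have : φ (w x) = 0 := dpsi_low hN hle
        simp only [hL, this, zero_mul, add_zero, le_refl]
      · have h3 := mul_le_mul_of_nonneg_left (h2 x hx y hy hxy hlt gx gy) (hφ0 (w x))
        simp only [hL]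
        refine h3.trans (le_of_eq ?_)
        ring)
  -- the modulus term
  have hmod : ∫ x in cube, (∑ i, |v x i|) * ∫ r in (0 : ℝ)..w x, L r
      ≤ 4 * l * ∫ x in cube, ze N (w x) ^ (α + 1) := by
    have hLp : Continuous fun s => ∫ r in (0 : ℝ)..s, L r :=
      intervalIntegral.continuous_primitive (fun a b => hLc.intervalIntegrable a b) 0
    have hvc : Continuous fun x => ∑ i, |v x i| := continuous_finsetSum _ fun i _ => (hv i).cont.abs
    rw [← integral_const_mul]
    refine integral_mono (integrableOn_cube (hvc.mul (hLp.comp hws.cont)))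
      (sz.int.const_mul _) fun x => ?_
    have hs0 : 0 ≤ ∑ i, |v x i| := Finset.sum_nonneg fun _ _ => abs_nonneg _
    calc (∑ i, |v x i|) * ∫ r in (0 : ℝ)..w x, L r
        ≤ (∑ i, |v x i|) * (psi N α (w x) * (l * (1 + Real.sqrt (w x)))) :=
          mul_le_mul_of_nonneg_left (int_dpsi hN hα hl (hw0 x)) hs0
      _ = l * psi N α (w x) * ((∑ i, |v x i|) * (1 + Real.sqrt (w x))) := by ring
      _ ≤ l * psi N α (w x) * (4 * ze N (w x)) := by
          refine mul_le_mul_of_nonneg_left (speed_factor hN v x) ?_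
          exact mul_nonneg hl (psi_pos hN _).le
      _ = 4 * l * (psi N α (w x) * ze N (w x)) := by ring
      _ = 4 * l * ze N (w x) ^ (α + 1) := by rw [zepow hN]
  -- the term with `g`
  have hgterm : ∫ x in cube, φ (w x) * (g x * D x)
      ≤ 2 * ∫ x in cube, f x * ze N (w x) ^ (α + 1) := by
    have e1 := int_adv_mul hv hdiv sψ hg
    simp_rw [adv_comp (psi_contDiff hN) hws] at e1
    have e2 : ∫ x in cube, φ (w x) * (g x * D x) = ∫ x in cube, deriv (psi N α) (w x)
        * adv v w x * g x := by
      congr 1; funext x; ring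
    have e3 := int_adv hv hdiv hg
    have e4 : ∫ x in cube, φ (w x) * (g x * D x)
        = ∫ x in cube, (psi N α (w x) - psi N α 0) * -adv v g x := by
      rw [e2, e1]
      have : ∀ x, (psi N α (w x) - psi N α 0) * -adv v g x
          = -(psi N α (w x) * adv v g x) + psi N α 0 * adv v g x := fun x => by ring
      have m1 : IntegrableOn (fun x => -(psi N α (w x) * adv v g x)) cube :=
        (sψ.mul (sp_adv hv hg)).int.neg
      have m2 : IntegrableOn (fun x => psi N α 0 * adv v g x) cube :=
        (sp_adv hv hg).int.const_mul _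
      simp_rw [this]
      rw [integral_add m1 m2, integral_neg, integral_const_mul, e3, mul_zero, add_zero]
    rw [e4, ← integral_const_mul]
    refine integral_mono_ae ?_ ((int_mul_cont hf sz.cont).const_mul 2) ?_
    · exact integrableOn_cube ((sψ.cont.sub continuous_const).mul (sp_adv hv hg).cont.neg)
    have hz : ∀ᵐ x ∂(volume.restrict cube), x ∈ cube \ Z := by
      rw [ae_restrict_iff' measurableSet_cube]
      filter_upwards [measure_eq_zero_iff_ae_notMem.1 hZ] with x hx hxc
      exact ⟨hxc, hx⟩
    filter_upwards [hz] with x hx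
    have hzp : 0 ≤ ze N (w x) ^ (α + 1) := Real.rpow_nonneg (ze_pos hN _).le _
    rcases le_or_gt (w x) N with hle | hlt
    · rw [psi_low hN (hw0 x) hle, sub_self, zero_mul]
      exact mul_nonneg zero_le_two (mul_nonneg (hf0 x) hzp)
    · have a1 := psi_mono hN hα (hw0 x)
      have a2 := psi_pos (α := α) hN 0
      have a3 := one_le_ze hN (w x)
      have a4 := ze_ge_self hN (w x)
      have a5 : psi N α (w x) * (1 + w x) ≤ 2 * ze N (w x) ^ (α + 1) := by
        rw [zepow hN]
        have := mul_le_mul_of_nonneg_left (by linarith : 1 + w x ≤ 2 * ze N (w x))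
          (psi_pos (α := α) hN (w x)).le
        linarith
      calc (psi N α (w x) - psi N α 0) * -adv v g x
          ≤ (psi N α (w x) - psi N α 0) * (f x * (1 + w x)) :=
            mul_le_mul_of_nonneg_left (h1 x hx hlt) (by linarith)
        _ ≤ psi N α (w x) * (f x * (1 + w x)) := by
            refine mul_le_mul_of_nonneg_right (by linarith) ?_
            have := hf0 x
            have := hw0 x
            positivity
        _ = f x * (psi N α (w x) * (1 + w x)) := by ring
        _ ≤ f x * (2 * ze N (w x) ^ (α + 1)) := mul_le_mul_of_nonneg_left a5 (hf0 x)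
        _ = _ := by ring
  -- the allowance
  have halterm : 2 * ∫ x in cube, φ (w x) * allow c f v x
      ≤ 2 * α * c * (∫ x in cube, psi N α (w x) * grad2 v x)
        + 2 * c * (∫ x in cube, φ (w x) * rad2 v x)
        + 4 * α * ∫ x in cube, f x * ze N (w x) ^ (α + 1) := by
    have j1 : IntegrableOn (fun x => 2 * α * c * (psi N α (w x) * grad2 v x)) cube :=
      (sψ.mul sG).int.const_mul _
    have j2 : IntegrableOn (fun x => 2 * c * (φ (w x) * rad2 v x)) cube :=
      (sφ.mul sR).int.const_mul _
    have j3 : IntegrableOn (fun x => 4 * α * (f x * ze N (w x) ^ (α + 1))) cube :=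
      (int_mul_cont hf sz.cont).const_mul _
    have j12 : IntegrableOn (fun x => 2 * α * c * (psi N α (w x) * grad2 v x)
        + 2 * c * (φ (w x) * rad2 v x)) cube := j1.add j2
    rw [← integral_const_mul, ← integral_const_mul, ← integral_const_mul, ← integral_const_mul,
      ← integral_add j1 j2, ← integral_add j12 j3]
    refine integral_mono (ial.const_mul 2) (j12.add j3) fun x => ?_
    show 2 * (φ (w x) * allow c f v x) ≤ 2 * α * c * (psi N α (w x) * grad2 v x)
      + 2 * c * (φ (w x) * rad2 v x) + 4 * α * (f x * ze N (w x) ^ (α + 1))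
    rw [e_al]
    have b1 : w x * φ (w x) ≤ α * psi N α (w x) := dpsi_mul_le hN hα.le (hw0 x)
    have b2 : w x * φ (w x) * grad2 v x ≤ α * psi N α (w x) * grad2 v x :=
      mul_le_mul_of_nonneg_right b1 (grad2_nonneg v x)
    have b3 : c * (w x * φ (w x) * grad2 v x) ≤ c * (α * psi N α (w x) * grad2 v x) :=
      mul_le_mul_of_nonneg_left b2 hc
    have a3 := one_le_ze hN (w x)
    have a4 := ze_ge_self hN (w x)
    have b4 : psi N α (w x) * (1 + w x) ≤ 2 * ze N (w x) ^ (α + 1) := by
      rw [zepow hN]
      have := mul_le_mul_of_nonneg_left (by linarith : 1 + w x ≤ 2 * ze N (w x))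
        (psi_pos (α := α) hN (w x)).le
      linarith
    have b5 : φ (w x) * (w x * (1 + w x)) ≤ 2 * α * ze N (w x) ^ (α + 1) := by
      have hw1 : 0 ≤ 1 + w x := by have := hw0 x; linarith
      calc φ (w x) * (w x * (1 + w x)) = (w x * φ (w x)) * (1 + w x) := by ring
        _ ≤ (α * psi N α (w x)) * (1 + w x) := mul_le_mul_of_nonneg_right b1 hw1
        _ = α * (psi N α (w x) * (1 + w x)) := by ring
        _ ≤ α * (2 * ze N (w x) ^ (α + 1)) := mul_le_mul_of_nonneg_left b4 hα.le
        _ = _ := by ring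
    have b6 := mul_le_mul_of_nonneg_left b5 (hf0 x)
    nlinarith [b3, b6]
  -- conclusion
  have e5 : ∫ x in cube, φ (w x) * (P x * D x) = (∫ x in cube, h x)
      + (∫ x in cube, φ (w x) * (g x * D x)) + 2 * ∫ x in cube, φ (w x) * allow c f v x := by
    have k1 : IntegrableOn (fun x => φ (w x) * (g x * D x)) cube := (sφ.mul (hg.mul sD)).int
    have k2 : IntegrableOn (fun x => h x + φ (w x) * (g x * D x)) cube := ih.add k1
    have k3 : IntegrableOn (fun x => 2 * (φ (w x) * allow c f v x)) cube := ial.const_mul 2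
    rw [← integral_const_mul, ← integral_add ih k1, ← integral_add k2 k3]
    congr 1
    funext x
    simp only [hh]
    ring
  rw [e5]
  have hmod' : 6 * Real.pi * ∫ x in cube, (∑ i, |v x i|) * ∫ r in (0 : ℝ)..w x, L r
      ≤ 24 * Real.pi * l * ∫ x in cube, ze N (w x) ^ (α + 1) := by
    have := mul_le_mul_of_nonneg_left hmod (by have := Real.pi_pos; positivity : 0 ≤ 6 * Real.pi)
    linarith
  linarith

end Pool.Agent.TH811.SPD
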