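import Pool.Agent.H459R3.NS.Iso
import Pool.Agent.TH811.SPD.Prod
import Pool.Agent.TH811.SPD.Pot

/-!
The criterion.
-/

open MeasureTheory Set Filter Topology
open scoped ENNReal
open H459R3.NS Pool.Agent.W268.NS

namespace Pool.Agent.TH811.SPD

theorem palin_zero : palin (fun _ => 0) = 0 := by
  unfold palin lap
  have h : (fun _ : V => (0 : V)) = fun _ => 0 := rfl
  have h1 : ∀ i j : Fin 3, pd j (fun y : V => ((fun _ => 0 : V → V) y) i) = fun _ => 0 := by
    intro i j; funext x; unfold pd; simp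
  simp_rw [h1]
  have h2 : ∀ j : Fin 3, pd j (fun _ : V => (0 : ℝ)) = fun _ => 0 := by
    intro j; funext x; unfold pd; simp
  simp_rw [h2]
  simp

theorem stretch_zero : stretch (fun _ => 0) = 0 := by
  unfold stretch
  have h1 : ∀ i j : Fin 3, pd j (fun y : V => ((fun _ => 0 : V → V) y) i) = fun _ => 0 := by
    intro i j; funext x; unfold pd; simp
  simp_rw [h1]
  simp

/-- Bounded `L^m` norms with `m > 3` imply boundedness. -/
theorem bounded_of_Lm {ν T m B : ℝ} (hν : 0 < ν) (hm : 3 < m) {u : ℝ → V → V} {P : ℝ → V → ℝ}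
    (h : IsSol ν T u P) (hB0 : 0 ≤ B)
    (hB : ∀ t ∈ Ioo 0 T, ∀ i, ∫ x in cube, |u t x i| ^ m ≤ B) :
    ∃ M, ∀ t ∈ Ico 0 T, ∀ x i, |u t x i| ≤ M := by
  have hm0 : 0 < m := by linarith
  have hp : (3 : ℝ≥0∞) < ENNReal.ofReal m := by
    have : (3 : ℝ≥0∞) = ENNReal.ofReal 3 := by norm_num
    rw [this]
    exact (ENNReal.ofReal_lt_ofReal_iff hm0).2 hm
  have hinv : ((ENNReal.ofReal m)⁻¹).toReal = 1 / m := by
    rw [ENNReal.toReal_inv, ENNReal.toReal_ofReal hm0.le, one_div]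
  have hpq : 3 * ((ENNReal.ofReal m)⁻¹).toReal + 2 / (2 * m / (m - 3)) = 1 := by
    rw [hinv]
    have : m - 3 ≠ 0 := by linarith
    field_simp
    ring
  obtain ⟨C, -, hC⟩ := serrin hp hpq hν (K := 1) zero_le_one (lam := 0) (κ := 0) le_rfl
    (by norm_num)
  refine (hC T 0 u P (fun _ => B ^ (1 / m)) (fun _ => 0) h le_rfl
    (fun t ht => ⟨Real.rpow_nonneg hB0 _, le_rfl⟩) ?_ integrableOn_zero fun t ht => ?_).2
  · have : volume (Ioo 0 T) ≠ ∞ := by rw [Real.volume_Ioo]; exact ENNReal.ofReal_ne_top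
    exact integrableOn_const this
  have hI : t ∈ Ico 0 T := ⟨ht.1.le, ht.2⟩
  refine ⟨fun _ => 0, fun _ => 0, ∅, SPV.zero, SPV.zero, dimTwo_empty, fun i k _ => fr_zero k,
    ?_, ?_, ?_, ?_, fun i => ?_⟩
  · rw [enstrophy_zero, one_pow, one_mul]; exact enstrophy_nonneg _
  · rw [palin_zero, one_pow, one_mul]; exact palin_nonneg _
  · rw [enstrophy_zero, one_pow, one_mul]; exact enstrophy_nonneg _
  · rw [stretch_zero]; simp
  · have e : (fun x => u t x i - (0 : V) i - (0 : V) i) = fun x => u t x i := by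
      funext x; simp
    rw [e]
    have hc : Continuous fun x => u t x i := (h.sp hI i).cont
    have hci : IntegrableOn (fun x => |u t x i| ^ m) cube :=
      integrableOn_cube (hc.abs.rpow_const fun x => Or.inr hm0.le)
    have hne : ENNReal.ofReal m ≠ 0 := by
      rw [Ne, ENNReal.ofReal_eq_zero]; linarith
    rw [eLpNorm_eq_lintegral_rpow_enorm_toReal hne ENNReal.ofReal_ne_top,
      ENNReal.toReal_ofReal hm0.le]
    have e2 : ∫⁻ x in cube, ‖u t x i‖ₑ ^ m = ENNReal.ofReal (∫ x in cube, |u t x i| ^ m) := by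
      rw [ofReal_integral_eq_lintegral_ofReal hci
        (Filter.Eventually.of_forall fun x => Real.rpow_nonneg (abs_nonneg _) _)]
      refine lintegral_congr fun x => ?_
      rw [← ofReal_norm, Real.norm_eq_abs, ENNReal.ofReal_rpow_of_nonneg (abs_nonneg _) hm0.le]
    rw [e2, ENNReal.ofReal_rpow_of_nonneg
      (integral_nonneg fun x => Real.rpow_nonneg (abs_nonneg _) _) (by positivity)]
    refine ENNReal.ofReal_le_ofReal ?_
    exact Real.rpow_le_rpow (integral_nonneg fun x => Real.rpow_nonneg (abs_nonneg _) _)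
      (hB t ht i) (by positivity)

/-- The time derivative is continuous up to the initial time. -/
theorem F_deriv_cont {ν T : ℝ} {u : ℝ → V → V} {P : ℝ → V → ℝ} (h : IsSol ν T u P) {F : ℝ → ℝ}
    (hF : ContDiff ℝ (⊤ : ℕ∞) F) : ∃ Y' : ℝ → ℝ, ContinuousOn Y' (Ico 0 T) ∧
      ∀ s ∈ Ioo 0 T, HasDerivAt (fun s => ∫ x in cube, F (sq3 (u s) x)) (Y' s) s := by
  set G : ℝ × V → ℝ := fun z => F (sq3 (u z.1) z.2) with hG
  have hGc : ContDiffOn ℝ (⊤ : ℕ∞) G (Ico 0 T ×ˢ univ) := F_contDiffOn h hF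
  have h1 : ContDiffOn ℝ (⊤ : ℕ∞) (fderivWithin ℝ G (Ico 0 T ×ˢ univ)) (Ico 0 T ×ˢ univ) :=
    hGc.fderivWithin (uniqueDiff T) (by norm_cast)
  have h2 : ContDiffOn ℝ (⊤ : ℕ∞) (fun z : ℝ × V => fderivWithin ℝ G (Ico 0 T ×ˢ univ) z (1, 0))
      (Ico 0 T ×ˢ univ) := h1.clm_apply contDiffOn_const
  refine ⟨fun s => ∫ x in cube, fderivWithin ℝ G (Ico 0 T ×ˢ univ) (s, x) (1, 0),
    continuousOn_int (F := fun s x => fderivWithin ℝ G (Ico 0 T ×ˢ univ) (s, x) (1, 0))
      h2.continuousOn, fun s hs => ?_⟩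
  have h3 := hasDerivAt_int (F := fun s x => F (sq3 (u s) x))
    (mono_Ioo (f := fun s x => F (sq3 (u s) x)) (F_contDiffOn h hF) (by norm_cast)) hs
  refine h3.congr_deriv ?_
  congr 1
  funext x
  rw [(hasDerivAt_slice (F := fun s x => F (sq3 (u s) x))
    (mono_Ioo (f := fun s x => F (sq3 (u s) x)) (F_contDiffOn h hF) (by norm_cast)) hs x).deriv,
    fderivWithin_of_mem_nhds]
  exact prod_mem_nhds (Ico_mem_nhds hs.1 hs.2) Filter.univ_mem

/-- Gronwall's inequality -/
theorem gron_log {T : ℝ} {y y' Y' g : ℝ → ℝ} (hy0 : ∀ s, 0 ≤ y s)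
    (hyc : ContinuousOn y (Ico 0 T)) (hd : ∀ s ∈ Ioo 0 T, HasDerivAt y (y' s) s)
    (hY' : ContinuousOn Y' (Ico 0 T)) (hdY : ∀ s ∈ Ioo 0 T, HasDerivAt y (Y' s) s)
    (hg0 : ∀ᵐ s ∂(volume.restrict (Ioo 0 T)), 0 ≤ g s) (hgi : IntegrableOn g (Ioo 0 T))
    (hle : ∀ᵐ s ∂(volume.restrict (Ioo 0 T)), y' s ≤ g s * (1 + y s)) :
    ∀ t ∈ Ico 0 T, 1 + y t ≤ (1 + y 0) * Real.exp (∫ s in Ioo 0 T, g s) := by
  intro t ht
  have hpos : ∀ s, 0 < 1 + y s := fun s => by linarith [hy0 s]
  have hsub : Icc 0 t ⊆ Ico 0 T := fun s hs => ⟨hs.1, hs.2.trans_lt ht.2⟩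
  have hc1 : ContinuousOn (fun s => 1 + y s) (Icc 0 t) := continuousOn_const.add (hyc.mono hsub)
  have hc : ContinuousOn (fun s => Real.log (1 + y s)) (Icc 0 t) :=
    hc1.log fun s _ => (hpos s).ne'
  have hc' : ContinuousOn (fun s => Y' s / (1 + y s)) (Icc 0 t) :=
    (hY'.mono hsub).div hc1 fun s _ => (hpos s).ne'
  have hint : IntervalIntegrable (fun s => Y' s / (1 + y s)) volume 0 t := by
    refine ContinuousOn.intervalIntegrable ?_
    rwa [uIcc_of_le ht.1]
  have h1 := intervalIntegral.integral_eq_sub_of_hasDerivAt_of_le ht.1 hc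
    (f' := fun s => Y' s / (1 + y s))
    (fun s hs => ((hdY s ⟨hs.1, hs.2.trans ht.2⟩).const_add 1).log (hpos s).ne') hint
  have h2 : ∫ s in (0 : ℝ)..t, Y' s / (1 + y s) ≤ ∫ s in Ioo 0 T, g s := by
    rw [intervalIntegral.integral_of_le ht.1, integral_Ioc_eq_integral_Ioo]
    have hst : Ioo 0 t ⊆ Ioo 0 T := Ioo_subset_Ioo_right ht.2.le
    have hi1 : IntegrableOn (fun s => Y' s / (1 + y s)) (Ioo 0 t) :=
      hc'.integrableOn_Icc.mono_set Ioo_subset_Icc_self
    calc ∫ s in Ioo 0 t, Y' s / (1 + y s) ≤ ∫ s in Ioo 0 t, g s := by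
          refine integral_mono_ae hi1 (hgi.mono_set hst) ?_
          have hle' := ae_restrict_of_ae_restrict_of_subset hst hle
          filter_upwards [hle', ae_restrict_mem measurableSet_Ioo] with s hs hs2
          have e : Y' s = y' s := (hdY s (hst hs2)).unique (hd s (hst hs2))
          show Y' s / (1 + y s) ≤ g s
          rw [div_le_iff₀ (hpos s), e]
          exact hs
      _ ≤ ∫ s in Ioo 0 T, g s := setIntegral_mono_set hgi hg0 hst.eventuallyLE
  have h3 : Real.log (1 + y t) ≤ Real.log (1 + y 0) + ∫ s in Ioo 0 T, g s := by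
    rw [h1] at h2
    linarith
  calc 1 + y t = Real.exp (Real.log (1 + y t)) := (Real.exp_log (hpos t)).symm
    _ ≤ Real.exp (Real.log (1 + y 0) + ∫ s in Ioo 0 T, g s) := Real.exp_le_exp.2 h3
    _ = _ := by rw [Real.exp_add, Real.exp_log (hpos 0)]

theorem criterion {p : ℝ≥0∞} (hp : 3 / 2 < p) {q : ℝ} (hpq : 3 * (p⁻¹).toReal + 2 / q = 2)
    {ν κ M : ℝ} (hν : 0 < ν) (hκ0 : 0 ≤ κ) (hκ : κ < 1) {T : ℝ} {u : ℝ → V → V}
    {P : ℝ → V → ℝ} (h : IsSol ν T u P) {β l : ℝ → ℝ}
    (hβ : IntegrableOn (fun t => β t ^ q) (Ioo 0 T)) (hl : IntegrableOn l (Ioo 0 T))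
    (hcomp : ∀ᵐ t ∂(volume.restrict (Ioo 0 T)), 0 ≤ β t ∧ 0 ≤ l t ∧
      ∃ (f g : V → ℝ) (Z : Set V),
      AEStronglyMeasurable f (volume.restrict cube) ∧ (∀ x, 0 ≤ f x) ∧
      eLpNorm f p (volume.restrict cube) ≤ ENNReal.ofReal (β t) ∧ SP g ∧ volume Z = 0 ∧
      (∀ x ∈ cube \ Z, M < speed (u t) x →
        -(∑ j, u t x j * pd j g x) ≤ f x * (1 + speed (u t) x ^ 2)) ∧
      (∀ x ∈ cube \ Z, ∀ y ∈ cube \ Z, speed (u t) x = speed (u t) y → M < speed (u t) x →
        0 < growth (u t) x → growth (u t) y < 0 →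
        P t x - g x - allow (κ * ν) f (u t) x / growth (u t) x
          ≤ P t y - g y - allow (κ * ν) f (u t) y / growth (u t) y
            + l t * (1 + speed (u t) x) * tdist x y)) :
    ∃ C, ∀ t ∈ Ico 0 T, ∀ x i, |u t x i| ≤ C := by
  have hθ0 : 0 ≤ th p := th_nonneg p
  have hθ2 : th p < 2 := th_lt_two hp
  have hq : q = 2 / (2 - th p) := by
    have h1 : 2 / q = 2 - th p := by
      have : th p = 3 * (p⁻¹).toReal := rfl
      rw [this]
      linarith
    rw [← h1]
    have : q ≠ 0 := by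
      intro h0
      rw [h0, div_zero] at h1
      linarith
    field_simp
  have hq1 : 1 ≤ q := by
    rw [hq, le_div_iff₀ (by linarith)]
    linarith
  -- the exponent
  obtain ⟨α, hα1, hα2⟩ : ∃ α : ℝ, 1 / 2 < α ∧ 2 * α * κ < 1 := by
    refine ⟨(1 / 2) * (1 + (1 - κ) / 2), by linarith, ?_⟩
    nlinarith
  have hα : 0 < α := by linarith
  set N : ℝ := max M 0 ^ 2 with hNdef
  have hN : 0 ≤ N := sq_nonneg _
  have hM0 : 0 ≤ max M 0 := le_max_right _ _
  have hlow : ∀ (v : V → V) x, N < sq3 v x → M < speed v x := by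
    intro v x hx
    refine (le_max_left M 0).trans_lt ?_
    exact (Real.lt_sqrt hM0).2 hx
  have hc0 : 0 ≤ κ * ν := mul_nonneg hκ0 hν.le
  obtain ⟨D, hD0, hD⟩ := pot_le hp hN hα (ε := (1 - 2 * α * κ) * ν / (4 * α + 2)) (by
    have : 0 < 1 - 2 * α * κ := by linarith
    positivity)
  set A : ℝ := (N + 1) ^ (α + 1) + (α + 1) with hA
  have hA0 : 0 ≤ A := by positivity
  set F : ℝ → ℝ := Phi N α with hF
  have hFc := Phi_contDiff (α := α) hN
  have hF1 : deriv F = psi N α := funext fun s => Phi_deriv hN s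
  set y : ℝ → ℝ := fun s => ∫ x in cube, F (sq3 (u s) x) with hy
  have hy0 : ∀ s, 0 ≤ y s := fun s => integral_nonneg fun x => Phi_nonneg hN (sq3_nonneg _ _)
  set G : ℝ → ℝ := fun s => ((8 * α + 4) * D * (1 + 2 * β s ^ q) + 48 * Real.pi * l s) * A with hG
  have hpi := Real.pi_pos
  have hG0 : ∀ᵐ s ∂(volume.restrict (Ioo 0 T)), 0 ≤ G s := by
    filter_upwards [hcomp] with s hs
    have h1 := Real.rpow_nonneg hs.1 q
    have h2 := hs.2.1
    simp only [hG]
    positivity
  have hGi : IntegrableOn G (Ioo 0 T) := by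
    have hfin : volume (Ioo 0 T) ≠ ∞ := by rw [Real.volume_Ioo]; exact ENNReal.ofReal_ne_top
    have i1 : IntegrableOn (fun s => 1 + 2 * β s ^ q) (Ioo 0 T) :=
      (integrableOn_const hfin).add (hβ.const_mul 2)
    exact ((i1.const_mul _).add (hl.const_mul _)).mul_const A
  have hZ : ∀ s ∈ Ico 0 T, ∫ x in cube, ze N (sq3 (u s) x) ^ (α + 1) ≤ A * (1 + y s) := by
    intro s hs
    have hv : ∀ i, SP (fun z => u s z i) := fun i => h.sp hs i
    have hws := sp_sq3 hv
    have hΦ : IntegrableOn (fun x => F (sq3 (u s) x)) cube := (sp_comp hws hFc).int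
    have h1 : ∫ x in cube, ze N (sq3 (u s) x) ^ (α + 1)
        ≤ ∫ x in cube, ((N + 1) ^ (α + 1) + (α + 1) * F (sq3 (u s) x)) := by
      refine integral_mono (sp_comp hws (rpow_ze_contDiff hN _)).int
        ((sp_const _).int.add (hΦ.const_mul _)) fun x => ?_
      exact ze_rpow_le_Phi hN hα.le (sq3_nonneg _ _)
    rw [integral_add (sp_const _).int (hΦ.const_mul _), integral_const_mul, int_const_cube] at h1
    refine h1.trans ?_
    have h2 := hy0 s
    have h3 : 0 ≤ (N + 1) ^ (α + 1) := by positivity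
    show (N + 1) ^ (α + 1) + (α + 1) * y s ≤ A * (1 + y s)
    simp only [hA]
    nlinarith
  obtain ⟨Y', hY'c, hY'd⟩ := F_deriv_cont h hFc
  have hgr := gron_log (T := T) (y := y) (Y' := Y') (y' := fun t =>
      (-(2 * ν * ∫ x in cube, (deriv F (sq3 (u t) x) * grad2 (u t) x
          + 2 * deriv (deriv F) (sq3 (u t) x) * rad2 (u t) x))
        + 2 * ∫ x in cube, deriv (deriv F) (sq3 (u t) x)
          * (P t x * adv (u t) (sq3 (u t)) x))) (g := G) hy0 (F_continuousOn h hFc)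
    (fun s hs => F_hasDerivAt h hFc hs) hY'c hY'd hG0 hGi (by
      filter_upwards [hcomp, ae_restrict_mem measurableSet_Ioo] with t htc ht
      have hI : t ∈ Ico 0 T := ⟨ht.1.le, ht.2⟩
      obtain ⟨hβ0, hl0, f, g, Z, hf, hf0, hfβ, hg, hZ0, h1, h2⟩ := htc
      have hv : ∀ i, SP (fun z => u t z i) := fun i => h.sp hI i
      have hdiv : ∀ x, ∑ i, pd i (fun y => u t y i) x = 0 := h.divfree t hI
      obtain ⟨hfi, hpot⟩ := hD f (u t) (β t) hf hβ0 hfβ hf0 hv
      have hpr := press_le (N := N) (α := α) (c := κ * ν) (l := l t) hN hα hc0 hl0 hv hdiv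
        (h.sp_p hI) hg hfi hf0 hZ0
        (fun x hx hNx => by
          have := h1 x hx (hlow _ _ hNx)
          rwa [speed, Real.sq_sqrt (sq3_nonneg _ _)] at this)
        (fun x hx z hz hxz hNx gx gz => by
          have hs : speed (u t) x = speed (u t) z := by unfold speed; rw [hxz]
          exact h2 x hx z hz hs (hlow _ _ hNx) gx gz)
      simp_rw [hF1]
      set I1 := ∫ x in cube, psi N α (sq3 (u t) x) * grad2 (u t) x with hI1
      set I2 := ∫ x in cube, deriv (psi N α) (sq3 (u t) x) * rad2 (u t) x with hI2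
      set I3 := ∫ x in cube, f x * ze N (sq3 (u t) x) ^ (α + 1) with hI3
      set I4 := ∫ x in cube, ze N (sq3 (u t) x) ^ (α + 1) with hI4
      have hws := sp_sq3 hv
      have k1 : IntegrableOn (fun x => psi N α (sq3 (u t) x) * grad2 (u t) x) cube :=
        ((sp_comp hws (psi_contDiff hN)).mul (sp_grad2 hv)).int
      have k2 : IntegrableOn (fun x => 2 * (deriv (psi N α) (sq3 (u t) x) * rad2 (u t) x)) cube :=
        ((sp_comp hws (dpsi_contDiff hN)).mul (sp_rad2 hv)).int.const_mul 2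
      have e1 : ∫ x in cube, (psi N α (sq3 (u t) x) * grad2 (u t) x
          + 2 * deriv (psi N α) (sq3 (u t) x) * rad2 (u t) x) = I1 + 2 * I2 := by
        have : ∀ x, psi N α (sq3 (u t) x) * grad2 (u t) x
            + 2 * deriv (psi N α) (sq3 (u t) x) * rad2 (u t) x
            = psi N α (sq3 (u t) x) * grad2 (u t) x
            + 2 * (deriv (psi N α) (sq3 (u t) x) * rad2 (u t) x) := fun x => by ring
        simp_rw [this]
        rw [integral_add k1 k2, integral_const_mul]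
      rw [e1]
      have hI20 : 0 ≤ I2 := integral_nonneg fun x =>
        mul_nonneg (dpsi_nonneg hN hα.le _) (rad2_nonneg _ _)
      have hI40 : 0 ≤ I4 := integral_nonneg fun x => Real.rpow_nonneg (ze_pos hN _).le _
      have hZt := hZ t hI
      have hβq := Real.rpow_nonneg hβ0 q
      have hβ1 : β t ≤ 1 + β t ^ q := by
        rcases le_total (β t) 1 with hb | hb
        · linarith
        · have := Real.rpow_le_rpow_of_exponent_le hb hq1
          rw [Real.rpow_one] at this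
          linarith
      rw [← hq] at hpot
      -- assemble
      have s1 : (8 * α + 4) * I3 ≤ 2 * (1 - 2 * α * κ) * ν * I1
          + (8 * α + 4) * D * ((1 + 2 * β t ^ q) * I4) := by
        have := mul_le_mul_of_nonneg_left hpot (by positivity : (0 : ℝ) ≤ 8 * α + 4)
        have e2 : (8 * α + 4) * ((1 - 2 * α * κ) * ν / (4 * α + 2) * I1)
            = 2 * (1 - 2 * α * κ) * ν * I1 := by
          have : 4 * α + 2 ≠ 0 := by positivity
          field_simp
          ring
        have e3 : (8 * α + 4) * D * ((β t + β t ^ q) * I4)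
            ≤ (8 * α + 4) * D * ((1 + 2 * β t ^ q) * I4) := by
          have : (β t + β t ^ q) * I4 ≤ (1 + 2 * β t ^ q) * I4 :=
            mul_le_mul_of_nonneg_right (by linarith) hI40
          exact mul_le_mul_of_nonneg_left this (by positivity)
        have e4 : (8 * α + 4) * ((1 - 2 * α * κ) * ν / (4 * α + 2) * I1
            + D * ((β t + β t ^ q) * I4))
            = (8 * α + 4) * ((1 - 2 * α * κ) * ν / (4 * α + 2) * I1)
              + (8 * α + 4) * D * ((β t + β t ^ q) * I4) := by ring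
        rw [e4, e2] at this
        exact this.trans (by linarith)
      have s2 : 0 ≤ ν * (1 - κ) * I2 :=
        mul_nonneg (mul_nonneg hν.le (by linarith)) hI20
      have s3 : G t * (1 + y t) = ((8 * α + 4) * D * (1 + 2 * β t ^ q) + 48 * Real.pi * l t)
          * (A * (1 + y t)) := by
        simp only [hG]; ring
      have s4 : ((8 * α + 4) * D * (1 + 2 * β t ^ q) + 48 * Real.pi * l t) * I4
          ≤ ((8 * α + 4) * D * (1 + 2 * β t ^ q) + 48 * Real.pi * l t) * (A * (1 + y t)) :=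
        mul_le_mul_of_nonneg_left hZt (by positivity)
      rw [s3]
      refine le_trans ?_ s4
      nlinarith [hpr, s1, s2])
  -- conclusion
  set Y : ℝ := A * ((1 + y 0) * Real.exp (∫ s in Ioo 0 T, G s)) with hYdef
  have hY0 : 0 ≤ Y := by
    have := hy0 0
    positivity
  refine bounded_of_Lm (m := 2 * α + 2) (B := Y) hν (by linarith) h hY0 fun t ht i => ?_
  have hI : t ∈ Ico 0 T := ⟨ht.1.le, ht.2⟩
  have hv : ∀ i, SP (fun z => u t z i) := fun i => h.sp hI i
  have hws := sp_sq3 hv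
  have h5 : ∫ x in cube, |u t x i| ^ (2 * α + 2) ≤ ∫ x in cube, ze N (sq3 (u t) x) ^ (α + 1) := by
    refine integral_mono (integrableOn_cube ((hv i).cont.abs.rpow_const
      fun x => Or.inr (by positivity))) (sp_comp hws (rpow_ze_contDiff hN _)).int fun x => ?_
    show |u t x i| ^ (2 * α + 2) ≤ ze N (sq3 (u t) x) ^ (α + 1)
    have h6 : |u t x i| ^ (2 * α + 2) = (u t x i ^ 2) ^ (α + 1) := by
      rw [← sq_abs, ← Real.rpow_natCast, ← Real.rpow_mul (abs_nonneg _)]
      congr 1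
      push_cast
      ring
    rw [h6]
    refine Real.rpow_le_rpow (sq_nonneg _) ?_ (by positivity)
    refine le_trans ?_ (ze_ge_self hN _)
    exact Finset.single_le_sum (f := fun i => u t x i ^ 2) (fun _ _ => sq_nonneg _)
      (Finset.mem_univ i)
  refine h5.trans ((hZ t hI).trans ?_)
  exact mul_le_mul_of_nonneg_left (hgr t hI) hA0

end Pool.Agent.TH811.SPD
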