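import Pool.Agent.W268.NS.Moder

/-!
The integral of `g K(w) v·∇w` for a divergence-free field `v`, smooth `g`, `w` and Borel `K`.
-/

open MeasureTheory Set Filter Topology
open scoped ContDiff ENNReal
open H459R3.NS Pool.Agent.W268.NS

namespace Pool.Agent.TH811.SPD

/-- `v · ∇ f` -/
noncomputable def adv (v : V → V) (f : V → ℝ) (x : V) : ℝ := ∑ j, v x j * pd j f x

variable {v : V → V} (hv : ∀ i, SP (fun y => v y i))
  (hdiv : ∀ x, ∑ i, pd i (fun y => v y i) x = 0) {g w : V → ℝ} (hg : SP g) (hw : SP w)

include hv in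
theorem sp_adv {f : V → ℝ} (hf : SP f) : SP (adv v f) :=
  SP.sum fun j _ => (hv j).mul (hf.pd j)

include hv hdiv hg hw in
theorem int_null_cont {K : ℝ → ℝ} (hK : Continuous K) :
    ∫ x in cube, g x * K (w x) * adv v w x
      = -∫ x in cube, adv v g x * ∫ r in (0 : ℝ)..w x, K r := by
  set H : ℝ → ℝ := fun s => ∫ r in (0 : ℝ)..s, K r with hH
  have hHd : ∀ s, HasDerivAt H (K s) s := fun s =>
    intervalIntegral.integral_hasDerivAt_right (hK.intervalIntegrable _ _)
      (hK.stronglyMeasurableAtFilter _ _) hK.continuousAt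
  have hH1 : ContDiff ℝ 1 H := by
    rw [contDiff_one_iff_deriv]
    refine ⟨fun s => (hHd s).differentiableAt, ?_⟩
    have : deriv H = K := funext fun s => (hHd s).deriv
    rw [this]; exact hK
  have hw1 : ContDiff ℝ 1 w := hw.smooth.of_le (by norm_cast)
  have hg1 : ContDiff ℝ 1 g := hg.smooth.of_le (by norm_cast)
  have hv1 : ∀ i, ContDiff ℝ 1 (fun y => v y i) := fun i => (hv i).smooth.of_le (by norm_cast)
  have hc : ContDiff ℝ 1 (fun x => H (w x)) := hH1.comp hw1
  have hf : ∀ j, ContDiff ℝ 1 (fun x => v x j * (g x * H (w x))) := fun j =>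
    (hv1 j).mul (hg1.mul hc)
  have hper : ∀ j, Per (fun x => v x j * (g x * H (w x))) := by
    intro j i x
    have h1 : v (x + Pi.single i 1) j = v x j := (hv j).per i x
    simp only [hg.per i x, hw.per i x, h1]
  have hpd : ∀ j x, pd j (fun x => v x j * (g x * H (w x))) x
      = pd j (fun y => v y j) x * (g x * H (w x)) + (v x j * pd j g x) * H (w x)
        + g x * K (w x) * (v x j * pd j w x) := by
    intro j x
    unfold pd
    have h1 : HasFDerivAt (fun x => H (w x)) (K (w x) • fderiv ℝ w x) x :=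
      (hHd (w x)).comp_hasFDerivAt x (hw.diff x).hasFDerivAt
    have h2 : HasFDerivAt (fun x => g x * H (w x)) _ x := (hg.diff x).hasFDerivAt.mul h1
    have h3 : HasFDerivAt (fun x => v x j * (g x * H (w x))) _ x :=
      ((hv j).diff x).hasFDerivAt.mul h2
    rw [h3.fderiv]
    simp only [add_apply, smul_apply, smul_eq_mul]
    ring
  have h0 : ∑ j, ∫ x in cube, pd j (fun x => v x j * (g x * H (w x))) x = 0 :=
    Finset.sum_eq_zero fun j _ => integral_pd (hf j) (hper j) j
  have hcont : ∀ j, Continuous (fun x => pd j (fun x => v x j * (g x * H (w x))) x) := fun j =>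
    ((hf j).continuous_fderiv one_ne_zero).clm_apply continuous_const
  rw [← integral_finsetSum _ fun j _ => integrableOn_cube (hcont j)] at h0
  have e : ∀ x, ∑ j, pd j (fun x => v x j * (g x * H (w x))) x
      = adv v g x * H (w x) + g x * K (w x) * adv v w x := by
    intro x
    simp_rw [hpd]
    rw [Finset.sum_add_distrib, Finset.sum_add_distrib, ← Finset.sum_mul, hdiv, zero_mul, zero_add,
      ← Finset.sum_mul, ← Finset.mul_sum]
    rfl
  simp_rw [e] at h0
  have i1 : IntegrableOn (fun x => adv v g x * H (w x)) cube :=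
    integrableOn_cube ((sp_adv hv hg).cont.mul hc.continuous)
  have i2 : IntegrableOn (fun x => g x * K (w x) * adv v w x) cube :=
    integrableOn_cube ((hg.cont.mul (hK.comp hw.cont)).mul (sp_adv hv hw).cont)
  rw [integral_add i1 i2] at h0
  linarith

theorem exists_bound (f : V → ℝ) (hf : Continuous f) : ∃ B, 0 ≤ B ∧ ∀ x ∈ cube, |f x| ≤ B := by
  obtain ⟨B, hB⟩ := isCompact_Icc.exists_bound_of_continuousOn (s := cube) hf.continuousOn
  refine ⟨max B 0, le_max_right _ _, fun x hx => (hB x hx).trans (le_max_left _ _)⟩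

theorem prim_meas {K : ℝ → ℝ} {B : ℝ} (hK : Measurable K) (hB : ∀ s, |K s| ≤ B) :
    Continuous fun s => ∫ r in (0 : ℝ)..s, K r := by
  refine intervalIntegral.continuous_primitive (fun a b => ?_) 0
  refine (intervalIntegrable_const (c := B)).mono_fun hK.aestronglyMeasurable ?_
  exact Filter.Eventually.of_forall fun s => (hB s).trans (le_abs_self B)

include hv hdiv hg hw in
/-- The identity for bounded Borel functions `K`. -/
theorem int_null {K : ℝ → ℝ} {B : ℝ} (hK : Measurable K) (hB : ∀ s, |K s| ≤ B) :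
    ∫ x in cube, g x * K (w x) * adv v w x
      = -∫ x in cube, adv v g x * ∫ r in (0 : ℝ)..w x, K r := by
  have := cube_fin
  have hB0 : 0 ≤ B := (abs_nonneg _).trans (hB 0)
  obtain ⟨R, hR0, hR⟩ := exists_bound w hw.cont
  obtain ⟨G, hG0, hG⟩ := exists_bound (adv v g) (sp_adv hv hg).cont
  set D : V → ℝ := fun x => g x * adv v w x with hD
  have hDc : Continuous D := hg.cont.mul (sp_adv hv hw).cont
  set μ1 : Measure ℝ := ((volume.restrict cube).withDensity
    fun x => ENNReal.ofReal |D x|).map w with hμ1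
  have f1 : IsFiniteMeasure ((volume.restrict cube).withDensity fun x => ENNReal.ofReal |D x|) :=
    isFiniteMeasure_withDensity_ofReal (integrableOn_cube hDc.abs).2
  have f2 : IsFiniteMeasure μ1 := by rw [hμ1]; infer_instance
  set μ2 : Measure ℝ := volume.restrict (Icc (-R) R) with hμ2
  have f3 : IsFiniteMeasure μ2 := ⟨by
    rw [hμ2, Measure.restrict_apply_univ]; exact isCompact_Icc.measure_lt_top⟩
  have hKi : Integrable K (μ1 + μ2) := by
    refine Integrable.mono' (integrable_const B) hK.aestronglyMeasurable ?_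
    exact Filter.Eventually.of_forall fun s => hB s
  -- the difference of the two sides is smaller than every `ε`
  rw [← sub_eq_zero, ← abs_eq_zero]
  refine le_antisymm (le_of_forall_pos_le_add fun ε hε => ?_) (abs_nonneg _)
  rw [zero_add]
  obtain ⟨K', hK', hK'i⟩ := hKi.exists_boundedContinuous_integral_sub_le
    (ε := ε / (1 + G)) (by positivity)
  have hc' : Continuous K' := K'.continuous
  have hid := int_null_cont hv hdiv hg hw hc'
  have hi1 : Integrable (fun s => ‖K s - K' s‖) μ1 := (hKi.sub hK'i).norm.mono_measure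
    (Measure.le_add_right le_rfl)
  have hi2 : Integrable (fun s => ‖K s - K' s‖) μ2 := (hKi.sub hK'i).norm.mono_measure
    (Measure.le_add_left le_rfl)
  rw [integral_add_measure hi1 hi2] at hK'
  have hmeasd : Measurable fun s => ‖K s - K' s‖ := (hK.sub hc'.measurable).norm
  have e1 : ∫ s, ‖K s - K' s‖ ∂μ1 = ∫ x in cube, |D x| * ‖K (w x) - K' (w x)‖ := by
    rw [hμ1, integral_map hw.cont.measurable.aemeasurable hmeasd.aestronglyMeasurable,
      integral_withDensity_eq_integral_toReal_smul hDc.abs.measurable.ennreal_ofReal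
        (Filter.Eventually.of_forall fun x => ENNReal.ofReal_lt_top)]
    refine integral_congr_ae (Filter.Eventually.of_forall fun x => ?_)
    simp only
    rw [ENNReal.toReal_ofReal (abs_nonneg _), smul_eq_mul]
  have hKw : Measurable fun x => K (w x) := hK.comp hw.cont.measurable
  have hK'w : Continuous fun x => K' (w x) := hc'.comp hw.cont
  have j1 : IntegrableOn (fun x => g x * K (w x) * adv v w x) cube := by
    have : (fun x => g x * K (w x) * adv v w x) = fun x => K (w x) * D x := by
      funext x; simp only [hD]; ring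
    rw [this]
    exact (integrableOn_cube hDc).bdd_mul (c := B) hKw.aestronglyMeasurable
      (Filter.Eventually.of_forall fun x => hB _)
  have j2 : IntegrableOn (fun x => g x * K' (w x) * adv v w x) cube :=
    integrableOn_cube ((hg.cont.mul hK'w).mul (sp_adv hv hw).cont)
  have d1 : |(∫ x in cube, g x * K (w x) * adv v w x) - ∫ x in cube, g x * K' (w x) * adv v w x|
      ≤ ∫ s, ‖K s - K' s‖ ∂μ1 := by
    rw [e1, ← integral_sub j1 j2, ← Real.norm_eq_abs]
    refine (norm_integral_le_integral_norm _).trans (le_of_eq ?_)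
    refine integral_congr_ae (Filter.Eventually.of_forall fun x => ?_)
    simp only [hD]
    rw [← sub_mul, ← mul_sub, norm_mul, norm_mul, abs_mul]
    simp only [Real.norm_eq_abs]
    ring
  have hH := prim_meas hK hB
  have hHI : ∀ a b, IntervalIntegrable K volume a b := fun a b => by
    refine (intervalIntegrable_const (c := B)).mono_fun hK.aestronglyMeasurable ?_
    exact Filter.Eventually.of_forall fun s => (hB s).trans (le_abs_self B)
  have hH' : Continuous fun s => ∫ r in (0 : ℝ)..s, K' r :=
    intervalIntegral.continuous_primitive (fun a b => hc'.intervalIntegrable a b) 0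
  have k1 : IntegrableOn (fun x => adv v g x * ∫ r in (0 : ℝ)..w x, K r) cube :=
    integrableOn_cube ((sp_adv hv hg).cont.mul (hH.comp hw.cont))
  have k2 : IntegrableOn (fun x => adv v g x * ∫ r in (0 : ℝ)..w x, K' r) cube :=
    integrableOn_cube ((sp_adv hv hg).cont.mul (hH'.comp hw.cont))
  have d2 : |(∫ x in cube, adv v g x * ∫ r in (0 : ℝ)..w x, K r)
      - ∫ x in cube, adv v g x * ∫ r in (0 : ℝ)..w x, K' r| ≤ G * ∫ s, ‖K s - K' s‖ ∂μ2 := by
    rw [← integral_sub k1 k2, ← Real.norm_eq_abs]
    refine (norm_integral_le_integral_norm _).trans ?_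
    have hb : ∀ x ∈ cube, ‖adv v g x * (∫ r in (0 : ℝ)..w x, K r)
        - adv v g x * ∫ r in (0 : ℝ)..w x, K' r‖ ≤ G * ∫ s, ‖K s - K' s‖ ∂μ2 := by
      intro x hx
      rw [← mul_sub, norm_mul]
      refine mul_le_mul (hG x hx) ?_ (norm_nonneg _) hG0
      rw [← intervalIntegral.integral_sub (hHI _ _) (hc'.intervalIntegrable _ _)]
      refine (intervalIntegral.norm_integral_le_integral_norm_uIoc).trans ?_
      refine setIntegral_mono_set hi2 (Filter.Eventually.of_forall fun s => norm_nonneg _) ?_
      refine LE.le.eventuallyLE ?_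
      intro s hs
      have h3 := abs_le.1 (hR x hx)
      rcases le_total 0 (w x) with h | h
      · rw [uIoc_of_le h] at hs
        exact ⟨by linarith [hs.1], hs.2.trans h3.2⟩
      · rw [uIoc_of_ge h] at hs
        exact ⟨by linarith [hs.1], hs.2.trans hR0⟩
    calc ∫ x in cube, ‖adv v g x * (∫ r in (0 : ℝ)..w x, K r)
        - adv v g x * ∫ r in (0 : ℝ)..w x, K' r‖
        ≤ ∫ x in cube, G * ∫ s, ‖K s - K' s‖ ∂μ2 := by
          refine setIntegral_mono_on (k1.sub k2).norm (integrable_const _) measurableSet_Icc hb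
      _ = G * ∫ s, ‖K s - K' s‖ ∂μ2 := by
          rw [setIntegral_const]
          simp [Measure.real, volume_cube]
  have hn1 : 0 ≤ ∫ s, ‖K s - K' s‖ ∂μ1 := integral_nonneg fun s => norm_nonneg _
  have hn2 : 0 ≤ ∫ s, ‖K s - K' s‖ ∂μ2 := integral_nonneg fun s => norm_nonneg _
  have hK2 : (1 + G) * ((∫ s, ‖K s - K' s‖ ∂μ1) + ∫ s, ‖K s - K' s‖ ∂μ2) ≤ ε := by
    have := mul_le_mul_of_nonneg_left hK' (by positivity : (0 : ℝ) ≤ 1 + G)
    rwa [mul_div_cancel₀ _ (by positivity)] at this
  have hG1 := mul_nonneg hG0 hn1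
  rw [abs_le] at d1 d2 ⊢
  constructor <;> nlinarith [d1.1, d1.2, d2.1, d2.2]

end Pool.Agent.TH811.SPD
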