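import Pool.Agent.TH811.SPD.Cos

/-!
Moments of the partition of unity on the circle.
-/

open Finset

namespace Pool.Agent.TH811.SPD

/-- The kernel, `m = μ²`, `n` nodes. -/
noncomputable def kap (m n a : ℕ) (t : ℝ) : ℝ :=
  Real.cos (Real.pi * (t - a / n)) ^ (2 * m) / (n * wal m)

/-- Its derivative. -/
noncomputable def dkap (m n a : ℕ) (t : ℝ) : ℝ :=
  -(2 * m * Real.pi * (Real.cos (Real.pi * (t - a / n)) ^ (2 * m - 1)
    * Real.sin (Real.pi * (t - a / n)))) / (n * wal m)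

/-- the chordal distance to the node -/
noncomputable def sn (n a : ℕ) (t : ℝ) : ℝ := |Real.sin (Real.pi * (t - a / n))|

theorem sn_nonneg (n a : ℕ) (t : ℝ) : 0 ≤ sn n a t := abs_nonneg _

theorem kap_hasDerivAt (m n a : ℕ) (t : ℝ) : HasDerivAt (kap m n a) (dkap m n a t) t := by
  have h1 : HasDerivAt (fun t : ℝ => Real.pi * (t - a / n)) Real.pi t := by
    have := ((hasDerivAt_id t).sub_const ((a : ℝ) / n)).const_mul Real.pi
    simpa using this
  have h2 := ((h1.cos).pow (2 * m)).div_const (n * wal m)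
  refine h2.congr_deriv ?_
  unfold dkap
  push_cast
  ring

theorem kap_contDiff (m n a : ℕ) {k : WithTop ℕ∞} : ContDiff ℝ k (kap m n a) := by
  unfold kap
  refine ContDiff.div_const (ContDiff.pow ?_ _) _
  exact Real.contDiff_cos.comp (contDiff_const.mul (contDiff_id.sub contDiff_const))

theorem kap_per (m n a : ℕ) (t : ℝ) : kap m n a (t + 1) = kap m n a t := by
  unfold kap
  have : Real.pi * (t + 1 - a / n) = Real.pi * (t - a / n) + Real.pi := by ring
  rw [this, Real.cos_add_pi, pow_mul, pow_mul, neg_sq]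

theorem kap_nonneg (m n a : ℕ) (t : ℝ) : 0 ≤ kap m n a t := by
  unfold kap
  have := (wal_pos m).le
  have h2 : 0 ≤ Real.cos (Real.pi * (t - a / n)) ^ (2 * m) := by
    rw [pow_mul]; positivity
  positivity

theorem abs_kap (m n a : ℕ) (t : ℝ) : |kap m n a t| = kap m n a t := abs_of_nonneg (kap_nonneg _ _ _ _)

section

variable {m n : ℕ} (hm : m + 1 < n) (t : ℝ)

include hm

theorem kap_sum : ∑ a ∈ range n, kap m n a t = 1 := by
  unfold kap
  rw [← Finset.sum_div, sum_cos_pow (by omega), div_self]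
  have := (wal_pos m).ne'
  have hn : (n : ℝ) ≠ 0 := Nat.cast_ne_zero.2 (by omega)
  positivity

theorem dkap_sum : ∑ a ∈ range n, dkap m n a t = 0 := by
  have h1 : HasDerivAt (fun t => ∑ a ∈ range n, kap m n a t) (∑ a ∈ range n, dkap m n a t) t :=
    HasDerivAt.fun_sum fun a _ => kap_hasDerivAt m n a t
  have h2 : (fun t => ∑ a ∈ range n, kap m n a t) = fun _ => 1 := funext fun t => kap_sum hm t
  rw [h2] at h1
  exact h1.unique (hasDerivAt_const t 1)

theorem kap_sn_sq : ∑ a ∈ range n, kap m n a t * sn n a t ^ 2 = 1 / (2 * m + 2) := by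
  have hn : (n : ℝ) ≠ 0 := Nat.cast_ne_zero.2 (by omega)
  have hw := (wal_pos m).ne'
  have e : ∀ a ∈ range n, kap m n a t * sn n a t ^ 2
      = (Real.cos (Real.pi * (t - a / n)) ^ (2 * m)
        - Real.cos (Real.pi * (t - a / n)) ^ (2 * (m + 1))) / (n * wal m) := by
    intro a _
    unfold kap sn
    rw [sq_abs, Real.sin_sq]
    ring
  rw [Finset.sum_congr rfl e, ← Finset.sum_div, Finset.sum_sub_distrib, sum_cos_pow (by omega),
    sum_cos_pow hm]
  have h := wal_succ m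
  have h2 : wal (m + 1) = wal m * (2 * m + 1) / (2 * m + 2) := by
    rw [eq_div_iff (by positivity)]; exact h
  rw [h2]
  field_simp
  ring

/-- `∑ |κ'| |sin| ≤ 2π` -/
theorem dkap_sn (hm1 : 1 ≤ m) : ∑ a ∈ range n, |dkap m n a t| * sn n a t ≤ 2 * Real.pi := by
  obtain ⟨k, rfl⟩ : ∃ k, m = k + 1 := ⟨m - 1, by omega⟩
  have hn : (n : ℝ) ≠ 0 := Nat.cast_ne_zero.2 (by omega)
  have hn0 : 0 < (n : ℝ) := by positivity
  have hw := wal_pos (k + 1)
  have e : ∀ a ∈ range n, |dkap (k + 1) n a t| * sn n a t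
      ≤ 2 * (k + 1) * Real.pi * (Real.cos (Real.pi * (t - a / n)) ^ (2 * k)
        - Real.cos (Real.pi * (t - a / n)) ^ (2 * (k + 1))) / (n * wal (k + 1)) := by
    intro a _
    unfold dkap sn
    rw [abs_div, abs_neg, abs_of_pos (by positivity : 0 < n * wal (k + 1)), div_mul_eq_mul_div]
    refine div_le_div_of_nonneg_right ?_ (by positivity)
    set c := Real.cos (Real.pi * (t - a / n)) with hc
    set s := Real.sin (Real.pi * (t - a / n)) with hs
    have h1 : 2 * (k + 1) - 1 = 2 * k + 1 := by omega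
    rw [h1, abs_mul, abs_mul (c ^ (2 * k + 1))]
    have h2 : |c ^ (2 * k + 1)| ≤ c ^ (2 * k) := by
      rw [pow_succ, abs_mul, pow_mul, abs_of_nonneg (by positivity : 0 ≤ (c ^ 2) ^ k)]
      exact mul_le_of_le_one_right (by positivity) (Real.abs_cos_le_one _)
    have h3 : |2 * ((k + 1 : ℕ) : ℝ) * Real.pi| = 2 * (k + 1) * Real.pi := by
      push_cast
      exact abs_of_nonneg (by have := Real.pi_pos; positivity)
    rw [h3]
    have h4 : c ^ (2 * k) * (|s| * |s|) = c ^ (2 * k) - c ^ (2 * (k + 1)) := by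
      rw [abs_mul_abs_self, hs, ← sq, Real.sin_sq, ← hc]
      ring
    rw [← h4]
    have hpi := Real.pi_pos
    have : |c ^ (2 * k + 1)| * (|s| * |s|) ≤ c ^ (2 * k) * (|s| * |s|) := by gcongr
    calc 2 * (↑k + 1) * Real.pi * (|c ^ (2 * k + 1)| * |s|) * |s|
        = 2 * (↑k + 1) * Real.pi * (|c ^ (2 * k + 1)| * (|s| * |s|)) := by ring
      _ ≤ _ := by gcongr
  refine (Finset.sum_le_sum e).trans ?_
  rw [← Finset.sum_div, ← Finset.mul_sum, Finset.sum_sub_distrib, sum_cos_pow (by omega),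
    sum_cos_pow (by omega)]
  have h := wal_succ k
  have h2 : wal (k + 1) = wal k * (2 * k + 1) / (2 * k + 2) := by
    rw [eq_div_iff (by positivity)]; exact h
  have hwk := wal_pos k
  have hpi := Real.pi_pos
  rw [div_le_iff₀ (by positivity), h2]
  have h3 : (n : ℝ) * wal k - n * (wal k * (2 * k + 1) / (2 * k + 2)) = n * wal k / (2 * k + 2) := by
    field_simp; ring
  rw [h3]
  have h4 : 2 * ((k : ℝ) + 1) * Real.pi * (n * wal k / (2 * k + 2)) = Real.pi * (n * wal k) := by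
    field_simp
  rw [h4]
  have h5 : 2 * Real.pi * (n * (wal k * (2 * k + 1) / (2 * k + 2)))
      = Real.pi * (n * wal k) * ((2 * (2 * k + 1)) / (2 * k + 2)) := by ring
  rw [h5]
  have h6 : (1 : ℝ) ≤ (2 * (2 * k + 1)) / (2 * k + 2) := by
    rw [le_div_iff₀ (by positivity)]
    have : (0 : ℝ) ≤ k := Nat.cast_nonneg k
    linarith
  exact le_mul_of_one_le_right (by positivity) h6

end

section

variable {μ n : ℕ} (hμ : 1 ≤ μ) (hn : μ ^ 2 + 1 < n) (t : ℝ)

include hμ hn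

/-- `∑ κ |sin| ≤ 1/μ` -/
theorem kap_sn : ∑ a ∈ range n, kap (μ ^ 2) n a t * sn n a t ≤ 1 / μ := by
  have hμ0 : (0 : ℝ) < μ := by exact_mod_cast hμ
  have e : ∀ a ∈ range n, kap (μ ^ 2) n a t * sn n a t
      ≤ (1 / (2 * μ)) * kap (μ ^ 2) n a t + (μ / 2) * (kap (μ ^ 2) n a t * sn n a t ^ 2) := by
    intro a _
    have h1 := kap_nonneg (μ ^ 2) n a t
    have h2 : sn n a t ≤ 1 / (2 * μ) + (μ / 2) * sn n a t ^ 2 := by
      have : 0 ≤ (1 - μ * sn n a t) ^ 2 / (2 * μ) := by positivity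
      have h3 : (1 - μ * sn n a t) ^ 2 / (2 * μ)
          = 1 / (2 * μ) + (μ / 2) * sn n a t ^ 2 - sn n a t := by field_simp; ring
      linarith
    calc kap (μ ^ 2) n a t * sn n a t
        ≤ kap (μ ^ 2) n a t * (1 / (2 * μ) + (μ / 2) * sn n a t ^ 2) := by gcongr
      _ = _ := by ring
  refine (Finset.sum_le_sum e).trans ?_
  rw [Finset.sum_add_distrib, ← Finset.mul_sum, ← Finset.mul_sum, kap_sum hn, kap_sn_sq hn]
  push_cast
  have h4 : (μ : ℝ) / 2 * (1 / (2 * μ ^ 2 + 2)) ≤ 1 / (2 * μ) := by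
    rw [div_mul_div_comm, mul_one, div_le_div_iff₀ (by positivity) (by positivity)]
    nlinarith
  have h5 : (1 : ℝ) / μ = 1 / (2 * μ) + 1 / (2 * μ) := by field_simp; ring
  rw [h5, mul_one]
  linarith

/-- `∑ |κ'| ≤ 2πμ` -/
theorem dkap_abs : ∑ a ∈ range n, |dkap (μ ^ 2) n a t| ≤ 2 * Real.pi * μ := by
  have hμ0 : (0 : ℝ) < μ := by exact_mod_cast hμ
  have hn0 : (0 : ℝ) < n := by
    have : 0 < n := by omega
    exact_mod_cast this
  obtain ⟨k, hk⟩ : ∃ k, μ ^ 2 = k + 1 := ⟨μ ^ 2 - 1, by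
    have : 1 ≤ μ ^ 2 := Nat.one_le_pow _ _ hμ
    omega⟩
  have hkμ : (μ : ℝ) ^ 2 = k + 1 := by exact_mod_cast hk
  have hw := wal_pos (k + 1)
  rw [hk] at hn ⊢
  have e : ∀ a ∈ range n, |dkap (k + 1) n a t|
      ≤ 2 * (k + 1) * Real.pi / (n * wal (k + 1)) * ((1 / (2 * μ))
        * Real.cos (Real.pi * (t - a / n)) ^ (2 * (k + 1)) + (μ / 2)
        * (Real.cos (Real.pi * (t - a / n)) ^ (2 * k)
          - Real.cos (Real.pi * (t - a / n)) ^ (2 * (k + 1)))) := by
    intro a _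
    unfold dkap
    rw [abs_div, abs_neg, abs_of_pos (by positivity : 0 < n * wal (k + 1))]
    set c := Real.cos (Real.pi * (t - a / n)) with hc
    set s := Real.sin (Real.pi * (t - a / n)) with hs
    have h1 : 2 * (k + 1) - 1 = 2 * k + 1 := by omega
    rw [h1, abs_mul]
    have h3 : |2 * ((k + 1 : ℕ) : ℝ) * Real.pi| = 2 * (k + 1) * Real.pi := by
      push_cast
      exact abs_of_nonneg (by have := Real.pi_pos; positivity)
    rw [h3, div_mul_eq_mul_div]
    refine div_le_div_of_nonneg_right ?_ (by positivity)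
    have hpi := Real.pi_pos
    refine mul_le_mul_of_nonneg_left ?_ (by positivity)
    have h4 : c ^ (2 * k) - c ^ (2 * (k + 1)) = (c ^ k * s) ^ 2 := by
      have : s ^ 2 = 1 - c ^ 2 := Real.sin_sq _
      rw [mul_pow, this]
      ring
    have h5 : c ^ (2 * (k + 1)) = (c ^ (k + 1)) ^ 2 := by ring
    have h6 : c ^ (2 * k + 1) * s = c ^ (k + 1) * (c ^ k * s) := by ring
    rw [h4, h5, h6]
    set X := c ^ (k + 1)
    set Y := c ^ k * s
    have h7 : 0 ≤ (|X| - μ * |Y|) ^ 2 / (2 * μ) := by positivity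
    have h8 : (|X| - μ * |Y|) ^ 2 / (2 * μ)
        = 1 / (2 * μ) * |X| ^ 2 + μ / 2 * |Y| ^ 2 - |X| * |Y| := by field_simp; ring
    rw [sq_abs, sq_abs] at h8
    rw [abs_mul]
    linarith
  refine (Finset.sum_le_sum e).trans ?_
  rw [← Finset.mul_sum, Finset.sum_add_distrib, ← Finset.mul_sum, ← Finset.mul_sum,
    Finset.sum_sub_distrib, sum_cos_pow (by omega), sum_cos_pow (by omega)]
  have h := wal_succ k
  have h2 : wal k = wal (k + 1) * (2 * k + 2) / (2 * k + 1) := by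
    rw [eq_div_iff (by positivity)]; exact h.symm
  rw [h2]
  have hpi := Real.pi_pos
  have h3 : 2 * ((k : ℝ) + 1) * Real.pi / (n * wal (k + 1)) * (1 / (2 * μ) * (n * wal (k + 1))
      + μ / 2 * (n * (wal (k + 1) * (2 * k + 2) / (2 * k + 1)) - n * wal (k + 1)))
      = 2 * (k + 1) * Real.pi * (1 / (2 * μ) + μ / 2 * (1 / (2 * k + 1))) := by
    field_simp
    ring
  rw [h3]
  have h4 : (μ : ℝ) / 2 * (1 / (2 * k + 1)) ≤ 1 / (2 * μ) := by
    rw [div_mul_div_comm, mul_one, div_le_div_iff₀ (by positivity) (by positivity)]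
    have : (0 : ℝ) ≤ k := Nat.cast_nonneg k
    nlinarith
  have h5 : 2 * Real.pi * (μ : ℝ) = 2 * (k + 1) * Real.pi * (1 / (2 * μ) + 1 / (2 * μ)) := by
    rw [← hkμ]
    field_simp
    norm_num
  rw [h5]
  gcongr

end

end Pool.Agent.TH811.SPD
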