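import Pool.Agent.TH811.SPD.Defs
import Pool.Agent.TH811.SPD.Null
import Pool.Agent.TH811.SPD.Part1

/-!
A smooth periodic partition of unity.
-/

open MeasureTheory Set Filter Topology
open scoped ContDiff ENNReal
open H459R3.NS Pool.Agent.W268.NS

namespace Pool.Agent.TH811.SPD

theorem tdist_nonneg (x y : V) : 0 ≤ tdist x y := Finset.sum_nonneg fun _ _ => abs_nonneg _

theorem tdist_self (x : V) : tdist x x = 0 := by simp [tdist]

theorem tdist_comm (x y : V) : tdist x y = tdist y x := by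
  unfold tdist
  refine Finset.sum_congr rfl fun i _ => ?_
  have : Real.pi * (x i - y i) = -(Real.pi * (y i - x i)) := by ring
  rw [this, Real.sin_neg, abs_neg]

theorem abs_sin_add_le (a b : ℝ) : |Real.sin (a + b)| ≤ |Real.sin a| + |Real.sin b| := by
  rw [Real.sin_add]
  refine (abs_add_le _ _).trans (add_le_add ?_ ?_)
  · rw [abs_mul]; exact mul_le_of_le_one_right (abs_nonneg _) (Real.abs_cos_le_one _)
  · rw [abs_mul]; exact mul_le_of_le_one_left (abs_nonneg _) (Real.abs_cos_le_one _)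

theorem tdist_triangle (x y z : V) : tdist x z ≤ tdist x y + tdist y z := by
  unfold tdist
  rw [← Finset.sum_add_distrib]
  refine Finset.sum_le_sum fun i _ => ?_
  have : Real.pi * (x i - z i) = Real.pi * (x i - y i) + Real.pi * (y i - z i) := by ring
  rw [this]
  exact abs_sin_add_le _ _

theorem tdist_le (x y : V) : tdist x y ≤ 3 := by
  unfold tdist
  refine (Finset.sum_le_sum fun i _ => Real.abs_sin_le_one _).trans ?_
  simp

theorem tdist_cont (x : V) : Continuous fun y => tdist x y := by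
  unfold tdist
  refine continuous_finsetSum _ fun i _ => ?_
  exact (Real.continuous_sin.comp
    (continuous_const.mul (continuous_const.sub (continuous_apply i)))).abs

/-- the nodes -/
noncomputable def node (n : ℕ) (j : Fin 3 → ℕ) : V := fun i => (j i : ℝ) / n

/-- the grid -/
def grid (n : ℕ) : Finset (Fin 3 → ℕ) := Fintype.piFinset fun _ => Finset.range n

theorem grid_sum (n : ℕ) (f g h : ℕ → ℝ) : ∑ j ∈ grid n, f (j 0) * g (j 1) * h (j 2)
    = (∑ a ∈ Finset.range n, f a) * (∑ a ∈ Finset.range n, g a) * (∑ a ∈ Finset.range n, h a) := by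
  have := Finset.prod_univ_sum (fun _ : Fin 3 => Finset.range n) (fun i a => (![f, g, h] : Fin 3 → ℕ → ℝ) i a)
  simp only [Fin.prod_univ_three, Matrix.cons_val] at this
  rw [this]
  rfl

theorem grid_sum_w (n : ℕ) (f g h s0 s1 s2 : ℕ → ℝ) :
    ∑ j ∈ grid n, f (j 0) * g (j 1) * h (j 2) * (s0 (j 0) + s1 (j 1) + s2 (j 2))
    = (∑ a ∈ Finset.range n, f a * s0 a) * (∑ a ∈ Finset.range n, g a)
        * (∑ a ∈ Finset.range n, h a)
      + (∑ a ∈ Finset.range n, f a) * (∑ a ∈ Finset.range n, g a * s1 a)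
        * (∑ a ∈ Finset.range n, h a)
      + (∑ a ∈ Finset.range n, f a) * (∑ a ∈ Finset.range n, g a)
        * (∑ a ∈ Finset.range n, h a * s2 a) := by
  rw [← grid_sum n (fun a => f a * s0 a) g h, ← grid_sum n f (fun a => g a * s1 a) h,
    ← grid_sum n f g (fun a => h a * s2 a), ← Finset.sum_add_distrib, ← Finset.sum_add_distrib]
  refine Finset.sum_congr rfl fun j _ => ?_
  ring

/-- the functions of the partition -/
noncomputable def chi (m n : ℕ) (j : Fin 3 → ℕ) (x : V) : ℝ :=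
  kap m n (j 0) (x 0) * kap m n (j 1) (x 1) * kap m n (j 2) (x 2)

/-- factors of the derivatives -/
noncomputable def fac (m n : ℕ) (i l : Fin 3) (a : ℕ) (t : ℝ) : ℝ :=
  if l = i then dkap m n a t else kap m n a t

theorem chi_nonneg (m n : ℕ) (j : Fin 3 → ℕ) (x : V) : 0 ≤ chi m n j x :=
  mul_nonneg (mul_nonneg (kap_nonneg _ _ _ _) (kap_nonneg _ _ _ _)) (kap_nonneg _ _ _ _)

theorem sp_coord (m n a : ℕ) (l : Fin 3) : SP (fun x : V => kap m n a (x l)) where
  smooth := (kap_contDiff m n a).comp (contDiff_apply ℝ ℝ l)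
  per := by
    intro i x
    show kap m n a (x l + (Pi.single i (1 : ℝ) : V) l) = kap m n a (x l)
    by_cases h : l = i
    · subst h
      rw [Pi.single_eq_same, kap_per]
    · rw [Pi.single_eq_of_ne h, add_zero]

theorem sp_chi (m n : ℕ) (j : Fin 3 → ℕ) : SP (chi m n j) :=
  ((sp_coord m n (j 0) 0).mul (sp_coord m n (j 1) 1)).mul (sp_coord m n (j 2) 2)

theorem pd_coord (m n a : ℕ) (i l : Fin 3) (x : V) :
    pd i (fun x : V => kap m n a (x l)) x = if l = i then dkap m n a (x l) else 0 := by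
  unfold pd
  have hp : HasFDerivAt (fun x : V => x l) (ContinuousLinearMap.proj l : V →L[ℝ] ℝ) x :=
    hasFDerivAt_apply l x
  have h : HasFDerivAt (fun x : V => kap m n a (x l))
      (dkap m n a (x l) • (ContinuousLinearMap.proj l : V →L[ℝ] ℝ)) x := by
    have h0 := kap_hasDerivAt m n a (x l)
    exact HasDerivAt.comp_hasFDerivAt (h₂ := kap m n a) (f := fun x : V => x l) x h0 hp
  rw [h.fderiv]
  simp only [smul_apply, ContinuousLinearMap.proj_apply, smul_eq_mul, Pi.single_apply]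
  split_ifs <;> simp

theorem pd_chi (m n : ℕ) (j : Fin 3 → ℕ) (i : Fin 3) (x : V) :
    pd i (chi m n j) x
      = fac m n i 0 (j 0) (x 0) * fac m n i 1 (j 1) (x 1) * fac m n i 2 (j 2) (x 2) := by
  have h1 := pd_mul ((sp_coord m n (j 0) 0).mul (sp_coord m n (j 1) 1)) (sp_coord m n (j 2) 2) i x
  have h2 := pd_mul (sp_coord m n (j 0) 0) (sp_coord m n (j 1) 1) i x
  have e : chi m n j = fun y : V => kap m n (j 0) (y 0) * kap m n (j 1) (y 1)
      * kap m n (j 2) (y 2) := rfl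
  rw [e, h1, h2, pd_coord, pd_coord, pd_coord]
  unfold fac
  fin_cases i <;> simp

section

variable {m n : ℕ} (hm : m + 1 < n) (x : V)

include hm

theorem chi_sum : ∑ j ∈ grid n, chi m n j x = 1 := by
  unfold chi
  rw [grid_sum n (fun a => kap m n a (x 0)) (fun a => kap m n a (x 1)) (fun a => kap m n a (x 2)),
    kap_sum hm, kap_sum hm, kap_sum hm]
  norm_num

theorem pd_chi_sum (i : Fin 3) : ∑ j ∈ grid n, pd i (chi m n j) x = 0 := by
  simp_rw [pd_chi]
  rw [grid_sum n (fun a => fac m n i 0 a (x 0)) (fun a => fac m n i 1 a (x 1))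
    (fun a => fac m n i 2 a (x 2))]
  have h : ∀ t, ∑ a ∈ Finset.range n, fac m n i i a t = 0 := by
    intro t
    unfold fac
    simp only [if_true]
    exact dkap_sum hm t
  fin_cases i
  · have := h (x 0)
    simp only [Fin.zero_eta] at this ⊢
    rw [this]; ring
  · have := h (x 1)
    simp only [Fin.mk_one] at this ⊢
    rw [this]; ring
  · have := h (x 2)
    simp only [Fin.reduceFinMk] at this ⊢
    rw [this]; ring

end

section

variable {μ n : ℕ} (hμ : 1 ≤ μ) (hn : μ ^ 2 + 1 < n) (x : V)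

theorem tdist_node (n : ℕ) (j : Fin 3 → ℕ) (x : V) :
    tdist x (node n j) = sn n (j 0) (x 0) + sn n (j 1) (x 1) + sn n (j 2) (x 2) := by
  unfold tdist node sn
  rw [Fin.sum_univ_three]

include hμ hn

theorem chi_tdist : ∑ j ∈ grid n, chi (μ ^ 2) n j x * tdist x (node n j) ≤ 3 / μ := by
  simp_rw [tdist_node]
  unfold chi
  rw [grid_sum_w n (fun a => kap (μ ^ 2) n a (x 0)) (fun a => kap (μ ^ 2) n a (x 1))
    (fun a => kap (μ ^ 2) n a (x 2)) (fun a => sn n a (x 0)) (fun a => sn n a (x 1))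
    (fun a => sn n a (x 2)), kap_sum hn, kap_sum hn, kap_sum hn]
  have h0 := kap_sn hμ hn (x 0)
  have h1 := kap_sn hμ hn (x 1)
  have h2 := kap_sn hμ hn (x 2)
  have : (3 : ℝ) / μ = 1 / μ + 1 / μ + 1 / μ := by ring
  rw [this]
  linarith

theorem fac_abs (i l : Fin 3) (t : ℝ) : ∑ a ∈ Finset.range n, |fac (μ ^ 2) n i l a t|
    ≤ if l = i then 2 * Real.pi * μ else 1 := by
  unfold fac
  split_ifs with h
  · exact dkap_abs hμ hn t
  · simp_rw [abs_kap]
    exact (kap_sum hn t).le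

theorem fac_sn (i l : Fin 3) (t : ℝ) : ∑ a ∈ Finset.range n, |fac (μ ^ 2) n i l a t| * sn n a t
    ≤ if l = i then 2 * Real.pi else 1 / μ := by
  unfold fac
  split_ifs with h
  · exact dkap_sn hn t (Nat.one_le_pow _ _ hμ)
  · simp_rw [abs_kap]
    exact kap_sn hμ hn t

theorem pd_chi_tdist (i : Fin 3) :
    ∑ j ∈ grid n, |pd i (chi (μ ^ 2) n j) x| * tdist x (node n j) ≤ 6 * Real.pi := by
  simp_rw [tdist_node, pd_chi, abs_mul]
  rw [grid_sum_w n (fun a => |fac (μ ^ 2) n i 0 a (x 0)|) (fun a => |fac (μ ^ 2) n i 1 a (x 1)|)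
    (fun a => |fac (μ ^ 2) n i 2 a (x 2)|) (fun a => sn n a (x 0)) (fun a => sn n a (x 1))
    (fun a => sn n a (x 2))]
  have hμ0 : (0 : ℝ) < μ := by exact_mod_cast hμ
  have hpi := Real.pi_pos
  have A0 := fac_abs hμ hn i 0 (x 0)
  have A1 := fac_abs hμ hn i 1 (x 1)
  have A2 := fac_abs hμ hn i 2 (x 2)
  have B0 := fac_sn hμ hn i 0 (x 0)
  have B1 := fac_sn hμ hn i 1 (x 1)
  have B2 := fac_sn hμ hn i 2 (x 2)
  have nA : ∀ l t, 0 ≤ ∑ a ∈ Finset.range n, |fac (μ ^ 2) n i l a t| := fun l t =>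
    Finset.sum_nonneg fun _ _ => abs_nonneg _
  have nB : ∀ l t, 0 ≤ ∑ a ∈ Finset.range n, |fac (μ ^ 2) n i l a t| * sn n a t := fun l t =>
    Finset.sum_nonneg fun _ _ => mul_nonneg (abs_nonneg _) (sn_nonneg _ _ _)
  have T : ∀ {X Y Z a b c : ℝ}, 0 ≤ X → 0 ≤ Y → 0 ≤ Z → X ≤ a → Y ≤ b → Z ≤ c →
      X * Y * Z ≤ a * b * c := by
    intro X Y Z a b c hX hY hZ ha hb hc
    have : 0 ≤ a := hX.trans ha
    have : 0 ≤ b := hY.trans hb
    gcongr
  have t0 := T (nB 0 (x 0)) (nA 1 (x 1)) (nA 2 (x 2)) B0 A1 A2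
  have t1 := T (nA 0 (x 0)) (nB 1 (x 1)) (nA 2 (x 2)) A0 B1 A2
  have t2 := T (nA 0 (x 0)) (nA 1 (x 1)) (nB 2 (x 2)) A0 A1 B2
  refine (add_le_add (add_le_add t0 t1) t2).trans (le_of_eq ?_)
  have e1 : 2 * Real.pi * (μ : ℝ) * (1 / μ) = 2 * Real.pi := by field_simp
  have e2 : (1 : ℝ) / μ * (2 * Real.pi * μ) = 2 * Real.pi := by field_simp
  fin_cases i <;> simp only [Fin.zero_eta, Fin.mk_one, Fin.reduceFinMk, Fin.isValue, if_true,
    Fin.reduceEq, if_false, one_mul, mul_one, e1, e2, one_ne_zero, zero_ne_one] <;> ring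

end

end Pool.Agent.TH811.SPD
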