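import Pool.Agent.GR.Flow
import Pool.Agent.TH811.SPD.Evol

/-!
The flow of a smooth periodic divergence-free vector field, and its invariant measure.
-/

open MeasureTheory Set Filter Topology
open scoped ContDiff ENNReal NNReal
open H459R3.NS Pool.Agent.W268.NS Pool.Agent.GR.Flow

namespace Pool.Agent.TH811.SPD

theorem exists_cube (x : V) : ∃ y ∈ cube, ∃ m : K3, x = y + fun i => (m i : ℝ) := by
  refine ⟨fun i => Int.fract (x i), ⟨fun i => Int.fract_nonneg _, fun i => (Int.fract_lt_one _).le⟩,
    fun i => ⌊x i⌋, ?_⟩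
  funext i
  simp only [Pi.add_apply]
  rw [add_comm]
  exact (Int.floor_add_fract (x i)).symm

theorem per_bound {E : Type*} [NormedAddCommGroup E] {f : V → E} (hp : Per f) (hc : Continuous f) :
    ∃ C : ℝ≥0, ∀ x, ‖f x‖ ≤ C := by
  obtain ⟨C, hC⟩ := isCompact_Icc.exists_bound_of_continuousOn (s := cube) hc.continuousOn
  refine ⟨Real.toNNReal C, fun x => ?_⟩
  obtain ⟨y, hy, m, rfl⟩ := exists_cube x
  rw [hp.int]
  exact (hC y hy).trans (Real.le_coe_toNNReal C)

section flow

variable {v : V → V} (hv : ∀ i, SP (fun y => v y i))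

include hv in
theorem v_smooth : ContDiff ℝ ∞ v := contDiff_pi.2 fun i => (hv i).smooth

include hv in
theorem v_per : Per v := fun i x => funext fun j => (hv j).per i x

include hv in
theorem v_lip : ∃ K : ℝ≥0, LipschitzWith K v := by
  have hd : Differentiable ℝ v := (v_smooth hv).differentiable (by norm_cast)
  have hc : Continuous (fderiv ℝ v) := (v_smooth hv).continuous_fderiv (by norm_cast)
  have hp : Per (fderiv ℝ v) := by
    intro i x
    have h1 : (fun x => v (x + Pi.single i 1)) = v := funext fun x => v_per hv i x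
    have h2 := fderiv_comp_add_right (𝕜 := ℝ) (f := v) (x := x) (Pi.single i 1)
    rw [h1] at h2
    exact h2.symm
  obtain ⟨K, hK⟩ := per_bound hp hc
  exact ⟨K, lipschitzWith_of_nnnorm_fderiv_le hd fun x => by exact_mod_cast hK x⟩

include hv in
theorem exists_flow : ∃ g : ℝ → V → V, IsFlowOf v g := by
  obtain ⟨K, hK⟩ := v_lip hv
  obtain ⟨M, hM⟩ := per_bound (v_per hv) (v_smooth hv).continuous
  choose γ h0 h1 using fun x => exists_solution hK hM x
  exact ⟨fun t x => γ x t, ⟨fun x => h0 x, fun x t => h1 x t⟩⟩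

variable {g : ℝ → V → V} (hg : IsFlowOf v g)

include hv hg in
theorem flow_smooth : ContDiff ℝ ∞ (fun p : ℝ × V => g p.1 p.2) := by
  obtain ⟨K, hK⟩ := v_lip hv
  rw [contDiff_infty]
  intro n
  have h1 : ContDiff ℝ ((n + 1 : ℕ)) (fun p : ℝ × V => g p.1 p.2) :=
    contDiff_flow (X := ⟨v, (v_smooth hv).continuous⟩) (Nat.succ_ne_zero n)
      ((v_smooth hv).of_le (by exact_mod_cast le_top)) hK hg
  exact h1.of_le (by exact_mod_cast Nat.le_succ n)

include hv hg in
theorem flow_add (t s : ℝ) (x : V) : g (t + s) x = g t (g s x) := by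
  obtain ⟨K, hK⟩ := v_lip hv
  exact hg.add hK t s x

include hv hg in
theorem flow_per (t : ℝ) (x : V) (i : Fin 3) : g t (x + Pi.single i 1) = g t x + Pi.single i 1 := by
  obtain ⟨K, hK⟩ := v_lip hv
  have h1 : (fun t => g t (x + Pi.single i 1)) = fun t => g t x + Pi.single i 1 := by
    refine ODE_solution_unique_univ (v := fun _ => v) (s := fun _ => univ) (K := K) (t₀ := 0)
      (fun t => hK.lipschitzOnWith) (fun t => ⟨hg.deriv _ t, trivial⟩)
      (fun t => ⟨?_, trivial⟩) ?_
    · show HasDerivAt (fun t => g t x + Pi.single i 1) (v (g t x + Pi.single i 1)) t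
      rw [v_per hv]
      exact (hg.deriv x t).add_const _
    · rw [hg.zero, hg.zero]
  exact congrFun h1 t

include hv hg in
theorem per_flow {E : Type*} {f : V → E} (hf : Per f) (t : ℝ) : Per (fun x => f (g t x)) := by
  intro i x
  show f (g t (x + Pi.single i 1)) = f (g t x)
  rw [flow_per hv hg, hf]

include hv hg in
theorem sp_flow {f : V → ℝ} (hf : SP f) (t : ℝ) : SP (fun x => f (g t x)) := by
  refine ⟨hf.smooth.comp ?_, per_flow hv hg hf.per t⟩
  exact (flow_smooth hv hg).comp (contDiff_const.prodMk contDiff_id)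

theorem adv_eq (v : V → V) (f : V → ℝ) (x : V) : adv v f x = fderiv ℝ f x (v x) := by
  unfold adv pd
  have h1 : v x = ∑ j, v x j • (Pi.single j 1 : V) := by
    funext i
    simp [Finset.sum_apply, Pi.single_apply]
  conv_rhs => rw [h1, map_sum]
  refine Finset.sum_congr rfl fun j _ => ?_
  rw [map_smul, smul_eq_mul]

include hg in
theorem deriv_flow {f : V → ℝ} (hf : SP f) (x : V) (t : ℝ) :
    HasDerivAt (fun t => f (g t x)) (adv v f (g t x)) t := by
  rw [adv_eq]
  exact (hf.diff (g t x)).hasFDerivAt.comp_hasDerivAt t (hg.deriv x t)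

include hv hg in
theorem deriv_flow' {f : V → ℝ} (hf : SP f) (x : V) (t : ℝ) :
    HasDerivAt (fun t => f (g t x)) (adv v (fun x => f (g t x)) x) t := by
  have h1 := deriv_flow hg (sp_flow hv hg hf t) x 0
  rw [hg.zero] at h1
  have h2 : (fun s => f (g t (g s x))) = fun s => f (g (t + s) x) := by
    funext s
    rw [flow_add hv hg]
  rw [h2] at h1
  have h1' : HasDerivAt (fun s => f (g (t + s) x)) (adv v (fun x => f (g t x)) x) (t - t) := by
    rw [sub_self]; exact h1
  have h4 := h1'.comp_sub_const t t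
  refine h4.congr_of_eventuallyEq (Filter.Eventually.of_forall fun s => ?_)
  show f (g s x) = f (g (t + (s - t)) x)
  rw [add_sub_cancel]

variable (hdiv : ∀ x, ∑ i, pd i (fun y => v y i) x = 0)

include hv hg hdiv in
theorem int_flow_deriv {f : V → ℝ} (hf : SP f) (t : ℝ) :
    HasDerivAt (fun t => ∫ x in cube, f (g t x)) 0 t := by
  have h1 : ContDiff ℝ ∞ (fun z : ℝ × V => f (g (z.1 + (t - 1)) z.2)) := by
    refine hf.smooth.comp ?_
    exact (flow_smooth hv hg).comp ((contDiff_fst.add contDiff_const).prodMk contDiff_snd)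
  have h2 := hasDerivAt_int (T := 2) (t := 1) (F := fun s x => f (g (s + (t - 1)) x))
    ((h1.of_le (by norm_cast)).contDiffOn) ⟨by norm_num, by norm_num⟩
  have h3 : ∀ x, deriv (fun s => f (g (s + (t - 1)) x)) 1 = adv v (fun x => f (g t x)) x := by
    intro x
    have h4 := deriv_flow' hv hg hf x t
    have h4' : HasDerivAt (fun t => f (g t x)) (adv v (fun x => f (g t x)) x) (1 + (t - 1)) := by
      have : (1 : ℝ) + (t - 1) = t := by ring
      rw [this]; exact h4
    exact (h4'.comp_add_const 1 (t - 1)).deriv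
  simp_rw [h3] at h2
  rw [int_adv hv hdiv (sp_flow hv hg hf t)] at h2
  have h2' : HasDerivAt (fun s => ∫ x in cube, f (g (s + (t - 1)) x)) 0 (t - (t - 1)) := by
    have : t - (t - 1) = 1 := by ring
    rw [this]; exact h2
  have h8 := h2'.comp_sub_const t (t - 1)
  refine h8.congr_of_eventuallyEq (Filter.Eventually.of_forall fun s => ?_)
  show ∫ x in cube, f (g s x) = ∫ x in cube, f (g (s - (t - 1) + (t - 1)) x)
  rw [sub_add_cancel]

include hv hg hdiv in
theorem int_flow {f : V → ℝ} (hf : SP f) (t : ℝ) :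
    ∫ x in cube, f (g t x) = ∫ x in cube, f x := by
  have h1 := is_const_of_deriv_eq_zero
    (fun s => (int_flow_deriv hv hg hdiv hf s).differentiableAt)
    (fun s => (int_flow_deriv hv hg hdiv hf s).deriv) t 0
  simp only [hg.zero] at h1
  exact h1

end flow

end Pool.Agent.TH811.SPD
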