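import Pool.Agent.TH811.SPD.Str7
import Pool.Agent.TH811.SPD.Fin

/-!
The criterion along streamlines.
-/

open MeasureTheory Set Filter Topology
open scoped ENNReal
open H459R3.NS Pool.Agent.W268.NS Pool.Agent.GR.Flow

namespace Pool.Agent.TH811.SPD

/-- The form-bounded potential. -/
theorem form_le {N α a b : ℝ} (hN : 0 ≤ N) (hα : 0 < α) (ha : 0 ≤ a) {f : V → ℝ}
    (hf : FormBound a b f) {v : V → V} (hv : ∀ i, SP (fun y => v y i)) :
    ∫ x in cube, f x * ze N (sq3 v x) ^ (α + 1)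
      ≤ a * (α + 1) ^ 2 * (∫ x in cube, psi N α (sq3 v x) * grad2 v x)
        + b * ∫ x in cube, ze N (sq3 v x) ^ (α + 1) := by
  set w : V → ℝ := sq3 v with hw
  have hws : SP w := sp_sq3 hv
  set z : V → ℝ := fun x => ze N (w x) ^ ((α + 1) / 2) with hz
  have hzs : SP z := sp_comp hws (rpow_ze_contDiff hN _)
  have hz2 : ∀ x, z x ^ 2 = ze N (w x) ^ (α + 1) := by
    intro x
    simp only [hz]
    rw [← Real.rpow_natCast, ← Real.rpow_mul (ze_pos hN _).le]
    congr 1
    push_cast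
    ring
  have h1 := hf z hzs
  simp_rw [hz2] at h1
  have ij : ∀ j, IntegrableOn (fun x => pd j z x ^ 2) cube := fun j =>
    integrableOn_cube ((hzs.pd j).cont.pow 2)
  have hgrd : ∫ x in cube, ∑ j, pd j z x ^ 2
      ≤ (α + 1) ^ 2 * ∫ x in cube, psi N α (w x) * grad2 v x := by
    rw [← integral_const_mul]
    refine integral_mono (integrable_finsetSum _ fun j _ => ij j)
      (((sp_comp hws (psi_contDiff hN)).mul (sp_grad2 hv)).int.const_mul _) fun x => ?_
    show ∑ j, pd j z x ^ 2 ≤ (α + 1) ^ 2 * (psi N α (w x) * grad2 v x)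
    have e1 : ∀ j, pd j z x = (α + 1) / 2 * ze N (w x) ^ ((α + 1) / 2 - 1) * tau N (w x)
        * pd j w x := by
      intro j
      have a3 : pd j z x = deriv (fun s => ze N s ^ ((α + 1) / 2)) (w x) * pd j w x :=
        pd_comp hws (rpow_ze_contDiff hN _) j x
      rw [a3, (rpow_ze_hasDerivAt hN _ _).deriv]
    have e2 : ∑ j, pd j w x ^ 2 = 4 * rad2 v x := by
      unfold rad2
      rw [Finset.mul_sum]
      refine Finset.sum_congr rfl fun j _ => ?_
      rw [hw, pd_sq3 hv]
      ring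
    simp_rw [e1, mul_pow]
    rw [← Finset.mul_sum, e2]
    have hzp := ze_pos hN (w x)
    have e3 : (ze N (w x) ^ ((α + 1) / 2 - 1)) ^ 2 = ze N (w x) ^ (α - 1) := by
      rw [← Real.rpow_natCast, ← Real.rpow_mul hzp.le]
      congr 1
      push_cast
      ring
    rw [e3]
    have e4 : psi N α (w x) = ze N (w x) ^ (α - 1) * ze N (w x) := by
      unfold psi
      rw [Real.rpow_sub_one hzp.ne']
      field_simp
    rw [e4]
    have t0 := tau_nonneg N (w x)
    have t1 := tau_le_one N (w x)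
    have t2 : tau N (w x) ^ 2 ≤ 1 := pow_le_one₀ t0 t1
    have r0 := rad2_nonneg v x
    have r1 := rad2_le v x
    have g0 := grad2_nonneg v x
    have z1 := ze_ge_self hN (w x)
    have b1 : tau N (w x) ^ 2 * rad2 v x ≤ ze N (w x) * grad2 v x :=
      calc tau N (w x) ^ 2 * rad2 v x ≤ 1 * rad2 v x := mul_le_mul_of_nonneg_right t2 r0
        _ = rad2 v x := one_mul _
        _ ≤ w x * grad2 v x := r1
        _ ≤ ze N (w x) * grad2 v x := mul_le_mul_of_nonneg_right z1 g0
    have b2 : 0 ≤ (α + 1) ^ 2 * ze N (w x) ^ (α - 1) := by positivity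
    have b3 := mul_le_mul_of_nonneg_left b1 b2
    calc ((α + 1) / 2) ^ 2 * ze N (w x) ^ (α - 1) * tau N (w x) ^ 2 * (4 * rad2 v x)
        = (α + 1) ^ 2 * ze N (w x) ^ (α - 1) * (tau N (w x) ^ 2 * rad2 v x) := by ring
      _ ≤ _ := b3
      _ = _ := by ring
  refine h1.trans ?_
  have h2 := mul_le_mul_of_nonneg_left hgrd ha
  linarith

theorem FormBound.nonneg {a b : ℝ} {f : V → ℝ} (hf : FormBound a b f) (hf0 : ∀ x, 0 ≤ f x) :
    0 ≤ b := by
  have h1 := hf (fun _ => 1) sp_one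
  have h2 : ∀ (i : Fin 3) (x : V), pd i (fun _ : V => (1 : ℝ)) x = 0 := by
    intro i x
    unfold pd
    simp
  simp only [h2, one_pow, mul_one] at h1
  have h3 : ∫ _ in cube, (1 : ℝ) = 1 := int_const_cube 1
  rw [h3] at h1
  have h4 : 0 ≤ ∫ x in cube, f x := integral_nonneg hf0
  simp at h1
  linarith

theorem criterion_str {p : ℝ≥0∞} (hp : 3 / 2 < p) {q : ℝ} (hpq : 3 * (p⁻¹).toReal + 2 / q = 2)
    {ν κ lam δ M : ℝ} (hν : 0 < ν) (hκ0 : 0 ≤ κ) (hlam : 0 ≤ lam) (hδ : 0 ≤ δ)
    (hsum : κ + lam + 9 * δ < 1) {T : ℝ} {u : ℝ → V → V} {P : ℝ → V → ℝ} (h : IsSol ν T u P)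
    {β γ : ℝ → ℝ} (hβ : IntegrableOn (fun t => β t ^ q) (Ioo 0 T))
    (hγ : IntegrableOn γ (Ioo 0 T))
    (hcomp : ∀ᵐ t ∂(volume.restrict (Ioo 0 T)), 0 ≤ β t ∧ ∃ (f₁ f₂ : V → ℝ) (Z : Set V),
      Measurable f₁ ∧ Per f₁ ∧ (∀ x, 0 ≤ f₁ x) ∧
      eLpNorm f₁ p (volume.restrict cube) ≤ ENNReal.ofReal (β t) ∧
      Measurable f₂ ∧ Per f₂ ∧ (∀ x, 0 ≤ f₂ x) ∧ IntegrableOn f₂ cube ∧
      FormBound (δ * ν) (γ t) f₂ ∧ volume Z = 0 ∧
      ∀ (X : ℝ → V) (τ : ℝ), Excursion (u t) M X τ → X 0 ∉ Z → X τ ∉ Z →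
        P t (X 0) ≤ P t (X τ)
          + room ν κ (fun x => f₁ x + f₂ x) (u t) (X 0) / growth (u t) (X 0)
          - room ν κ (fun x => f₁ x + f₂ x) (u t) (X τ) / growth (u t) (X τ)
          + ∫ r in Ioo 0 τ, ((f₁ (X r) + f₂ (X r)) * (1 + speed (u t) (X r) ^ 2)
            + lam * ν * grad2 (u t) (X r))) :
    ∃ C, ∀ t ∈ Ico 0 T, ∀ x i, |u t x i| ≤ C := by
  have hθ0 : 0 ≤ th p := th_nonneg p
  have hθ2 : th p < 2 := th_lt_two hp
  have hq : q = 2 / (2 - th p) := by
    have h1 : 2 / q = 2 - th p := by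
      have : th p = 3 * (p⁻¹).toReal := rfl
      rw [this]
      linarith
    rw [← h1]
    have : q ≠ 0 := by
      intro h0
      rw [h0, div_zero] at h1
      linarith
    field_simp
  have hq1 : 1 ≤ q := by
    rw [hq, le_div_iff₀ (by linarith)]
    linarith
  -- the exponent
  obtain ⟨α, hα1, hα2⟩ : ∃ α : ℝ, 1 / 2 < α ∧
      2 * α * κ + lam + (4 * α + 2) * (α + 1) ^ 2 * δ < 1 := by
    have hc : Continuous fun α : ℝ => 2 * α * κ + lam + (4 * α + 2) * (α + 1) ^ 2 * δ := by
      fun_prop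
    have h0 : 2 * (1 / 2 : ℝ) * κ + lam + (4 * (1 / 2) + 2) * (1 / 2 + 1) ^ 2 * δ < 1 := by
      have e : 2 * (1 / 2 : ℝ) * κ + lam + (4 * (1 / 2) + 2) * (1 / 2 + 1) ^ 2 * δ
          = κ + lam + 9 * δ := by ring
      rw [e]; exact hsum
    have h1 : ∀ᶠ α in 𝓝[>] (1 / 2 : ℝ),
        2 * α * κ + lam + (4 * α + 2) * (α + 1) ^ 2 * δ < 1 :=
      (hc.continuousAt.eventually (Iio_mem_nhds h0)).filter_mono nhdsWithin_le_nhds
    obtain ⟨α, h2, h3⟩ := (h1.and self_mem_nhdsWithin).exists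
    exact ⟨α, h3, h2⟩
  have hα : 0 < α := by linarith
  set s0 : ℝ := 1 - (2 * α * κ + lam + (4 * α + 2) * (α + 1) ^ 2 * δ) with hs0
  have hs0p : 0 < s0 := by rw [hs0]; linarith
  set N : ℝ := max M 0 ^ 2 with hNdef
  have hN : 0 ≤ N := sq_nonneg _
  have hM0 : 0 ≤ max M 0 := le_max_right _ _
  have hlow : ∀ (v : V → V) x, N < sq3 v x → M < speed v x := by
    intro v x hx
    refine (le_max_left M 0).trans_lt ?_
    exact (Real.lt_sqrt hM0).2 hx
  obtain ⟨D, hD0, hD⟩ := pot_le hp hN hα (ε := s0 * ν / (4 * α + 2)) (by positivity)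
  set A : ℝ := (N + 1) ^ (α + 1) + (α + 1) with hA
  have hA0 : 0 ≤ A := by positivity
  set F : ℝ → ℝ := Phi N α with hF
  have hFc := Phi_contDiff (α := α) hN
  have hF1 : deriv F = psi N α := funext fun s => Phi_deriv hN s
  set y : ℝ → ℝ := fun s => ∫ x in cube, F (sq3 (u s) x) with hy
  have hy0 : ∀ s, 0 ≤ y s := fun s => integral_nonneg fun x => Phi_nonneg hN (sq3_nonneg _ _)
  set G : ℝ → ℝ := fun s => ((8 * α + 4) * D * (1 + 2 * β s ^ q) + (8 * α + 4) * γ s) * A with hG
  have hG0 : ∀ᵐ s ∂(volume.restrict (Ioo 0 T)), 0 ≤ G s := by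
    filter_upwards [hcomp] with s hs
    have h1 := Real.rpow_nonneg hs.1 q
    obtain ⟨f₁, f₂, Z, -, -, -, -, -, -, hf₂0, -, hf₂b, -⟩ := hs.2
    have h2 := hf₂b.nonneg hf₂0
    simp only [hG]
    positivity
  have hGi : IntegrableOn G (Ioo 0 T) := by
    have hfin : volume (Ioo 0 T) ≠ ⊤ := by rw [Real.volume_Ioo]; exact ENNReal.ofReal_ne_top
    have i1 : IntegrableOn (fun s => 1 + 2 * β s ^ q) (Ioo 0 T) :=
      (integrableOn_const hfin).add (hβ.const_mul 2)
    exact ((i1.const_mul _).add (hγ.const_mul _)).mul_const A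
  have hZ : ∀ s ∈ Ico 0 T, ∫ x in cube, ze N (sq3 (u s) x) ^ (α + 1) ≤ A * (1 + y s) := by
    intro s hs
    have hv : ∀ i, SP (fun z => u s z i) := fun i => h.sp hs i
    have hws := sp_sq3 hv
    have hΦ : IntegrableOn (fun x => F (sq3 (u s) x)) cube := (sp_comp hws hFc).int
    have h1 : ∫ x in cube, ze N (sq3 (u s) x) ^ (α + 1)
        ≤ ∫ x in cube, ((N + 1) ^ (α + 1) + (α + 1) * F (sq3 (u s) x)) := by
      refine integral_mono (sp_comp hws (rpow_ze_contDiff hN _)).int
        ((sp_const _).int.add (hΦ.const_mul _)) fun x => ?_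
      exact ze_rpow_le_Phi hN hα.le (sq3_nonneg _ _)
    rw [integral_add (sp_const _).int (hΦ.const_mul _), integral_const_mul, int_const_cube] at h1
    refine h1.trans ?_
    have h2 := hy0 s
    have h3 : 0 ≤ (N + 1) ^ (α + 1) := by positivity
    show (N + 1) ^ (α + 1) + (α + 1) * y s ≤ A * (1 + y s)
    simp only [hA]
    nlinarith
  obtain ⟨Y', hY'c, hY'd⟩ := F_deriv_cont h hFc
  have hgr := gron_log (T := T) (y := y) (Y' := Y') (y' := fun t =>
      (-(2 * ν * ∫ x in cube, (deriv F (sq3 (u t) x) * grad2 (u t) x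
          + 2 * deriv (deriv F) (sq3 (u t) x) * rad2 (u t) x))
        + 2 * ∫ x in cube, deriv (deriv F) (sq3 (u t) x)
          * (P t x * adv (u t) (sq3 (u t)) x))) (g := G) hy0 (F_continuousOn h hFc)
    (fun s hs => F_hasDerivAt h hFc hs) hY'c hY'd hG0 hGi (by
      filter_upwards [hcomp, ae_restrict_mem measurableSet_Ioo] with t htc ht
      have hI : t ∈ Ico 0 T := ⟨ht.1.le, ht.2⟩
      obtain ⟨hβ0, f₁, f₂, Z, hf₁m, hf₁p, hf₁0, hf₁β, hf₂m, hf₂p, hf₂0, hf₂i, hf₂b, hZ0, hcmp⟩ := htc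
      have hv : ∀ i, SP (fun z => u t z i) := fun i => h.sp hI i
      have hdiv : ∀ x, ∑ i, pd i (fun y => u t y i) x = 0 := h.divfree t hI
      obtain ⟨g, hg⟩ := exists_flow hv
      obtain ⟨hf₁i, hpot⟩ := hD f₁ (u t) (β t) hf₁m.aestronglyMeasurable hβ0 hf₁β hf₁0 hv
      have hform := form_le hN hα (mul_nonneg hδ hν.le) hf₂b hv
      have hws := sp_sq3 hv
      have hsqs : ∀ x, speed (u t) x ^ 2 = sq3 (u t) x := fun x => Real.sq_sqrt (sq3_nonneg _ _)
      have hpr := press_str (N := N) (α := α) (κ := κ) (lam := lam) hN hα hν.le hκ0 hlam hv hdiv hg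
        (h.sp_p hI) (f := fun x => f₁ x + f₂ x) (hf₁m.add hf₂m)
        (fun i x => by simp only [hf₁p i x, hf₂p i x]) (hf₁i.add hf₂i)
        (fun x => add_nonneg (hf₁0 x) (hf₂0 x)) hZ0
        (fun x τ hτ hxZ hyZ hlev habv hNx gx gy => by
          have hs : ∀ z z', sq3 (u t) z < sq3 (u t) z' → speed (u t) z < speed (u t) z' :=
            fun z z' hzz => Real.sqrt_lt_sqrt (sq3_nonneg _ _) hzz
          have h1 := hcmp (fun r => g r x) τ
            { streamline := fun r => hg.deriv x r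
              pos := hτ
              fast := by rw [hg.zero]; exact hlow _ _ hNx
              level := by
                rw [hg.zero]
                unfold speed
                rw [hlev]
              above := fun r hr => by
                rw [hg.zero]
                exact hs _ _ (habv r hr)
              entry := by rw [hg.zero]; exact gx
              exit := gy } (by rw [hg.zero]; exact hxZ) hyZ
          simp only [hg.zero, hsqs] at h1
          exact h1)
      simp_rw [hF1]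
      have hsplit : ∫ x in cube, (f₁ x + f₂ x) * ze N (sq3 (u t) x) ^ (α + 1)
          = (∫ x in cube, f₁ x * ze N (sq3 (u t) x) ^ (α + 1))
            + ∫ x in cube, f₂ x * ze N (sq3 (u t) x) ^ (α + 1) := by
        have hzc : Continuous fun x => ze N (sq3 (u t) x) ^ (α + 1) :=
          (sp_comp hws (rpow_ze_contDiff hN _)).cont
        rw [← integral_add (int_mul_cont hf₁i hzc) (int_mul_cont hf₂i hzc)]
        congr 1
        funext x
        ring
      rw [hsplit] at hpr
      set I1 := ∫ x in cube, psi N α (sq3 (u t) x) * grad2 (u t) x with hI1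
      set I2 := ∫ x in cube, deriv (psi N α) (sq3 (u t) x) * rad2 (u t) x with hI2
      set I3 := ∫ x in cube, f₁ x * ze N (sq3 (u t) x) ^ (α + 1) with hI3
      set I5 := ∫ x in cube, f₂ x * ze N (sq3 (u t) x) ^ (α + 1) with hI5
      set I4 := ∫ x in cube, ze N (sq3 (u t) x) ^ (α + 1) with hI4
      have k1 : IntegrableOn (fun x => psi N α (sq3 (u t) x) * grad2 (u t) x) cube :=
        ((sp_comp hws (psi_contDiff hN)).mul (sp_grad2 hv)).int
      have k2 : IntegrableOn (fun x => 2 * (deriv (psi N α) (sq3 (u t) x) * rad2 (u t) x)) cube :=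
        ((sp_comp hws (dpsi_contDiff hN)).mul (sp_rad2 hv)).int.const_mul 2
      have e1 : ∫ x in cube, (psi N α (sq3 (u t) x) * grad2 (u t) x
          + 2 * deriv (psi N α) (sq3 (u t) x) * rad2 (u t) x) = I1 + 2 * I2 := by
        have : ∀ x, psi N α (sq3 (u t) x) * grad2 (u t) x
            + 2 * deriv (psi N α) (sq3 (u t) x) * rad2 (u t) x
            = psi N α (sq3 (u t) x) * grad2 (u t) x
            + 2 * (deriv (psi N α) (sq3 (u t) x) * rad2 (u t) x) := fun x => by ring
        simp_rw [this]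
        rw [integral_add k1 k2, integral_const_mul]
      rw [e1]
      have hI40 : 0 ≤ I4 := integral_nonneg fun x => Real.rpow_nonneg (ze_pos hN _).le _
      have hZt := hZ t hI
      have hβq := Real.rpow_nonneg hβ0 q
      have hγ0 := hf₂b.nonneg hf₂0
      have hβ1 : β t ≤ 1 + β t ^ q := by
        rcases le_total (β t) 1 with hb | hb
        · linarith
        · have := Real.rpow_le_rpow_of_exponent_le hb hq1
          rw [Real.rpow_one] at this
          linarith
      rw [← hq] at hpot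
      -- assemble
      have s1 : (8 * α + 4) * I3 ≤ 2 * s0 * ν * I1
          + (8 * α + 4) * D * ((1 + 2 * β t ^ q) * I4) := by
        have := mul_le_mul_of_nonneg_left hpot (by positivity : (0 : ℝ) ≤ 8 * α + 4)
        have e2 : (8 * α + 4) * (s0 * ν / (4 * α + 2) * I1) = 2 * s0 * ν * I1 := by
          have : 4 * α + 2 ≠ 0 := by positivity
          field_simp
          ring
        have e3 : (8 * α + 4) * D * ((β t + β t ^ q) * I4)
            ≤ (8 * α + 4) * D * ((1 + 2 * β t ^ q) * I4) := by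
          have : (β t + β t ^ q) * I4 ≤ (1 + 2 * β t ^ q) * I4 :=
            mul_le_mul_of_nonneg_right (by linarith) hI40
          exact mul_le_mul_of_nonneg_left this (by positivity)
        have e4 : (8 * α + 4) * (s0 * ν / (4 * α + 2) * I1
            + D * ((β t + β t ^ q) * I4))
            = (8 * α + 4) * (s0 * ν / (4 * α + 2) * I1)
              + (8 * α + 4) * D * ((β t + β t ^ q) * I4) := by ring
        rw [e4, e2] at this
        exact this.trans (by linarith)
      have s2 : (8 * α + 4) * I5 ≤ 2 * ((4 * α + 2) * (α + 1) ^ 2 * δ) * ν * I1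
          + (8 * α + 4) * γ t * I4 := by
        have := mul_le_mul_of_nonneg_left hform (by positivity : (0 : ℝ) ≤ 8 * α + 4)
        refine this.trans (le_of_eq ?_)
        ring
      have s3 : G t * (1 + y t) = ((8 * α + 4) * D * (1 + 2 * β t ^ q) + (8 * α + 4) * γ t)
          * (A * (1 + y t)) := by
        simp only [hG]; ring
      have s4 : ((8 * α + 4) * D * (1 + 2 * β t ^ q) + (8 * α + 4) * γ t) * I4
          ≤ ((8 * α + 4) * D * (1 + 2 * β t ^ q) + (8 * α + 4) * γ t) * (A * (1 + y t)) :=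
        mul_le_mul_of_nonneg_left hZt (by positivity)
      rw [s3]
      refine le_trans ?_ s4
      have s5 : 2 * s0 * ν * I1 = 2 * ν * I1 - 2 * (2 * α * κ + lam) * ν * I1
          - 2 * ((4 * α + 2) * (α + 1) ^ 2 * δ) * ν * I1 := by
        rw [hs0]; ring
      rw [s5] at s1
      nlinarith [hpr, s1, s2])
  -- conclusion
  set Y : ℝ := A * ((1 + y 0) * Real.exp (∫ s in Ioo 0 T, G s)) with hYdef
  have hY0 : 0 ≤ Y := by
    have := hy0 0
    positivity
  refine bounded_of_Lm (m := 2 * α + 2) (B := Y) hν (by linarith) h hY0 fun t ht i => ?_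
  have hI : t ∈ Ico 0 T := ⟨ht.1.le, ht.2⟩
  have hv : ∀ i, SP (fun z => u t z i) := fun i => h.sp hI i
  have hws := sp_sq3 hv
  have h5 : ∫ x in cube, |u t x i| ^ (2 * α + 2) ≤ ∫ x in cube, ze N (sq3 (u t) x) ^ (α + 1) := by
    refine integral_mono (integrableOn_cube ((hv i).cont.abs.rpow_const
      fun x => Or.inr (by positivity))) (sp_comp hws (rpow_ze_contDiff hN _)).int fun x => ?_
    show |u t x i| ^ (2 * α + 2) ≤ ze N (sq3 (u t) x) ^ (α + 1)
    have h6 : |u t x i| ^ (2 * α + 2) = (u t x i ^ 2) ^ (α + 1) := by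
      rw [← sq_abs, ← Real.rpow_natCast, ← Real.rpow_mul (abs_nonneg _)]
      congr 1
      push_cast
      ring
    rw [h6]
    refine Real.rpow_le_rpow (sq_nonneg _) ?_ (by positivity)
    refine le_trans ?_ (ze_ge_self hN _)
    exact Finset.single_le_sum (f := fun i => u t x i ^ 2) (fun _ _ => sq_nonneg _)
      (Finset.mem_univ i)
  refine h5.trans ((hZ t hI).trans ?_)
  exact mul_le_mul_of_nonneg_left (hgr t hI) hA0

end Pool.Agent.TH811.SPD
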