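import Pool.Agent.TH811.SPD.Str9
import Pool.Agent.TH811.SPD.Str8

/-!
The criterion along streamlines, with the full dissipation.
-/

open MeasureTheory Set Filter Topology
open scoped ENNReal
open H459R3.NS Pool.Agent.W268.NS Pool.Agent.GR.Flow

namespace Pool.Agent.TH811.SPD

theorem FormBound.mono {a b b' : ℝ} {f : V → ℝ} (hf : FormBound a b f) (h : b ≤ b') :
    FormBound a b' f := by
  intro z hz
  have h1 := hf z hz
  have h2 : 0 ≤ ∫ x in cube, z x ^ 2 := integral_nonneg fun x => sq_nonneg _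
  nlinarith

theorem criterion_form {ν κ₁ κ₂ lam δ η M : ℝ} (hν : 0 < ν) (hκ₁ : 0 ≤ κ₁) (hκ₂ : 0 ≤ κ₂)
    (hκ₂1 : κ₂ ≤ 1) (hlam : 0 ≤ lam) (hη : 0 < η)
    (hlam1 : (1 + η) * κ₁ + lam ≤ 1) (hsum : κ₁ + κ₂ + lam + 9 * δ < 2) {T : ℝ}
    {u : ℝ → V → V} {P : ℝ → V → ℝ} (h : IsSol ν T u P) {γ : ℝ → ℝ}
    (hγ : IntegrableOn γ (Ioo 0 T))
    (hcomp : ∀ᵐ t ∂(volume.restrict (Ioo 0 T)), ∃ (f : V → ℝ) (Z : Set V),
      Measurable f ∧ Per f ∧ (∀ x, 0 ≤ f x) ∧ IntegrableOn f cube ∧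
      FormBound (δ * ν) (γ t) f ∧ volume Z = 0 ∧
      ∀ (X : ℝ → V) (τ : ℝ), Excursion (u t) M X τ → X 0 ∉ Z → X τ ∉ Z →
        P t (X 0) ≤ P t (X τ)
          + endTerm ν κ₁ κ₂ f (u t) (X 0) / growth (u t) (X 0)
          - endTerm ν κ₁ κ₂ f (u t) (X τ) / growth (u t) (X τ)
          + ∫ r in Ioo 0 τ, (f (X r) * (1 + speed (u t) (X r) ^ 2)
            + lam * ν * grad2 (u t) (X r))) :
    ∃ C, ∀ t ∈ Ico 0 T, ∀ x i, |u t x i| ≤ C := by
  -- the exponent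
  obtain ⟨α, hα1, hα3, hα2⟩ : ∃ α : ℝ, 1 / 2 < α ∧ 2 * α ≤ 1 + η ∧
      (8 * α + 4) * (α + 1) ^ 2 * δ < 2 * (1 - 2 * α * κ₁ - lam) + 4 * α * (1 - κ₂) := by
    have hc : Continuous fun α : ℝ => (8 * α + 4) * (α + 1) ^ 2 * δ
        - (2 * (1 - 2 * α * κ₁ - lam) + 4 * α * (1 - κ₂)) := by
      fun_prop
    have h0 : (8 * (1 / 2) + 4) * (1 / 2 + 1) ^ 2 * δ
        - (2 * (1 - 2 * (1 / 2) * κ₁ - lam) + 4 * (1 / 2) * (1 - κ₂)) < 0 := by
      have e : (8 * (1 / 2) + 4) * (1 / 2 + 1) ^ 2 * δ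
          - (2 * (1 - 2 * (1 / 2) * κ₁ - lam) + 4 * (1 / 2) * (1 - κ₂))
          = 2 * (κ₁ + κ₂ + lam + 9 * δ - 2) := by ring
      rw [e]; linarith
    have h1 : ∀ᶠ α in 𝓝[>] (1 / 2 : ℝ), (8 * α + 4) * (α + 1) ^ 2 * δ
        - (2 * (1 - 2 * α * κ₁ - lam) + 4 * α * (1 - κ₂)) < 0 :=
      (hc.continuousAt.eventually (Iio_mem_nhds h0)).filter_mono nhdsWithin_le_nhds
    have h4 : ∀ᶠ α in 𝓝[>] (1 / 2 : ℝ), α < 1 / 2 + η / 2 :=
      nhdsWithin_le_nhds (Iio_mem_nhds (by linarith : (1 / 2 : ℝ) < 1 / 2 + η / 2))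
    obtain ⟨α, ⟨h2, h5⟩, h3⟩ := ((h1.and h4).and self_mem_nhdsWithin).exists
    exact ⟨α, h3, by linarith, by linarith⟩
  have hα : 0 < α := by linarith
  set s1 : ℝ := 1 - 2 * α * κ₁ - lam with hs1
  have hs1p : 0 ≤ s1 := by
    have := mul_le_mul_of_nonneg_right hα3 hκ₁
    rw [hs1]; linarith
  set N : ℝ := max M 0 ^ 2 with hNdef
  have hN : 0 ≤ N := sq_nonneg _
  have hM0 : 0 ≤ max M 0 := le_max_right _ _
  have hlow : ∀ (v : V → V) x, N < sq3 v x → M < speed v x := by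
    intro v x hx
    refine (le_max_left M 0).trans_lt ?_
    exact (Real.lt_sqrt hM0).2 hx
  set A : ℝ := (N + 1) ^ (α + 1) + (α + 1) with hA
  have hA0 : 0 ≤ A := by positivity
  set F : ℝ → ℝ := Phi N α with hF
  have hFc := Phi_contDiff (α := α) hN
  have hF1 : deriv F = psi N α := funext fun s => Phi_deriv hN s
  set y : ℝ → ℝ := fun s => ∫ x in cube, F (sq3 (u s) x) with hy
  have hy0 : ∀ s, 0 ≤ y s := fun s => integral_nonneg fun x => Phi_nonneg hN (sq3_nonneg _ _)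
  set G : ℝ → ℝ := fun s => (8 * α + 4) * γ s * A with hG
  have hG0 : ∀ᵐ s ∂(volume.restrict (Ioo 0 T)), 0 ≤ G s := by
    filter_upwards [hcomp] with s hs
    obtain ⟨f, Z, -, -, hf0, -, hfb, -⟩ := hs
    have h2 := hfb.nonneg hf0
    simp only [hG]
    positivity
  have hGi : IntegrableOn G (Ioo 0 T) := (hγ.const_mul _).mul_const A
  have hZ : ∀ s ∈ Ico 0 T, ∫ x in cube, ze N (sq3 (u s) x) ^ (α + 1) ≤ A * (1 + y s) := by
    intro s hs
    have hv : ∀ i, SP (fun z => u s z i) := fun i => h.sp hs i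
    have hws := sp_sq3 hv
    have hΦ : IntegrableOn (fun x => F (sq3 (u s) x)) cube := (sp_comp hws hFc).int
    have h1 : ∫ x in cube, ze N (sq3 (u s) x) ^ (α + 1)
        ≤ ∫ x in cube, ((N + 1) ^ (α + 1) + (α + 1) * F (sq3 (u s) x)) := by
      refine integral_mono (sp_comp hws (rpow_ze_contDiff hN _)).int
        ((sp_const _).int.add (hΦ.const_mul _)) fun x => ?_
      exact ze_rpow_le_Phi hN hα.le (sq3_nonneg _ _)
    rw [integral_add (sp_const _).int (hΦ.const_mul _), integral_const_mul, int_const_cube] at h1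
    refine h1.trans ?_
    have h2 := hy0 s
    have h3 : 0 ≤ (N + 1) ^ (α + 1) := by positivity
    show (N + 1) ^ (α + 1) + (α + 1) * y s ≤ A * (1 + y s)
    simp only [hA]
    nlinarith
  obtain ⟨Y', hY'c, hY'd⟩ := F_deriv_cont h hFc
  have hgr := gron_log (T := T) (y := y) (Y' := Y') (y' := fun t =>
      (-(2 * ν * ∫ x in cube, (deriv F (sq3 (u t) x) * grad2 (u t) x
          + 2 * deriv (deriv F) (sq3 (u t) x) * rad2 (u t) x))
        + 2 * ∫ x in cube, deriv (deriv F) (sq3 (u t) x)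
          * (P t x * adv (u t) (sq3 (u t)) x))) (g := G) hy0 (F_continuousOn h hFc)
    (fun s hs => F_hasDerivAt h hFc hs) hY'c hY'd hG0 hGi (by
      filter_upwards [hcomp, ae_restrict_mem measurableSet_Ioo] with t htc ht
      have hI : t ∈ Ico 0 T := ⟨ht.1.le, ht.2⟩
      obtain ⟨f, Z, hfm, hfp, hf0, hfi, hfb, hZ0, hcmp⟩ := htc
      have hv : ∀ i, SP (fun z => u t z i) := fun i => h.sp hI i
      have hdiv : ∀ x, ∑ i, pd i (fun y => u t y i) x = 0 := h.divfree t hI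
      obtain ⟨g, hg⟩ := exists_flow hv
      obtain ⟨Q, hQ0, hQ1, hQ2, hQ3⟩ := form_end (N := N) hN hα hfb hv
      have hws := sp_sq3 hv
      have hsqs : ∀ x, speed (u t) x ^ 2 = sq3 (u t) x := fun x => Real.sq_sqrt (sq3_nonneg _ _)
      have hpr := press_end (N := N) (α := α) (κ₁ := κ₁) (κ₂ := κ₂) (lam := lam) hN hα hν.le hκ₁
        hκ₂ hlam hv hdiv hg (h.sp_p hI) hfm hfp hfi hf0 hZ0
        (fun x τ hτ hxZ hyZ hlev habv hNx gx gy => by
          have hs : ∀ z z', sq3 (u t) z < sq3 (u t) z' → speed (u t) z < speed (u t) z' :=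
            fun z z' hzz => Real.sqrt_lt_sqrt (sq3_nonneg _ _) hzz
          have h1 := hcmp (fun r => g r x) τ
            { streamline := fun r => hg.deriv x r
              pos := hτ
              fast := by rw [hg.zero]; exact hlow _ _ hNx
              level := by
                rw [hg.zero]
                unfold speed
                rw [hlev]
              above := fun r hr => by
                rw [hg.zero]
                exact hs _ _ (habv r hr)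
              entry := by rw [hg.zero]; exact gx
              exit := gy } (by rw [hg.zero]; exact hxZ) hyZ
          simp only [hg.zero, hsqs] at h1
          exact h1)
      simp_rw [hF1]
      set I1 := ∫ x in cube, psi N α (sq3 (u t) x) * grad2 (u t) x with hI1
      set I2 := ∫ x in cube, deriv (psi N α) (sq3 (u t) x) * rad2 (u t) x with hI2
      set I3 := ∫ x in cube, f x * ze N (sq3 (u t) x) ^ (α + 1) with hI3
      set I4 := ∫ x in cube, ze N (sq3 (u t) x) ^ (α + 1) with hI4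
      have k1 : IntegrableOn (fun x => psi N α (sq3 (u t) x) * grad2 (u t) x) cube :=
        ((sp_comp hws (psi_contDiff hN)).mul (sp_grad2 hv)).int
      have k2 : IntegrableOn (fun x => 2 * (deriv (psi N α) (sq3 (u t) x) * rad2 (u t) x)) cube :=
        ((sp_comp hws (dpsi_contDiff hN)).mul (sp_rad2 hv)).int.const_mul 2
      have e1 : ∫ x in cube, (psi N α (sq3 (u t) x) * grad2 (u t) x
          + 2 * deriv (psi N α) (sq3 (u t) x) * rad2 (u t) x) = I1 + 2 * I2 := by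
        have : ∀ x, psi N α (sq3 (u t) x) * grad2 (u t) x
            + 2 * deriv (psi N α) (sq3 (u t) x) * rad2 (u t) x
            = psi N α (sq3 (u t) x) * grad2 (u t) x
            + 2 * (deriv (psi N α) (sq3 (u t) x) * rad2 (u t) x) := fun x => by ring
        simp_rw [this]
        rw [integral_add k1 k2, integral_const_mul]
      rw [e1]
      have hI40 : 0 ≤ I4 := integral_nonneg fun x => Real.rpow_nonneg (ze_pos hN _).le _
      have hZt := hZ t hI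
      have hγ0 := hfb.nonneg hf0
      -- assemble
      have t1 : s1 * Q ≤ s1 * ((α + 1) ^ 2 * I1) := mul_le_mul_of_nonneg_left hQ2 hs1p
      have t2 : (1 - κ₂) * (α * Q) ≤ (1 - κ₂) * ((α + 1) ^ 2 * I2) :=
        mul_le_mul_of_nonneg_left hQ3 (by linarith)
      have t3 : (8 * α + 4) * (α + 1) ^ 2 * δ * Q ≤ (2 * s1 + 4 * α * (1 - κ₂)) * Q :=
        mul_le_mul_of_nonneg_right hα2.le hQ0
      have t4 : (α + 1) ^ 2 * ((8 * α + 4) * δ * Q)
          ≤ (α + 1) ^ 2 * (2 * s1 * I1 + 4 * (1 - κ₂) * I2) := by nlinarith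
      have t5 : (8 * α + 4) * δ * Q ≤ 2 * s1 * I1 + 4 * (1 - κ₂) * I2 :=
        le_of_mul_le_mul_left t4 (by positivity)
      have t6 : ν * ((8 * α + 4) * δ * Q) ≤ ν * (2 * s1 * I1 + 4 * (1 - κ₂) * I2) :=
        mul_le_mul_of_nonneg_left t5 hν.le
      have t7 : (8 * α + 4) * I3 ≤ ν * ((8 * α + 4) * δ * Q) + (8 * α + 4) * γ t * I4 := by
        have := mul_le_mul_of_nonneg_left hQ1 (by positivity : (0 : ℝ) ≤ 8 * α + 4)
        refine this.trans (le_of_eq ?_)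
        ring
      have s3 : G t * (1 + y t) = (8 * α + 4) * γ t * (A * (1 + y t)) := by
        simp only [hG]; ring
      have s4 : (8 * α + 4) * γ t * I4 ≤ (8 * α + 4) * γ t * (A * (1 + y t)) :=
        mul_le_mul_of_nonneg_left hZt (by positivity)
      rw [s3]
      refine le_trans ?_ s4
      have s5 : ν * (2 * s1 * I1 + 4 * (1 - κ₂) * I2) = 2 * ν * I1 - 2 * (2 * α * κ₁ + lam) * ν * I1
          + 4 * ν * I2 - 4 * κ₂ * ν * I2 := by
        rw [hs1]; ring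
      rw [s5] at t6
      linarith [hpr, t6, t7])
  -- conclusion
  set Y : ℝ := A * ((1 + y 0) * Real.exp (∫ s in Ioo 0 T, G s)) with hYdef
  have hY0 : 0 ≤ Y := by
    have := hy0 0
    positivity
  refine bounded_of_Lm (m := 2 * α + 2) (B := Y) hν (by linarith) h hY0 fun t ht i => ?_
  have hI : t ∈ Ico 0 T := ⟨ht.1.le, ht.2⟩
  have hv : ∀ i, SP (fun z => u t z i) := fun i => h.sp hI i
  have hws := sp_sq3 hv
  have h5 : ∫ x in cube, |u t x i| ^ (2 * α + 2) ≤ ∫ x in cube, ze N (sq3 (u t) x) ^ (α + 1) := by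
    refine integral_mono (integrableOn_cube ((hv i).cont.abs.rpow_const
      fun x => Or.inr (by positivity))) (sp_comp hws (rpow_ze_contDiff hN _)).int fun x => ?_
    show |u t x i| ^ (2 * α + 2) ≤ ze N (sq3 (u t) x) ^ (α + 1)
    have h6 : |u t x i| ^ (2 * α + 2) = (u t x i ^ 2) ^ (α + 1) := by
      rw [← sq_abs, ← Real.rpow_natCast, ← Real.rpow_mul (abs_nonneg _)]
      congr 1
      push_cast
      ring
    rw [h6]
    refine Real.rpow_le_rpow (sq_nonneg _) ?_ (by positivity)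
    refine le_trans ?_ (ze_ge_self hN _)
    exact Finset.single_le_sum (f := fun i => u t x i ^ 2) (fun _ _ => sq_nonneg _)
      (Finset.mem_univ i)
  refine h5.trans ((hZ t hI).trans ?_)
  exact mul_le_mul_of_nonneg_left (hgr t hI) hA0

theorem criterion_end {p : ℝ≥0∞} (hp : 3 / 2 < p) {q : ℝ} (hpq : 3 * (p⁻¹).toReal + 2 / q = 2)
    {ν κ₁ κ₂ lam δ η M : ℝ} (hν : 0 < ν) (hκ₁ : 0 ≤ κ₁) (hκ₂ : 0 ≤ κ₂)
    (hκ₂1 : κ₂ ≤ 1) (hlam : 0 ≤ lam) (hη : 0 < η)
    (hlam1 : (1 + η) * κ₁ + lam ≤ 1) (hsum : κ₁ + κ₂ + lam + 9 * δ < 2) {T : ℝ}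
    {u : ℝ → V → V} {P : ℝ → V → ℝ} (h : IsSol ν T u P) {β γ : ℝ → ℝ}
    (hβ : IntegrableOn (fun t => β t ^ q) (Ioo 0 T)) (hγ : IntegrableOn γ (Ioo 0 T))
    (hcomp : ∀ᵐ t ∂(volume.restrict (Ioo 0 T)), 0 ≤ β t ∧ ∃ (f₁ f₂ : V → ℝ) (Z : Set V),
      Measurable f₁ ∧ Per f₁ ∧ (∀ x, 0 ≤ f₁ x) ∧
      eLpNorm f₁ p (volume.restrict cube) ≤ ENNReal.ofReal (β t) ∧
      Measurable f₂ ∧ Per f₂ ∧ (∀ x, 0 ≤ f₂ x) ∧ IntegrableOn f₂ cube ∧
      FormBound (δ * ν) (γ t) f₂ ∧ volume Z = 0 ∧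
      ∀ (X : ℝ → V) (τ : ℝ), Excursion (u t) M X τ → X 0 ∉ Z → X τ ∉ Z →
        P t (X 0) ≤ P t (X τ)
          + endTerm ν κ₁ κ₂ (fun x => f₁ x + f₂ x) (u t) (X 0) / growth (u t) (X 0)
          - endTerm ν κ₁ κ₂ (fun x => f₁ x + f₂ x) (u t) (X τ) / growth (u t) (X τ)
          + ∫ r in Ioo 0 τ, ((f₁ (X r) + f₂ (X r)) * (1 + speed (u t) (X r) ^ 2)
            + lam * ν * grad2 (u t) (X r))) :
    ∃ C, ∀ t ∈ Ico 0 T, ∀ x i, |u t x i| ≤ C := by
  have hθ0 : 0 ≤ th p := th_nonneg p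
  have hθ2 : th p < 2 := th_lt_two hp
  have hq : q = 2 / (2 - th p) := by
    have h1 : 2 / q = 2 - th p := by
      have : th p = 3 * (p⁻¹).toReal := rfl
      rw [this]
      linarith
    rw [← h1]
    have : q ≠ 0 := by
      intro h0
      rw [h0, div_zero] at h1
      linarith
    field_simp
  have hq1 : 1 ≤ q := by
    rw [hq, le_div_iff₀ (by linarith)]
    linarith
  set ε : ℝ := (2 - (κ₁ + κ₂ + lam + 9 * δ)) / 18 with hε
  have hε0 : 0 < ε := by rw [hε]; linarith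
  obtain ⟨D, hD0, hD⟩ := lp_form hp (mul_pos hε0 hν)
  have hfin : volume (Ioo 0 T) ≠ ⊤ := by rw [Real.volume_Ioo]; exact ENNReal.ofReal_ne_top
  refine criterion_form (δ := ε + δ) (M := M) hν hκ₁ hκ₂ hκ₂1 hlam hη hlam1
    (by rw [hε]; linarith) h (γ := fun t => D * (1 + 2 * β t ^ q) + γ t)
    ((((integrableOn_const hfin).add (hβ.const_mul 2)).const_mul D).add hγ) ?_
  filter_upwards [hcomp] with t ht
  obtain ⟨hβ0, f₁, f₂, Z, hf₁m, hf₁p, hf₁0, hf₁β, hf₂m, hf₂p, hf₂0, hf₂i, hf₂b, hZ0, hcmp⟩ := ht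
  obtain ⟨hf₁i, hf₁b⟩ := hD f₁ (β t) hf₁m.aestronglyMeasurable hβ0 hf₁β hf₁0
  refine ⟨fun x => f₁ x + f₂ x, Z, hf₁m.add hf₂m, fun i x => by simp only [hf₁p i x, hf₂p i x],
    fun x => add_nonneg (hf₁0 x) (hf₂0 x), hf₁i.add hf₂i, ?_, hZ0, hcmp⟩
  have h1 := hf₁b.add hf₂b hf₁i hf₂i
  rw [← hq, ← add_mul] at h1
  refine h1.mono ?_
  have hβ1 : β t ≤ 1 + β t ^ q := by
    rcases le_total (β t) 1 with hb | hb
    · have := Real.rpow_nonneg hβ0 q
      linarith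
    · have := Real.rpow_le_rpow_of_exponent_le hb hq1
      rw [Real.rpow_one] at this
      linarith
  have := mul_le_mul_of_nonneg_left (by linarith : β t + β t ^ q ≤ 1 + 2 * β t ^ q) hD0
  linarith

end Pool.Agent.TH811.SPD
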