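import Pool.Agent.TH811.SPD.Str1

/-!
The flow preserves the integrals of periodic functions over the period cell.
-/

open MeasureTheory Set Filter Topology
open scoped ContDiff ENNReal NNReal
open H459R3.NS Pool.Agent.W268.NS Pool.Agent.GR.Flow

namespace Pool.Agent.TH811.SPD

/-- a measurable section of the covering map -/
noncomputable def sec (t : UnitAddTorus (Fin 3)) : V := fun i =>
  (AddCircle.equivIoc (1 : ℝ) 0 (t i) : ℝ)

theorem sec_meas : Measurable sec := by
  refine measurable_pi_lambda _ fun i => ?_
  exact measurable_subtype_coe.comp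
    ((AddCircle.measurableEquivIoc (1 : ℝ) 0).measurable.comp (measurable_pi_apply i))

theorem cov_sec (t : UnitAddTorus (Fin 3)) : cov (sec t) = t :=
  funext fun _ => AddCircle.coe_equivIoc

theorem sec_cov {E : Type*} {f : V → E} (hf : Per f) (x : V) : f (sec (cov x)) = f x :=
  hf.eq_of_cov (cov_sec (cov x))

theorem cov_cont : Continuous cov := cov_quot.continuous

theorem smooth_re (k : K3) : SP (fun x => (ee k x).re) :=
  ⟨Complex.reCLM.contDiff.comp (ee_contDiff k), fun i x => by
    show (ee k (x + Pi.single i 1)).re = (ee k x).re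
    rw [ee_per k i x]⟩

theorem smooth_im (k : K3) : SP (fun x => (ee k x).im) :=
  ⟨Complex.imCLM.contDiff.comp (ee_contDiff k), fun i x => by
    show (ee k (x + Pi.single i 1)).im = (ee k x).im
    rw [ee_per k i x]⟩

/-- Two probability measures on the torus with the same Fourier coefficients are equal. -/
theorem measure_ext {μ ν : Measure (UnitAddTorus (Fin 3))} [IsProbabilityMeasure μ]
    [IsProbabilityMeasure ν]
    (h : ∀ k : K3, ∫ t, UnitAddTorus.mFourier k t ∂μ = ∫ t, UnitAddTorus.mFourier k t ∂ν) :
    μ = ν := by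
  have hspan : ∀ P ∈ Submodule.span ℂ (Set.range (UnitAddTorus.mFourier (d := Fin 3))),
      ∫ t, P t ∂μ = ∫ t, P t ∂ν := by
    intro P hP
    induction hP using Submodule.span_induction with
    | mem x hx =>
      obtain ⟨k, rfl⟩ := hx
      exact h k
    | zero => simp
    | add x y _ _ hx hy =>
      have i1 : ∀ (ρ : Measure (UnitAddTorus (Fin 3))) [IsProbabilityMeasure ρ]
          (F : C(UnitAddTorus (Fin 3), ℂ)), Integrable (fun t => F t) ρ := fun ρ _ F =>
        F.continuous.integrable_of_hasCompactSupport (HasCompactSupport.of_compactSpace _)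
      simp only [ContinuousMap.add_apply]
      rw [integral_add (i1 μ x) (i1 μ y), integral_add (i1 ν x) (i1 ν y), hx, hy]
    | smul c x _ hx =>
      simp only [ContinuousMap.smul_apply]
      rw [integral_smul, integral_smul, hx]
  have hall : ∀ F : C(UnitAddTorus (Fin 3), ℂ), ∫ t, F t ∂μ = ∫ t, F t ∂ν := by
    intro F
    have i1 : ∀ (ρ : Measure (UnitAddTorus (Fin 3))) [IsProbabilityMeasure ρ]
        (F : C(UnitAddTorus (Fin 3), ℂ)), Integrable (fun t => F t) ρ := fun ρ _ F =>
      F.continuous.integrable_of_hasCompactSupport (HasCompactSupport.of_compactSpace _)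
    have hmem : F ∈ (Submodule.span ℂ (Set.range
        (UnitAddTorus.mFourier (d := Fin 3)))).topologicalClosure := by
      rw [UnitAddTorus.span_mFourier_closure_eq_top]; trivial
    rw [← SetLike.mem_coe, Submodule.topologicalClosure_coe, Metric.mem_closure_iff] at hmem
    rw [← sub_eq_zero, ← norm_eq_zero]
    refine le_antisymm (le_of_forall_pos_le_add fun ε hε => ?_) (norm_nonneg _)
    obtain ⟨P, hP, hd⟩ := hmem (ε / 2) (by positivity)
    have hb : ∀ t, ‖F t - P t‖ ≤ ε / 2 := by
      intro t
      have h1 := ContinuousMap.dist_apply_le_dist (f := F) (g := P) t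
      rw [dist_eq_norm] at h1
      exact h1.trans hd.le
    have hb1 : ∀ (ρ : Measure (UnitAddTorus (Fin 3))) [IsProbabilityMeasure ρ],
        ‖(∫ t, F t ∂ρ) - ∫ t, P t ∂ρ‖ ≤ ε / 2 := by
      intro ρ _
      rw [← integral_sub (i1 ρ F) (i1 ρ P)]
      have := norm_integral_le_of_norm_le_const (μ := ρ) (ae_of_all _ hb)
      simpa using this
    have h1 := hb1 μ
    have h2 := hb1 ν
    rw [hspan P hP] at h1
    have h3 : (∫ t, F t ∂μ) - ∫ t, F t ∂ν = ((∫ t, F t ∂μ) - ∫ t, P t ∂ν)
        - ((∫ t, F t ∂ν) - ∫ t, P t ∂ν) := by ring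
    rw [h3]
    refine (norm_sub_le _ _).trans ?_
    linarith
  refine ext_of_forall_integral_eq_of_IsFiniteMeasure fun f => ?_
  have h1 := hall ⟨fun t => (f t : ℂ), Complex.continuous_ofReal.comp f.continuous⟩
  simp only [ContinuousMap.coe_mk] at h1
  rw [integral_complex_ofReal, integral_complex_ofReal] at h1
  exact_mod_cast h1

section

variable {v : V → V} (hv : ∀ i, SP (fun y => v y i))
  (hdiv : ∀ x, ∑ i, pd i (fun y => v y i) x = 0) {g : ℝ → V → V} (hg : IsFlowOf v g)

include hv hg in
theorem flow_cont (t : ℝ) : Continuous (g t) :=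
  (flow_smooth hv hg).continuous.comp (continuous_const.prodMk continuous_id)

include hv hg hdiv in
theorem map_flow (t : ℝ) : (volume.restrict cube).map (fun x => cov (g t x))
    = (volume.restrict cube).map cov := by
  have hp : IsProbabilityMeasure (volume.restrict cube) :=
    ⟨by rw [Measure.restrict_apply_univ, volume_cube]⟩
  have hc1 : Continuous (fun x => cov (g t x)) := cov_cont.comp (flow_cont hv hg t)
  have p1 : IsProbabilityMeasure ((volume.restrict cube).map (fun x => cov (g t x))) :=
    Measure.isProbabilityMeasure_map hc1.measurable.aemeasurable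
  have p2 : IsProbabilityMeasure ((volume.restrict cube).map cov) :=
    Measure.isProbabilityMeasure_map cov_cont.measurable.aemeasurable
  refine measure_ext fun k => ?_
  have hm := (UnitAddTorus.mFourier (d := Fin 3) k).continuous
  rw [integral_map hc1.measurable.aemeasurable hm.aestronglyMeasurable,
    integral_map cov_cont.measurable.aemeasurable hm.aestronglyMeasurable]
  simp_rw [mFourier_cov]
  have i1 : IntegrableOn (fun x => ee k (g t x)) cube :=
    integrableOn_cube ((ee_continuous k).comp (flow_cont hv hg t))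
  have i2 : IntegrableOn (fun x => ee k x) cube := integrableOn_cube (ee_continuous k)
  rw [← integral_re_add_im i1, ← integral_re_add_im i2]
  have e1 := int_flow hv hg hdiv (smooth_re k) t
  have e2 := int_flow hv hg hdiv (smooth_im k) t
  simp only [RCLike.re_to_complex, RCLike.im_to_complex]
  rw [e1, e2]

include hv hg hdiv in
/-- invariance for nonnegative measurable functions -/
theorem lintegral_flow {k : V → ℝ≥0∞} (hk : Measurable k) (hp : Per k) (t : ℝ) :
    ∫⁻ x in cube, k (g t x) = ∫⁻ x in cube, k x := by
  have hc1 : Continuous (fun x => cov (g t x)) := cov_cont.comp (flow_cont hv hg t)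
  have hks : Measurable fun y => k (sec y) := hk.comp sec_meas
  have e1 : ∫⁻ x in cube, k (g t x) = ∫⁻ y, k (sec y) ∂((volume.restrict cube).map
      (fun x => cov (g t x))) := by
    rw [lintegral_map hks hc1.measurable]
    refine lintegral_congr fun x => ?_
    rw [sec_cov hp]
  have e2 : ∫⁻ x in cube, k x = ∫⁻ y, k (sec y) ∂((volume.restrict cube).map cov) := by
    rw [lintegral_map hks cov_cont.measurable]
    refine lintegral_congr fun x => ?_
    rw [sec_cov hp]
  rw [e1, e2, map_flow hv hdiv hg t]

include hv hg hdiv in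
/-- invariance for measurable functions -/
theorem integral_flow {k : V → ℝ} (hk : Measurable k) (hp : Per k) (t : ℝ) :
    ∫ x in cube, k (g t x) = ∫ x in cube, k x := by
  have hc1 : Continuous (fun x => cov (g t x)) := cov_cont.comp (flow_cont hv hg t)
  have hks : Measurable fun y => k (sec y) := hk.comp sec_meas
  have e1 : ∫ x in cube, k (g t x) = ∫ y, k (sec y) ∂((volume.restrict cube).map
      (fun x => cov (g t x))) := by
    rw [integral_map hc1.measurable.aemeasurable hks.aestronglyMeasurable]
    refine integral_congr_ae (ae_of_all _ fun x => ?_)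
    show k (g t x) = k (sec (cov (g t x)))
    rw [sec_cov hp]
  have e2 : ∫ x in cube, k x = ∫ y, k (sec y) ∂((volume.restrict cube).map cov) := by
    rw [integral_map cov_cont.measurable.aemeasurable hks.aestronglyMeasurable]
    refine integral_congr_ae (ae_of_all _ fun x => ?_)
    show k x = k (sec (cov x))
    rw [sec_cov hp]
  rw [e1, e2, map_flow hv hdiv hg t]

include hv hg hdiv in
theorem integrable_flow {k : V → ℝ} (hk : Measurable k) (hp : Per k) (hi : IntegrableOn k cube)
    (t : ℝ) : IntegrableOn (fun x => k (g t x)) cube := by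
  refine ⟨(hk.comp (flow_cont hv hg t).measurable).aestronglyMeasurable, ?_⟩
  have h1 := hi.2
  rw [hasFiniteIntegral_iff_enorm] at h1 ⊢
  rw [lintegral_flow hv hdiv hg (k := fun x => ‖k x‖ₑ) hk.enorm
    (fun i x => by show ‖k (x + Pi.single i 1)‖ₑ = ‖k x‖ₑ; rw [hp i x]) t]
  exact h1

include hv hg in
theorem meas_flow {E : Type*} [MeasurableSpace E] {k : V → E} (hk : Measurable k) :
    Measurable (fun p : ℝ × V => k (g p.1 p.2)) :=
  hk.comp (flow_smooth hv hg).continuous.measurable

include hv hg hdiv in
/-- integrability over finite time intervals -/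
theorem integrable_prod_flow {k : V → ℝ} (hk : Measurable k) (hp : Per k)
    (hi : IntegrableOn k cube) (T : ℝ) :
    Integrable (fun p : ℝ × V => k (g p.1 p.2))
      ((volume.restrict (Ioo 0 T)).prod (volume.restrict cube)) := by
  have := cube_finite
  have hfin : IsFiniteMeasure (volume.restrict (Ioo 0 T)) :=
    ⟨by rw [Measure.restrict_apply_univ, Real.volume_Ioo]; exact ENNReal.ofReal_lt_top⟩
  rw [integrable_prod_iff (meas_flow hv hg hk).aestronglyMeasurable]
  refine ⟨ae_of_all _ fun t => integrable_flow hv hdiv hg hk hp hi t, ?_⟩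
  have e : ∀ t, ∫ x in cube, ‖k (g t x)‖ = ∫ x in cube, ‖k x‖ := fun t =>
    integral_flow hv hdiv hg (k := fun x => ‖k x‖) hk.norm
      (fun i x => by show ‖k (x + Pi.single i 1)‖ = ‖k x‖; rw [hp i x]) t
  simp only [e]
  exact integrable_const _

include hv hg hdiv in
theorem int_prod_flow {k : V → ℝ} (hk : Measurable k) (hp : Per k)
    (hi : IntegrableOn k cube) {T : ℝ} (hT : 0 ≤ T) :
    IntegrableOn (fun x => ∫ t in Ioo 0 T, k (g t x)) cube ∧
    (∀ᵐ x ∂(volume.restrict cube), IntegrableOn (fun t => k (g t x)) (Ioo 0 T)) ∧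
    ∫ x in cube, ∫ t in Ioo 0 T, k (g t x) = T * ∫ x in cube, k x := by
  have := cube_finite
  have h1 := integrable_prod_flow hv hdiv hg hk hp hi T
  have h2 := h1.swap
  refine ⟨h2.integral_prod_left, h2.prod_right_ae, ?_⟩
  rw [integral_integral_swap (f := fun x t => k (g t x)) h2]
  simp_rw [integral_flow hv hdiv hg hk hp]
  rw [setIntegral_const, Real.volume_real_Ioo_of_le hT, sub_zero, smul_eq_mul]

end

end Pool.Agent.TH811.SPD
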