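import Mathlib

/-!
Sums over the crossings of a level by a function of one variable.
-/

open MeasureTheory Set Filter Topology

namespace Pool.Agent.TH811.SPD

section level

variable {W W' : ℝ → ℝ} (hW : ∀ r, HasDerivAt W (W' r) r) {s : ℝ}

include hW

theorem W_cont : Continuous W := continuous_iff_continuousAt.2 fun r => (hW r).continuousAt

theorem near_pos {c : ℝ} (hc : W c = s) (h : 0 < W' c) :
    ∀ᶠ x in 𝓝 c, (c < x → s < W x) ∧ (x < c → W x < s) := by
  have h1 : deriv (fun x => W x - s) c > 0 := by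
    rw [((hW c).sub_const s).deriv]; exact h
  have h2 := eventually_nhdsWithin_sign_eq_of_deriv_pos h1 (by simp [hc])
  filter_upwards [h2] with x hx
  constructor
  · intro hcx
    have h3 : SignType.sign (x - c) = 1 := sign_pos (sub_pos.2 hcx)
    rw [h3, sign_eq_one_iff] at hx
    linarith
  · intro hcx
    have h3 : SignType.sign (x - c) = -1 := sign_neg (sub_neg.2 hcx)
    rw [h3, sign_eq_neg_one_iff] at hx
    linarith

theorem near_neg {c : ℝ} (hc : W c = s) (h : W' c < 0) :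
    ∀ᶠ x in 𝓝 c, (c < x → W x < s) ∧ (x < c → s < W x) := by
  have h1 := near_pos (W := fun x => -W x) (W' := fun x => -W' x) (s := -s)
    (fun r => (hW r).neg) (c := c) (by rw [hc]) (by linarith)
  filter_upwards [h1] with x hx
  exact ⟨fun h => by linarith [hx.1 h], fun h => by linarith [hx.2 h]⟩

theorem below_between {a c : ℝ} (hno : ∀ r ∈ Ioo a c, W r ≠ s)
    (hbel : ∀ᶠ r in 𝓝[>] a, W r < s) : ∀ r ∈ Ioo a c, W r < s := by
  intro r hr
  by_contra hcon
  have h1 : s < W r := lt_of_le_of_ne (not_lt.1 hcon) (hno r hr).symm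
  obtain ⟨r', h2, h3⟩ := (hbel.and (Ioo_mem_nhdsGT hr.1)).exists
  have h4 := intermediate_value_Ioo h3.2.le (W_cont hW).continuousOn
    (show s ∈ Ioo (W r') (W r) from ⟨h2, h1⟩)
  obtain ⟨q, hq, hqs⟩ := h4
  exact hno q ⟨h3.1.trans hq.1, hq.2.trans hr.2⟩ hqs

theorem above_between {a c : ℝ} (hno : ∀ r ∈ Ioo a c, W r ≠ s)
    (hab : ∀ᶠ r in 𝓝[>] a, s < W r) : ∀ r ∈ Ioo a c, s < W r := by
  have h1 := below_between (W := fun x => -W x) (W' := fun x => -W' x) (s := -s)
    (fun r => (hW r).neg) (a := a) (c := c) (fun r hr h => hno r hr (neg_injective h))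
    (by filter_upwards [hab] with r hr; linarith)
  intro r hr
  linarith [h1 r hr]

theorem deriv_pos_of_below {a c : ℝ} (hac : a < c) (hc : W c = s) (hne : W' c ≠ 0)
    (hbel : ∀ r ∈ Ioo a c, W r < s) : 0 < W' c := by
  rcases lt_or_gt_of_ne hne with h | h
  · exfalso
    have h1 : ∀ᶠ x in 𝓝[<] c, (c < x → W x < s) ∧ (x < c → s < W x) :=
      (near_neg hW hc h).filter_mono nhdsWithin_le_nhds
    obtain ⟨x, hx, hx2⟩ := (h1.and (Ioo_mem_nhdsLT hac)).exists
    exact absurd (hx.2 hx2.2) (not_lt.2 (hbel x hx2).le)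
  · exact h

theorem deriv_neg_of_above {a c : ℝ} (hac : a < c) (hc : W c = s) (hne : W' c ≠ 0)
    (hab : ∀ r ∈ Ioo a c, s < W r) : W' c < 0 := by
  have h1 := deriv_pos_of_below (W := fun x => -W x) (W' := fun x => -W' x) (s := -s)
    (fun r => (hW r).neg) hac (by rw [hc]) (neg_ne_zero.2 hne)
    (fun r hr => by linarith [hab r hr])
  linarith

/-- The signed sum over the crossings after a point where `W` is below the level. -/
theorem level_sum {H F : ℝ → ℝ} {n φ T : ℝ} (hH : ∀ r, |H r| ≤ n) (hφ : 0 ≤ φ)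
    (hF0 : ∀ r, 0 ≤ F r) (hFi : IntegrableOn F (Ioo 0 T))
    (hreg : ∀ r ∈ Ioo 0 T, W r = s → W' r ≠ 0)
    (hexc : ∀ a b, 0 < a → a < b → b < T → W a = s → W b = s → (∀ r ∈ Ioo a b, s < W r) →
      0 < W' a → W' b < 0 → H a ≤ H b + φ * ∫ r in Ioo a b, F r) :
    ∀ (m : ℕ) (α : ℝ) (C : Finset ℝ), 0 ≤ α → (∀ r, r ∈ C ↔ r ∈ Ioo α T ∧ W r = s) →
      C.card ≤ m → (∀ᶠ r in 𝓝[>] α, W r < s) →
      ∑ r ∈ C, (if 0 < W' r then H r else -H r)
        ≤ φ * (∫ r in Ioo α T ∩ {r | s < W r}, F r) + n := by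
  have hWc := W_cont hW
  have hn : 0 ≤ n := (abs_nonneg _).trans (hH 0)
  have hI0 : ∀ A : Set ℝ, 0 ≤ ∫ r in A, F r := fun A => integral_nonneg fun r => hF0 r
  have hmS : MeasurableSet {r | s < W r} := (isOpen_lt continuous_const hWc).measurableSet
  intro m
  induction m with
  | zero =>
    intro α C hα hC hm hbel
    have : C = ∅ := Finset.card_eq_zero.1 (Nat.le_zero.1 hm)
    rw [this, Finset.sum_empty]
    have := mul_nonneg hφ (hI0 (Ioo α T ∩ {r | s < W r}))
    linarith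
  | succ m ih =>
    intro α C hα hC hm hbel
    rcases C.eq_empty_or_nonempty with h0 | hne
    · rw [h0, Finset.sum_empty]
      have := mul_nonneg hφ (hI0 (Ioo α T ∩ {r | s < W r}))
      linarith
    set c := C.min' hne with hcdef
    have hcC : c ∈ C := C.min'_mem hne
    obtain ⟨hcI, hcs⟩ := (hC c).1 hcC
    have hno : ∀ r ∈ Ioo α c, W r ≠ s := by
      intro r hr hrs
      have : r ∈ C := (hC r).2 ⟨⟨hr.1, hr.2.trans hcI.2⟩, hrs⟩
      exact absurd (C.min'_le r this) (not_le.2 hr.2)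
    have hb := below_between hW hno hbel
    have hc0 : 0 < c := hα.trans_lt hcI.1
    have hcpos := deriv_pos_of_below hW hcI.1 hcs (hreg c ⟨hc0, hcI.2⟩ hcs) hb
    have hafter : ∀ᶠ r in 𝓝[>] c, s < W r := by
      filter_upwards [(near_pos hW hcs hcpos).filter_mono nhdsWithin_le_nhds,
        self_mem_nhdsWithin] with r hr hr2
      exact hr.1 hr2
    rw [← Finset.add_sum_erase C _ hcC, if_pos hcpos]
    rcases (C.erase c).eq_empty_or_nonempty with h1 | hne1
    · rw [h1, Finset.sum_empty]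
      have := mul_nonneg hφ (hI0 (Ioo α T ∩ {r | s < W r}))
      have := (abs_le.1 (hH c)).2
      linarith
    set d := (C.erase c).min' hne1 with hddef
    have hdC1 : d ∈ C.erase c := (C.erase c).min'_mem hne1
    obtain ⟨hdc, hdC⟩ := Finset.mem_erase.1 hdC1
    obtain ⟨hdI, hds⟩ := (hC d).1 hdC
    have hcd : c < d := lt_of_le_of_ne (C.min'_le d hdC) (Ne.symm hdc)
    have hno2 : ∀ r ∈ Ioo c d, W r ≠ s := by
      intro r hr hrs
      have h2 : r ∈ C := (hC r).2 ⟨⟨hcI.1.trans hr.1, hr.2.trans hdI.2⟩, hrs⟩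
      have h3 : r ∈ C.erase c := Finset.mem_erase.2 ⟨hr.1.ne', h2⟩
      exact absurd ((C.erase c).min'_le r h3) (not_le.2 hr.2)
    have hab := above_between hW hno2 hafter
    have hd0 : 0 < d := hc0.trans hcd
    have hdneg := deriv_neg_of_above hW hcd hds (hreg d ⟨hd0, hdI.2⟩ hds) hab
    have hafter2 : ∀ᶠ r in 𝓝[>] d, W r < s := by
      filter_upwards [(near_neg hW hds hdneg).filter_mono nhdsWithin_le_nhds,
        self_mem_nhdsWithin] with r hr hr2
      exact hr.1 hr2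
    rw [← Finset.add_sum_erase (C.erase c) _ hdC1, if_neg (not_lt.2 hdneg.le)]
    have hC2 : ∀ r, r ∈ (C.erase c).erase d ↔ r ∈ Ioo d T ∧ W r = s := by
      intro r
      constructor
      · intro hr
        obtain ⟨h2, h3⟩ := Finset.mem_erase.1 hr
        obtain ⟨h4, h5⟩ := (hC r).1 (Finset.mem_of_mem_erase h3)
        exact ⟨⟨lt_of_le_of_ne ((C.erase c).min'_le r h3) (Ne.symm h2), h4.2⟩, h5⟩
      · rintro ⟨h2, h3⟩
        refine Finset.mem_erase.2 ⟨h2.1.ne', Finset.mem_erase.2 ⟨(hcd.trans h2.1).ne', ?_⟩⟩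
        exact (hC r).2 ⟨⟨hdI.1.trans h2.1, h2.2⟩, h3⟩
    have hcard : ((C.erase c).erase d).card ≤ m := by
      have h2 := Finset.card_erase_lt_of_mem hcC
      have h3 := Finset.card_erase_lt_of_mem hdC1
      omega
    have hI := ih d _ hd0.le hC2 hcard hafter2
    have hE := hexc c d hc0 hcd hdI.2 hcs hds hab hcpos hdneg
    have hsum : (∫ r in Ioo c d, F r) + ∫ r in Ioo d T ∩ {r | s < W r}, F r
        ≤ ∫ r in Ioo α T ∩ {r | s < W r}, F r := by
      have hαT : Ioo α T ⊆ Ioo 0 T := Ioo_subset_Ioo_left hα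
      have hdisj : Disjoint (Ioo c d) (Ioo d T ∩ {r | s < W r}) := by
        rw [Set.disjoint_left]
        intro r h2 h3
        exact absurd h2.2 (not_lt.2 h3.1.1.le)
      have i1 : IntegrableOn F (Ioo c d) :=
        hFi.mono_set fun r hr => ⟨hc0.trans hr.1, hr.2.trans hdI.2⟩
      have i2 : IntegrableOn F (Ioo d T ∩ {r | s < W r}) :=
        hFi.mono_set fun r hr => ⟨hd0.trans hr.1.1, hr.1.2⟩
      rw [← setIntegral_union hdisj (measurableSet_Ioo.inter hmS) i1 i2]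
      refine setIntegral_mono_set (hFi.mono_set (inter_subset_left.trans hαT))
        (ae_of_all _ fun r => hF0 r) (LE.le.eventuallyLE ?_)
      rintro r (h2 | h2)
      · exact ⟨⟨hcI.1.trans h2.1, h2.2.trans hdI.2⟩, hab r h2⟩
      · exact ⟨⟨hdI.1.trans h2.1.1, h2.1.2⟩, h2.2⟩
    have hmul := mul_le_mul_of_nonneg_left hsum hφ
    rw [mul_add] at hmul
    linarith

/-- The signed sum over all crossings. -/
theorem level_total {H F : ℝ → ℝ} {n φ T : ℝ} (hH : ∀ r, |H r| ≤ n) (hφ : 0 ≤ φ)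
    (hF0 : ∀ r, 0 ≤ F r) (hFi : IntegrableOn F (Ioo 0 T))
    (hreg : ∀ r ∈ Ioo 0 T, W r = s → W' r ≠ 0) (hs0 : W 0 ≠ s)
    (hexc : ∀ a b, 0 < a → a < b → b < T → W a = s → W b = s → (∀ r ∈ Ioo a b, s < W r) →
      0 < W' a → W' b < 0 → H a ≤ H b + φ * ∫ r in Ioo a b, F r)
    {C : Finset ℝ} (hC : ∀ r, r ∈ C ↔ r ∈ Ioo 0 T ∧ W r = s) :
    ∑ r ∈ C, (if 0 < W' r then H r else -H r)
        ≤ φ * (∫ r in Ioo 0 T ∩ {r | s < W r}, F r) + 2 * n := by
  have hWc := W_cont hW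
  have hn : 0 ≤ n := (abs_nonneg _).trans (hH 0)
  have hI0 : ∀ A : Set ℝ, 0 ≤ ∫ r in A, F r := fun A => integral_nonneg fun r => hF0 r
  rcases lt_or_gt_of_ne hs0 with h | h
  · have hbel : ∀ᶠ r in 𝓝[>] (0 : ℝ), W r < s :=
      (hWc.continuousAt.eventually (Iio_mem_nhds h)).filter_mono nhdsWithin_le_nhds
    have := level_sum hW hH hφ hF0 hFi hreg hexc C.card 0 C le_rfl hC le_rfl hbel
    linarith
  · rcases C.eq_empty_or_nonempty with h0 | hne
    · rw [h0, Finset.sum_empty]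
      have := mul_nonneg hφ (hI0 (Ioo 0 T ∩ {r | s < W r}))
      linarith
    set c := C.min' hne with hcdef
    have hcC : c ∈ C := C.min'_mem hne
    obtain ⟨hcI, hcs⟩ := (hC c).1 hcC
    have hno : ∀ r ∈ Ioo 0 c, W r ≠ s := by
      intro r hr hrs
      have : r ∈ C := (hC r).2 ⟨⟨hr.1, hr.2.trans hcI.2⟩, hrs⟩
      exact absurd (C.min'_le r this) (not_le.2 hr.2)
    have habv : ∀ᶠ r in 𝓝[>] (0 : ℝ), s < W r :=
      (hWc.continuousAt.eventually (Ioi_mem_nhds h)).filter_mono nhdsWithin_le_nhds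
    have hb := above_between hW hno habv
    have hcneg := deriv_neg_of_above hW hcI.1 hcs (hreg c hcI hcs) hb
    have hafter : ∀ᶠ r in 𝓝[>] c, W r < s := by
      filter_upwards [(near_neg hW hcs hcneg).filter_mono nhdsWithin_le_nhds,
        self_mem_nhdsWithin] with r hr hr2
      exact hr.1 hr2
    rw [← Finset.add_sum_erase C _ hcC, if_neg (not_lt.2 hcneg.le)]
    have hC2 : ∀ r, r ∈ C.erase c ↔ r ∈ Ioo c T ∧ W r = s := by
      intro r
      constructor
      · intro hr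
        obtain ⟨h2, h3⟩ := Finset.mem_erase.1 hr
        obtain ⟨h4, h5⟩ := (hC r).1 h3
        exact ⟨⟨lt_of_le_of_ne (C.min'_le r h3) (Ne.symm h2), h4.2⟩, h5⟩
      · rintro ⟨h2, h3⟩
        exact Finset.mem_erase.2 ⟨h2.1.ne', (hC r).2 ⟨⟨hcI.1.trans h2.1, h2.2⟩, h3⟩⟩
    have hI := level_sum hW hH hφ hF0 hFi hreg hexc _ c _ hcI.1.le hC2 le_rfl hafter
    have hsum : ∫ r in Ioo c T ∩ {r | s < W r}, F r ≤ ∫ r in Ioo 0 T ∩ {r | s < W r}, F r := by
      refine setIntegral_mono_set (hFi.mono_set inter_subset_left)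
        (ae_of_all _ fun r => hF0 r) (LE.le.eventuallyLE ?_)
      exact inter_subset_inter_left _ (Ioo_subset_Ioo_left hcI.1.le)
    have hmul := mul_le_mul_of_nonneg_left hsum hφ
    have := (abs_le.1 (hH c)).1
    linarith

end level

end Pool.Agent.TH811.SPD
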