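import Pool.Agent.TH811.SPD.Str3

/-!
The area formula with multiplicities for functions of one variable, and regular values.
-/

open MeasureTheory Set Filter Topology
open scoped ENNReal

namespace Pool.Agent.TH811.SPD

section area

variable {W W' : ℝ → ℝ} (hW : ∀ r, HasDerivAt W (W' r) r) (hc : Continuous W')

include hW hc in
theorem local_inj {O : Set ℝ} (hO : IsOpen O) {r : ℝ} (hr : r ∈ O) (hne : W' r ≠ 0) :
    ∃ p q : ℚ, r ∈ Ioo (p : ℝ) q ∧ InjOn W (Ioo p q) ∧ Ioo (p : ℝ) q ⊆ O := by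
  have key : ∀ (S : Set ℝ), IsOpen S → r ∈ S → ∃ p q : ℚ, r ∈ Ioo (p : ℝ) q ∧
      Ioo (p : ℝ) q ⊆ S := by
    intro S hS hrS
    obtain ⟨δ, hδ, hδS⟩ := Metric.isOpen_iff.1 hS r hrS
    obtain ⟨p, hp1, hp2⟩ := exists_rat_btwn (show r - δ < r by linarith)
    obtain ⟨q, hq1, hq2⟩ := exists_rat_btwn (show r < r + δ by linarith)
    refine ⟨p, q, ⟨hp2, hq1⟩, fun x hx => hδS ?_⟩
    rw [Metric.mem_ball, Real.dist_eq, abs_lt]
    constructor <;> linarith [hx.1, hx.2]
  have hWc := W_cont hW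
  rcases lt_or_gt_of_ne hne with h | h
  · obtain ⟨p, q, h1, h2⟩ := key (O ∩ {x | W' x < 0}) (hO.inter (isOpen_lt hc continuous_const))
      ⟨hr, h⟩
    refine ⟨p, q, h1, ?_, h2.trans inter_subset_left⟩
    refine (strictAntiOn_of_deriv_neg (convex_Ioo _ _) hWc.continuousOn fun x hx => ?_).injOn
    rw [interior_Ioo] at hx
    rw [(hW x).deriv]
    exact (h2 hx).2
  · obtain ⟨p, q, h1, h2⟩ := key (O ∩ {x | 0 < W' x}) (hO.inter (isOpen_lt continuous_const hc))
      ⟨hr, h⟩
    refine ⟨p, q, h1, ?_, h2.trans inter_subset_left⟩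
    refine (strictMonoOn_of_deriv_pos (convex_Ioo _ _) hWc.continuousOn fun x hx => ?_).injOn
    rw [interior_Ioo] at hx
    rw [(hW x).deriv]
    exact (h2 hx).2

include hW hc in
theorem exists_inj_cover {O : Set ℝ} (hO : IsOpen O) (hne : ∀ r ∈ O, W' r ≠ 0) :
    ∃ A : ℕ → Set ℝ, (∀ i, MeasurableSet (A i)) ∧ Pairwise (Function.onFun Disjoint A) ∧
      (⋃ i, A i) = O ∧ ∀ i, InjOn W (A i) := by
  classical
  obtain ⟨e, he⟩ := exists_surjective_nat (ℚ × ℚ)
  set U : ℕ → Set ℝ := fun k => if InjOn W (Ioo ((e k).1 : ℝ) (e k).2) then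
    Ioo ((e k).1 : ℝ) (e k).2 ∩ O else ∅ with hU
  have hUm : ∀ k, MeasurableSet (U k) := by
    intro k
    simp only [hU]
    split_ifs
    · exact measurableSet_Ioo.inter hO.measurableSet
    · exact MeasurableSet.empty
  refine ⟨disjointed U, fun i => MeasurableSet.disjointed hUm i, disjoint_disjointed U, ?_, ?_⟩
  · rw [iUnion_disjointed]
    refine Subset.antisymm (iUnion_subset fun k => ?_) fun r hr => ?_
    · simp only [hU]
      split_ifs
      · exact inter_subset_right
      · exact empty_subset _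
    · obtain ⟨p, q, h1, h2, h3⟩ := local_inj hW hc hO hr (hne r hr)
      obtain ⟨k, hk⟩ := he (p, q)
      refine mem_iUnion.2 ⟨k, ?_⟩
      simp only [hU, hk, if_pos h2]
      exact ⟨h1, hr⟩
  · intro i
    refine InjOn.mono (disjointed_subset U i) ?_
    simp only [hU]
    split_ifs with h
    · exact h.mono inter_subset_left
    · exact injOn_empty _

include hW hc in
/-- The area formula with multiplicities. -/
theorem area_mult {O : Set ℝ} (hO : IsOpen O) (hne : ∀ r ∈ O, W' r ≠ 0) {G : ℝ → ℝ≥0∞}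
    (hG : Measurable G) :
    ∫⁻ r in O, ENNReal.ofReal |W' r| * G r
      = ∫⁻ s, ∫⁻ r in O ∩ W ⁻¹' {s}, G r ∂Measure.count := by
  have hWc := W_cont hW
  obtain ⟨A, hAm, hAd, hAO, hAi⟩ := exists_inj_cover hW hc hO hne
  have hd : ∀ i, ∀ x ∈ A i, HasDerivWithinAt W (W' x) (A i) x := fun i x _ =>
    (hW x).hasDerivWithinAt
  have hk : ∀ i, ∃ k : ℝ → ℝ≥0∞, Measurable k ∧ ∀ r ∈ A i, k (W r) = G r := by
    intro i
    have h1 : MeasurableEmbedding ((A i).domRestrict W) :=
      measurableEmbedding_of_fderivWithin (hAm i) (fun x hx => (hd i x hx).hasFDerivWithinAt)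
        (hAi i)
    obtain ⟨k, hk1, hk2⟩ := h1.exists_measurable_extend (g := fun x : A i => G x)
      (hG.comp measurable_subtype_coe) fun _ => inferInstance
    refine ⟨k, hk1, fun r hr => ?_⟩
    exact congrFun hk2 ⟨r, hr⟩
  choose k hkm hkG using hk
  have himg : ∀ i, MeasurableSet (W '' A i) := fun i =>
    measurable_image_of_fderivWithin (hAm i) (fun x hx => (hd i x hx).hasFDerivWithinAt) (hAi i)
  have e1 : ∀ i, ∫⁻ r in A i, ENNReal.ofReal |W' r| * G r
      = ∫⁻ s, (W '' A i).indicator (k i) s := by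
    intro i
    rw [lintegral_indicator (himg i),
      lintegral_image_eq_lintegral_abs_deriv_mul (hAm i) (hd i) (hAi i)]
    refine setLIntegral_congr_fun (hAm i) fun r hr => ?_
    simp only [hkG i r hr]
  have e2 : ∀ i s, ∫⁻ r in A i ∩ W ⁻¹' {s}, G r ∂Measure.count
      = (W '' A i).indicator (k i) s := by
    intro i s
    by_cases hs : s ∈ W '' A i
    · obtain ⟨r, hr, rfl⟩ := hs
      have h1 : A i ∩ W ⁻¹' {W r} = {r} := by
        ext x
        simp only [mem_inter_iff, mem_preimage, mem_singleton_iff]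
        exact ⟨fun h => hAi i h.1 hr h.2, fun h => by rw [h]; exact ⟨hr, rfl⟩⟩
      rw [h1, lintegral_singleton, Measure.count_singleton, mul_one,
        indicator_of_mem (mem_image_of_mem W hr), hkG i r hr]
    · have h1 : A i ∩ W ⁻¹' {s} = ∅ := by
        ext x
        simp only [mem_inter_iff, mem_preimage, mem_singleton_iff, mem_empty_iff_false, iff_false]
        exact fun h => hs ⟨x, h.1, h.2⟩
      rw [h1, Measure.restrict_empty, lintegral_zero_measure, indicator_of_notMem hs]
  rw [← hAO, lintegral_iUnion hAm hAd]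
  simp_rw [e1]
  rw [← lintegral_tsum fun i => ((hkm i).indicator (himg i)).aemeasurable]
  refine lintegral_congr fun s => ?_
  rw [iUnion_inter, lintegral_iUnion (fun i => (hAm i).inter
    (hWc.measurable (measurableSet_singleton s))) fun i j hij =>
      (hAd hij).mono inter_subset_left inter_subset_left]
  exact tsum_congr fun i => (e2 i s).symm

include hW in
/-- Almost every level is regular. -/
theorem regular_ae {T : ℝ} {N : Set ℝ} (hN : volume N = 0) :
    ∀ᵐ s, (∀ r ∈ Icc 0 T, W r = s → W' r ≠ 0 ∧ r ∉ N) ∧ W 0 ≠ s := by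
  have h1 : volume (W '' {r | W' r = 0}) = 0 := by
    refine addHaar_image_eq_zero_of_det_fderivWithin_eq_zero volume
      (f' := fun r => ContinuousLinearMap.toSpanSingleton ℝ (W' r))
      (fun r _ => (hW r).hasDerivWithinAt.hasFDerivWithinAt) fun r hr => ?_
    rw [ContinuousLinearMap.det_toSpanSingleton]
    exact hr
  have h2 : volume (W '' N) = 0 :=
    addHaar_image_eq_zero_of_differentiableOn_of_addHaar_eq_zero volume
      (fun r _ => (hW r).differentiableAt.differentiableWithinAt) hN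
  have h3 : volume {W 0} = 0 := Real.volume_singleton
  filter_upwards [measure_eq_zero_iff_ae_notMem.1 h1, measure_eq_zero_iff_ae_notMem.1 h2,
    measure_eq_zero_iff_ae_notMem.1 h3] with s hs1 hs2 hs3
  refine ⟨fun r _ hrs => ⟨fun h => hs1 ⟨r, h, hrs⟩, fun h => hs2 ⟨r, h, hrs⟩⟩, fun h => hs3 ?_⟩
  exact h.symm

include hW in
theorem finite_cross {T s : ℝ} (hreg : ∀ r ∈ Icc 0 T, W r = s → W' r ≠ 0) :
    (Icc 0 T ∩ W ⁻¹' {s}).Finite := by
  by_contra hinf
  have hWc := W_cont hW
  obtain ⟨x, hx, hacc⟩ := Set.Infinite.exists_accPt_of_subset_isCompact hinf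
    (isCompact_Icc.inter_right (isClosed_singleton.preimage hWc)) Subset.rfl
  have hxs : W x = s := hx.2
  have h1 := (hW x).eventually_ne (c := s) (hreg x hx.1 hxs)
  rw [accPt_iff_frequently_nhdsNE] at hacc
  obtain ⟨y, hy1, hy2⟩ := (hacc.and_eventually h1).exists
  exact hy2 hy1.2

end area

end Pool.Agent.TH811.SPD
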