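import Pool.Agent.TH811.SPD.Str4

/-!
The excursion inequality along a curve.
-/

open MeasureTheory Set Filter Topology
open scoped ENNReal

namespace Pool.Agent.TH811.SPD

section curve

variable {W W' : ℝ → ℝ} (hW : ∀ r, HasDerivAt W (W' r) r) (hc : Continuous W')

include hW hc in
/-- The excursion inequality along a curve. -/
theorem one_dim {T R n : ℝ} {H F φ : ℝ → ℝ} {N : Set ℝ} (hHm : Measurable H)
    (hH : ∀ r, |H r| ≤ n) (hFm : Measurable F) (hF0 : ∀ r, 0 ≤ F r)
    (hFi : IntegrableOn F (Ioo 0 T)) (hφc : Continuous φ) (hφ0 : ∀ s, 0 ≤ φ s)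
    (hW0 : ∀ r, 0 ≤ W r) (hWR : ∀ r, W r ≤ R) (hN : volume N = 0)
    (hexc : ∀ a b, 0 < a → a < b → b < T → a ∉ N → b ∉ N → W b = W a →
      (∀ r ∈ Ioo a b, W a < W r) → 0 < W' a → W' b < 0 →
      H a ≤ H b + φ (W a) * ∫ r in Ioo a b, F r) :
    ∫ r in Ioo 0 T, H r * W' r
      ≤ (∫ r in Ioo 0 T, F r * ∫ s in (0 : ℝ)..W r, φ s) + 2 * n * R := by
  have hWc := W_cont hW
  have hn : 0 ≤ n := (abs_nonneg _).trans (hH 0)
  have hR : 0 ≤ R := (hW0 0).trans (hWR 0)
  set O : Set ℝ := Ioo 0 T ∩ {r | W' r ≠ 0} with hOdef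
  have hO : IsOpen O := isOpen_Ioo.inter (isOpen_ne_fun hc continuous_const)
  set G : ℝ → ℝ := fun r => if 0 < W' r then H r else -H r with hG
  have hGm : Measurable G :=
    Measurable.ite (measurableSet_lt measurable_const hc.measurable) hHm hHm.neg
  have hGn : ∀ r, |G r| ≤ n := by
    intro r
    simp only [hG]
    split_ifs
    · exact hH r
    · rw [abs_neg]; exact hH r
  have hGW : ∀ r, |W' r| * G r = H r * W' r := by
    intro r
    simp only [hG]
    split_ifs with h
    · rw [abs_of_pos h]; ring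
    · rw [abs_of_nonpos (not_lt.1 h)]; ring
  have hG0 : ∀ r, 0 ≤ G r + n := fun r => by linarith [(abs_le.1 (hGn r)).1]
  have hΦ : ∀ s, 0 ≤ s → 0 ≤ ∫ s in (0 : ℝ)..s, φ s := fun s hs =>
    intervalIntegral.integral_nonneg hs fun r _ => hφ0 r
  have hΦc : Continuous fun s => ∫ s in (0 : ℝ)..s, φ s :=
    intervalIntegral.continuous_primitive (fun a b => hφc.intervalIntegrable a b) 0
  -- the kernel
  set k : ℝ × ℝ → ℝ≥0∞ := {p : ℝ × ℝ | 0 < p.1 ∧ p.1 < W p.2}.indicator
    fun p => ENNReal.ofReal (φ p.1) * ENNReal.ofReal (F p.2) with hk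
  have hkS : MeasurableSet {p : ℝ × ℝ | 0 < p.1 ∧ p.1 < W p.2} :=
    (measurableSet_lt measurable_const measurable_fst).inter
      (measurableSet_lt measurable_fst (hWc.measurable.comp measurable_snd))
  have hkm : Measurable k :=
    ((hφc.measurable.comp measurable_fst).ennreal_ofReal.mul
      (hFm.comp measurable_snd).ennreal_ofReal).indicator hkS
  -- pointwise bound
  have hpt : ∀ᵐ s, ∫⁻ r in O ∩ W ⁻¹' {s}, ENNReal.ofReal (G r + n) ∂Measure.count
      ≤ (∫⁻ r in Ioo 0 T, k (s, r)) + ((Icc 0 R).indicator (fun _ => ENNReal.ofReal (2 * n)) s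
        + ∫⁻ r in O ∩ W ⁻¹' {s}, ENNReal.ofReal n ∂Measure.count) := by
    have h0 : volume {(0 : ℝ)} = 0 := Real.volume_singleton
    filter_upwards [regular_ae hW (T := T) hN, measure_eq_zero_iff_ae_notMem.1 h0] with s hs hs0
    have hs0' : s ≠ 0 := fun h => hs0 h
    obtain ⟨hreg, hs1⟩ := hs
    by_cases hsR : 0 < s ∧ s ≤ R
    swap
    · have he : O ∩ W ⁻¹' {s} = ∅ := by
        rw [eq_empty_iff_forall_notMem]
        rintro r ⟨_, hr⟩
        have hr' : W r = s := hr
        refine hsR ⟨?_, ?_⟩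
        · exact lt_of_le_of_ne (hr' ▸ hW0 r) (Ne.symm hs0')
        · exact hr' ▸ hWR r
      rw [he, Measure.restrict_empty, lintegral_zero_measure]
      exact zero_le
    obtain ⟨hspos, hsR⟩ := hsR
    have hfin := finite_cross hW (T := T) (s := s) fun r hr hrs => (hreg r hr hrs).1
    have hfin2 : (Ioo 0 T ∩ W ⁻¹' {s}).Finite :=
      hfin.subset (inter_subset_inter_left _ Ioo_subset_Icc_self)
    set C := hfin2.toFinset with hCdef
    have hC : ∀ r, r ∈ C ↔ r ∈ Ioo 0 T ∧ W r = s := by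
      intro r
      rw [hCdef, Set.Finite.mem_toFinset]
      rfl
    have hOC : O ∩ W ⁻¹' {s} = (C : Set ℝ) := by
      ext r
      rw [Finset.mem_coe, hC]
      constructor
      · rintro ⟨⟨h1, _⟩, h2⟩
        exact ⟨h1, h2⟩
      · rintro ⟨h1, h2⟩
        exact ⟨⟨h1, (hreg r (Ioo_subset_Icc_self h1) h2).1⟩, h2⟩
    have hsum := level_total (s := s) hW hH (hφ0 s) hF0 hFi
      (fun r hr hrs => (hreg r (Ioo_subset_Icc_self hr) hrs).1) hs1
      (fun a b ha hab hb h1 h2 h3 h4 h5 => by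
        have haI : a ∈ Icc 0 T := ⟨ha.le, (hab.trans hb).le⟩
        have hbI : b ∈ Icc 0 T := ⟨(ha.trans hab).le, hb.le⟩
        have := hexc a b ha hab hb (hreg a haI h1).2 (hreg b hbI h2).2 (by rw [h1, h2])
          (by rw [h1]; exact h3) h4 h5
        rwa [h1] at this) hC
    rw [hOC, lintegral_finset, lintegral_finset, indicator_of_mem (show s ∈ Icc 0 R from ⟨hspos.le, hsR⟩)]
    simp only [Measure.count_singleton, mul_one]
    rw [← ENNReal.ofReal_sum_of_nonneg fun r _ => hG0 r,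
      ← ENNReal.ofReal_sum_of_nonneg fun r _ => hn, Finset.sum_add_distrib]
    have hmS : MeasurableSet {r | s < W r} := measurableSet_lt measurable_const hWc.measurable
    have hIF : IntegrableOn F (Ioo 0 T ∩ {r | s < W r}) := hFi.mono_set inter_subset_left
    have hI0 : 0 ≤ ∫ r in Ioo 0 T ∩ {r | s < W r}, F r := integral_nonneg fun r => hF0 r
    have hB1 : ENNReal.ofReal (φ s * ∫ r in Ioo 0 T ∩ {r | s < W r}, F r)
        = ∫⁻ r in Ioo 0 T, k (s, r) := by
      rw [ENNReal.ofReal_mul (hφ0 s), ofReal_integral_eq_lintegral_ofReal hIF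
        (ae_of_all _ fun r => hF0 r), ← lintegral_const_mul _ hFm.ennreal_ofReal,
        inter_comm, ← Measure.restrict_restrict hmS, ← lintegral_indicator hmS]
      refine lintegral_congr fun r => ?_
      simp only [hk, indicator, mem_ofPred_eq]
      by_cases h : s < W r
      · rw [if_pos h, if_pos ⟨hspos, h⟩]
      · rw [if_neg h, if_neg fun h2 => h h2.2]
    have hcn : 0 ≤ ∑ r ∈ C, n := Finset.sum_nonneg fun r _ => hn
    calc ENNReal.ofReal (∑ r ∈ C, G r + ∑ r ∈ C, n)
        ≤ ENNReal.ofReal ((φ s * ∫ r in Ioo 0 T ∩ {r | s < W r}, F r)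
          + (2 * n + ∑ r ∈ C, n)) := by
          refine ENNReal.ofReal_le_ofReal ?_
          have : ∑ r ∈ C, G r ≤ (φ s * ∫ r in Ioo 0 T ∩ {r | s < W r}, F r) + 2 * n := hsum
          linarith
      _ = _ := by
          rw [ENNReal.ofReal_add (mul_nonneg (hφ0 s) hI0) (by linarith),
            ENNReal.ofReal_add (by linarith) hcn, hB1]
  -- integrate in `s`
  have hGm1 : Measurable fun r => ENNReal.ofReal (G r + n) := (hGm.add_const n).ennreal_ofReal
  have hne : ∀ r ∈ O, W' r ≠ 0 := fun r hr => hr.2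
  have a1 := area_mult hW hc hO hne hGm1
  have a2 := area_mult hW hc hO hne (G := fun _ => ENNReal.ofReal n) measurable_const
  have hint := lintegral_mono_ae hpt
  have hkm1 : Measurable fun s => ∫⁻ r in Ioo 0 T, k (s, r) := hkm.lintegral_prod_right'
  have hBm : Measurable ((Icc 0 R).indicator (fun _ : ℝ => ENNReal.ofReal (2 * n))) :=
    measurable_const.indicator measurableSet_Icc
  rw [lintegral_add_left hkm1, lintegral_add_left hBm, ← a1, ← a2,
    lintegral_indicator measurableSet_Icc, setLIntegral_const, Real.volume_Icc, sub_zero] at hint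
  -- the kernel term
  have hFΦm : Measurable fun r => F r * ∫ s in (0 : ℝ)..W r, φ s :=
    hFm.mul (hΦc.measurable.comp hWc.measurable)
  have hFΦ0 : ∀ r, 0 ≤ F r * ∫ s in (0 : ℝ)..W r, φ s := fun r =>
    mul_nonneg (hF0 r) (hΦ _ (hW0 r))
  have hFΦi : IntegrableOn (fun r => F r * ∫ s in (0 : ℝ)..W r, φ s) (Ioo 0 T) := by
    refine Integrable.mul_bdd (c := ∫ s in (0 : ℝ)..R, φ s) hFi
      (hΦc.comp hWc).aestronglyMeasurable (ae_of_all _ fun r => ?_)
    rw [Real.norm_of_nonneg (hΦ _ (hW0 r))]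
    have h1 := intervalIntegral.integral_add_adjacent_intervals
      (hφc.intervalIntegrable (μ := volume) 0 (W r)) (hφc.intervalIntegrable (μ := volume) (W r) R)
    have h2 : 0 ≤ ∫ s in W r..R, φ s :=
      intervalIntegral.integral_nonneg (hWR r) fun s _ => hφ0 s
    linarith
  have hk2 : ∫⁻ s, ∫⁻ r in Ioo 0 T, k (s, r)
      = ENNReal.ofReal (∫ r in Ioo 0 T, F r * ∫ s in (0 : ℝ)..W r, φ s) := by
    rw [lintegral_lintegral_swap (f := fun s r => k (s, r)) hkm.aemeasurable,
      ofReal_integral_eq_lintegral_ofReal hFΦi (ae_of_all _ hFΦ0)]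
    refine lintegral_congr fun r => ?_
    have h1 : ∀ s, k (s, r) = ENNReal.ofReal (F r)
        * (Ioo 0 (W r)).indicator (fun s => ENNReal.ofReal (φ s)) s := by
      intro s
      simp only [hk, indicator, mem_ofPred_eq, mem_Ioo]
      split_ifs
      · rw [mul_comm]
      · rw [mul_zero]
    simp_rw [h1]
    rw [lintegral_const_mul _ (hφc.measurable.ennreal_ofReal.indicator measurableSet_Ioo),
      lintegral_indicator measurableSet_Ioo, ENNReal.ofReal_mul (hF0 r),
      intervalIntegral.integral_of_le (hW0 r), integral_Ioc_eq_integral_Ioo,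
      ofReal_integral_eq_lintegral_ofReal (hφc.integrableOn_Icc.mono_set Ioo_subset_Icc_self)
        (ae_of_all _ hφ0)]
  rw [hk2] at hint
  -- the terms over `O`
  have hW'i : IntegrableOn (fun r => |W' r|) (Ioo 0 T) :=
    hc.abs.integrableOn_Icc.mono_set Ioo_subset_Icc_self
  have hHWi : IntegrableOn (fun r => H r * W' r) (Ioo 0 T) := by
    have h1 : IntegrableOn W' (Ioo 0 T) := hc.integrableOn_Icc.mono_set Ioo_subset_Icc_self
    exact h1.bdd_mul (c := n) hHm.aestronglyMeasurable (ae_of_all _ fun r => hH r)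
  have hterm : ∀ g : ℝ → ℝ, Measurable g → (∀ r, 0 ≤ g r) →
      IntegrableOn (fun r => |W' r| * g r) (Ioo 0 T) →
      ∫⁻ r in O, ENNReal.ofReal |W' r| * ENNReal.ofReal (g r)
        = ENNReal.ofReal (∫ r in Ioo 0 T, |W' r| * g r) := by
    intro g hgm hg0 hgi
    have e1 : ∫ r in Ioo 0 T, |W' r| * g r = ∫ r in O, |W' r| * g r := by
      refine setIntegral_eq_of_subset_of_forall_sdiff_eq_zero measurableSet_Ioo
        inter_subset_left fun r hr => ?_
      have : W' r = 0 := by
        by_contra h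
        exact hr.2 ⟨hr.1, h⟩
      rw [this, abs_zero, zero_mul]
    rw [e1, ofReal_integral_eq_lintegral_ofReal (hgi.mono_set inter_subset_left)
      (ae_of_all _ fun r => mul_nonneg (abs_nonneg _) (hg0 r))]
    refine lintegral_congr fun r => ?_
    rw [ENNReal.ofReal_mul (abs_nonneg _)]
  have i2 : IntegrableOn (fun r => |W' r| * n) (Ioo 0 T) := hW'i.mul_const n
  have e1 : ∀ r, |W' r| * (G r + n) = H r * W' r + |W' r| * n := by
    intro r
    rw [mul_add, hGW]
  have i1 : IntegrableOn (fun r => |W' r| * (G r + n)) (Ioo 0 T) := by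
    simp_rw [e1]
    exact hHWi.add i2
  rw [hterm _ (hGm.add_const n) hG0 i1, hterm _ measurable_const (fun _ => hn) i2] at hint
  simp_rw [e1] at hint
  rw [integral_add hHWi i2] at hint
  have hp1 : 0 ≤ ∫ r in Ioo 0 T, F r * ∫ s in (0 : ℝ)..W r, φ s := integral_nonneg hFΦ0
  have hp2 : 0 ≤ ∫ r in Ioo 0 T, |W' r| * n :=
    integral_nonneg fun r => mul_nonneg (abs_nonneg _) hn
  have h2n : 0 ≤ 2 * n := by linarith
  rw [← ENNReal.ofReal_mul h2n, ← ENNReal.ofReal_add (mul_nonneg h2n hR) hp2,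
    ← ENNReal.ofReal_add hp1 (add_nonneg (mul_nonneg h2n hR) hp2),
    ENNReal.ofReal_le_ofReal_iff (by positivity)] at hint
  linarith

end curve

end Pool.Agent.TH811.SPD
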