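import Pool.Agent.TH811.SPD.Str2
import Pool.Agent.TH811.SPD.Str5

/-!
The excursion inequality for the flow.
-/

open MeasureTheory Set Filter Topology
open scoped ContDiff ENNReal NNReal
open H459R3.NS Pool.Agent.W268.NS Pool.Agent.GR.Flow

namespace Pool.Agent.TH811.SPD

theorem clamp_add {n a b c : ℝ} (hc : 0 ≤ c) (h : a ≤ b + c) :
    max (-n) (min a n) ≤ max (-n) (min b n) + c := by
  refine max_le ?_ ?_
  · have := le_max_left (-n) (min b n)
    linarith
  · have h1 := le_max_right (-n) (min b n)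
    have h2 : min a n ≤ min b n + c := by
      rcases le_total b n with hb | hb
      · rw [min_eq_left hb]
        exact (min_le_left _ _).trans h
      · rw [min_eq_right hb]
        have := min_le_right a n
        linarith
    linarith

theorem clamp_abs {n a : ℝ} (hn : 0 ≤ n) : |max (-n) (min a n)| ≤ n :=
  abs_le.2 ⟨le_max_left _ _, max_le (by linarith) (min_le_right _ _)⟩

theorem clamp_abs' {n a : ℝ} (hn : 0 ≤ n) : |max (-n) (min a n)| ≤ |a| := by
  rw [abs_le]
  constructor
  · rcases le_total a n with h | h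
    · rw [min_eq_left h]
      exact (neg_abs_le a).trans (le_max_right _ _)
    · rw [min_eq_right h]
      exact (neg_nonpos.2 (abs_nonneg a)).trans (hn.trans (le_max_right _ _))
  · refine max_le ?_ ((min_le_left _ _).trans (le_abs_self a))
    linarith [abs_nonneg a]

theorem clamp_self {n a : ℝ} (h : |a| ≤ n) : max (-n) (min a n) = a := by
  rw [abs_le] at h
  rw [min_eq_left h.2, max_eq_right h.1]

theorem div_mul_self_le {a b : ℝ} (ha : 0 ≤ a) : a / b * b ≤ a := by
  rcases eq_or_ne b 0 with h | h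
  · rw [h, mul_zero]; exact ha
  · rw [div_mul_cancel₀ _ h]

/-- the periodic null set generated by a null set -/
theorem exists_per_null {Z : Set V} (hZ : volume Z = 0) : ∃ Z' : Set V, MeasurableSet Z' ∧
    volume Z' = 0 ∧ Z ⊆ Z' ∧ ∀ (i : Fin 3) (x : V), x + Pi.single i 1 ∈ Z' ↔ x ∈ Z' := by
  set Z₁ := toMeasurable volume Z with hZ₁
  have hm : MeasurableSet Z₁ := measurableSet_toMeasurable _ _
  have h0 : volume Z₁ = 0 := by rw [hZ₁, measure_toMeasurable, hZ]
  refine ⟨⋃ m : K3, (fun x : V => x + fun i => (m i : ℝ)) ⁻¹' Z₁,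
    MeasurableSet.iUnion fun m => hm.preimage (measurable_id.add_const _), ?_, ?_, ?_⟩
  · rw [measure_iUnion_null_iff]
    intro m
    rw [measure_preimage_add_right, h0]
  · intro x hx
    refine mem_iUnion.2 ⟨0, ?_⟩
    have : (x + fun i => (((0 : K3) i : ℤ) : ℝ)) = x := by
      funext i; simp
    rw [mem_preimage, this]
    exact subset_toMeasurable _ _ hx
  · intro i x
    simp only [mem_iUnion, mem_preimage]
    constructor
    · rintro ⟨m, hm⟩
      refine ⟨m + Pi.single i 1, ?_⟩
      convert hm using 1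
      funext j
      simp only [Pi.add_apply, Int.cast_add]
      rcases eq_or_ne j i with rfl | hj
      · simp; ring
      · simp [hj]
    · rintro ⟨m, hm⟩
      refine ⟨m - Pi.single i 1, ?_⟩
      convert hm using 1
      funext j
      simp only [Pi.add_apply, Pi.sub_apply, Int.cast_sub]
      rcases eq_or_ne j i with rfl | hj
      · simp
      · simp [hj]

section

variable {v : V → V} (hv : ∀ i, SP (fun y => v y i))
  (hdiv : ∀ x, ∑ i, pd i (fun y => v y i) x = 0) {g : ℝ → V → V} (hg : IsFlowOf v g)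

include hv hdiv hg in
theorem ae_orbit {Z : Set V} (hm : MeasurableSet Z) (h0 : volume Z = 0)
    (hp : ∀ (i : Fin 3) (x : V), x + Pi.single i 1 ∈ Z ↔ x ∈ Z) (T : ℝ) :
    ∀ᵐ x ∂(volume.restrict cube), volume ({t | g t x ∈ Z} ∩ Ioo 0 T) = 0 := by
  set k : V → ℝ≥0∞ := Z.indicator fun _ => 1 with hk
  have hkm : Measurable k := measurable_const.indicator hm
  have hkp : Per k := by
    intro i x
    simp only [hk, indicator]
    by_cases hx : x ∈ Z
    · rw [if_pos hx, if_pos ((hp i x).2 hx)]
    · rw [if_neg hx, if_neg fun h => hx ((hp i x).1 h)]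
  have h1 : ∫⁻ x in cube, k x = 0 := by
    rw [hk, lintegral_indicator hm]
    simp only [lintegral_const, Measure.restrict_apply MeasurableSet.univ, univ_inter, one_mul]
    rw [Measure.restrict_apply hm]
    exact measure_mono_null inter_subset_left h0
  have h2 : ∫⁻ x in cube, ∫⁻ t in Ioo 0 T, k (g t x) = 0 := by
    rw [lintegral_lintegral_swap (f := fun x t => k (g t x))
      ((meas_flow hv hg hkm).comp measurable_swap).aemeasurable]
    simp_rw [lintegral_flow hv hdiv hg hkm hkp, h1]
    simp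
  have hmm : Measurable fun x => ∫⁻ t in Ioo 0 T, k (g t x) :=
    ((meas_flow hv hg hkm).comp measurable_swap).lintegral_prod_right'
  rw [lintegral_eq_zero_iff hmm] at h2
  filter_upwards [h2] with x hx
  have hx' : ∫⁻ t in Ioo 0 T, k (g t x) = 0 := hx
  have hgc : Continuous fun t => g t x := hg.continuous x
  have hSm : MeasurableSet {t | g t x ∈ Z} := hgc.measurable hm
  have e : ∀ t, k (g t x) = {t | g t x ∈ Z}.indicator (fun _ => (1 : ℝ≥0∞)) t := by
    intro t
    simp only [hk, indicator, mem_ofPred_eq]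
  simp_rw [e] at hx'
  rw [lintegral_indicator hSm] at hx'
  simpa [Measure.restrict_apply, hSm] using hx'

variable {w : V → ℝ} (hw : SP w)

include hv hdiv hg hw in
/-- The excursion inequality for the flow. -/
theorem exc (hw0 : ∀ x, 0 ≤ w x) {φ : ℝ → ℝ} (hφc : Continuous φ) (hφ0 : ∀ s, 0 ≤ φ s)
    {h F : V → ℝ} (hhm : Measurable h) (hhp : Per h) (hhi : IntegrableOn h cube)
    (hFm : Measurable F) (hFp : Per F) (hFi : IntegrableOn F cube) (hF0 : ∀ x, 0 ≤ F x)
    {Z : Set V} (hZ : volume Z = 0) (h0 : ∀ x, x ∉ Z → adv v w x = 0 → h x ≤ 0)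
    (h2 : ∀ x τ, 0 < τ → x ∉ Z → g τ x ∉ Z → w (g τ x) = w x →
      (∀ r ∈ Ioo 0 τ, w x < w (g r x)) → 0 < adv v w x → adv v w (g τ x) < 0 →
      h x / adv v w x ≤ h (g τ x) / adv v w (g τ x) + φ (w x) * ∫ r in Ioo 0 τ, F (g r x)) :
    ∫ x in cube, h x ≤ ∫ x in cube, F x * ∫ s in (0 : ℝ)..w x, φ s := by
  have := cube_finite
  set D : V → ℝ := adv v w with hD
  have sD : SP D := sp_adv hv hw
  obtain ⟨R, hR⟩ := per_bound hw.per hw.cont
  have hwR : ∀ x, w x ≤ R := fun x => (le_abs_self _).trans (hR x)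
  obtain ⟨Z', hZ'm, hZ'0, hZZ', hZ'p⟩ := exists_per_null hZ
  set Φ : ℝ → ℝ := fun s => ∫ r in (0 : ℝ)..s, φ r with hΦ
  have hΦc : Continuous Φ :=
    intervalIntegral.continuous_primitive (fun a b => hφc.intervalIntegrable a b) 0
  set B : ℝ := ∫ x in cube, F x * Φ (w x) with hB
  have hFΦm : Measurable fun x => F x * Φ (w x) :=
    hFm.mul (hΦc.measurable.comp hw.cont.measurable)
  have hFΦp : Per fun x => F x * Φ (w x) := by
    intro i x
    simp only [hFp i x, hw.per i x]
  have hFΦi : IntegrableOn (fun x => F x * Φ (w x)) cube := by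
    obtain ⟨b, hb⟩ := isCompact_Icc.exists_bound_of_continuousOn (s := cube)
      (hΦc.comp hw.cont).continuousOn
    refine Integrable.mul_bdd (c := b) hFi (hΦc.comp hw.cont).aestronglyMeasurable ?_
    exact (ae_restrict_iff' measurableSet_Icc).2 (Filter.Eventually.of_forall fun x hx => hb x hx)
  -- the truncated functions
  set H : ℕ → V → ℝ := fun n x => max (-n) (min (h x / D x) n) with hH
  have hHm : ∀ n, Measurable (H n) := fun n =>
    measurable_const.max ((hhm.div sD.cont.measurable).min measurable_const)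
  have hHp : ∀ n, Per (H n) := by
    intro n i x
    simp only [hH, hhp i x, sD.per i x]
  have hHn : ∀ n x, |H n x| ≤ n := fun n x => clamp_abs (Nat.cast_nonneg n)
  have hHDm : ∀ n, Measurable fun x => H n x * D x := fun n => (hHm n).mul sD.cont.measurable
  have hHDp : ∀ n, Per fun x => H n x * D x := by
    intro n i x
    simp only [hHp n i x, sD.per i x]
  have hHDle : ∀ n x, ‖H n x * D x‖ ≤ |h x| := by
    intro n x
    rw [norm_mul, Real.norm_eq_abs, Real.norm_eq_abs]
    have h1 : |H n x| ≤ |h x / D x| := clamp_abs' (Nat.cast_nonneg n)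
    refine (mul_le_mul_of_nonneg_right h1 (abs_nonneg _)).trans ?_
    rw [abs_div]
    exact div_mul_self_le (abs_nonneg _)
  have hHDi : ∀ n, IntegrableOn (fun x => H n x * D x) cube := fun n =>
    Integrable.mono' hhi.abs (hHDm n).aestronglyMeasurable (ae_of_all _ fun x => hHDle n x)
  -- the bound for each truncation
  have key : ∀ (n : ℕ) (T : ℝ), 0 < T → T * (∫ x in cube, H n x * D x) ≤ T * B + 2 * n * R := by
    intro n T hT
    obtain ⟨i1, -, e1⟩ := int_prod_flow hv hdiv hg (hHDm n) (hHDp n) (hHDi n) hT.le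
    obtain ⟨i2, -, e2⟩ := int_prod_flow hv hdiv hg hFΦm hFΦp hFΦi hT.le
    obtain ⟨-, a3, -⟩ := int_prod_flow hv hdiv hg hFm hFp hFi hT.le
    have a4 := ae_orbit hv hdiv hg hZ'm hZ'0 hZ'p T
    rw [← e1, hB, ← e2]
    have hconst : ∫ x in cube, (2 * (n : ℝ) * R : ℝ) = 2 * n * R := by
      rw [setIntegral_const]
      simp [Measure.real, volume_cube]
    rw [← hconst, ← integral_add i2 (integrable_const _)]
    refine integral_mono_ae i1 (i2.add (integrable_const _)) ?_
    filter_upwards [a3, a4] with x hx3 hx4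
    have hgc : Continuous fun t => g t x := hg.continuous x
    refine one_dim (W := fun t => w (g t x)) (W' := fun t => D (g t x)) (T := T) (R := R) (n := n)
      (H := fun t => H n (g t x)) (F := fun t => F (g t x)) (φ := φ)
      (N := {t | g t x ∈ Z'} ∩ Ioo 0 T) (fun t => deriv_flow hg hw x t) (sD.cont.comp hgc)
      ((hHm n).comp hgc.measurable) (fun t => hHn n _) (hFm.comp hgc.measurable)
      (fun t => hF0 _) hx3 hφc hφ0 (fun t => hw0 _) (fun t => hwR _) hx4 ?_
    intro a b ha hab hb haN hbN hWab hexc hDa hDb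
    have haZ : g a x ∉ Z := fun hz => haN ⟨hZZ' hz, ha, hab.trans hb⟩
    have hbZ : g b x ∉ Z := fun hz => hbN ⟨hZZ' hz, ha.trans hab, hb⟩
    have hgab : ∀ r, g r (g a x) = g (r + a) x := fun r => (flow_add hv hg r a x).symm
    have hgb : g (b - a) (g a x) = g b x := by rw [hgab, sub_add_cancel]
    have h3 := h2 (g a x) (b - a) (sub_pos.2 hab) haZ (by rw [hgb]; exact hbZ)
      (by rw [hgb]; exact hWab)
      (fun r hr => by
        rw [hgab]
        exact hexc (r + a) ⟨by linarith [hr.1], by linarith [hr.2]⟩) hDa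
      (by rw [hgb]; exact hDb)
    rw [hgb] at h3
    have h4 : ∫ r in Ioo 0 (b - a), F (g r (g a x)) = ∫ r in Ioo a b, F (g r x) := by
      simp_rw [hgab]
      rw [← integral_Ioc_eq_integral_Ioo, ← integral_Ioc_eq_integral_Ioo,
        ← intervalIntegral.integral_of_le (sub_nonneg.2 hab.le),
        ← intervalIntegral.integral_of_le hab.le,
        intervalIntegral.integral_comp_add_right (fun r => F (g r x)) a, zero_add, sub_add_cancel]
    rw [h4] at h3
    have h5 : 0 ≤ φ (w (g a x)) * ∫ r in Ioo a b, F (g r x) :=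
      mul_nonneg (hφ0 _) (integral_nonneg fun r => hF0 _)
    exact clamp_add h5 h3
  have key2 : ∀ n : ℕ, ∫ x in cube, H n x * D x ≤ B := by
    intro n
    by_contra hcon
    push Not at hcon
    set δ : ℝ := (∫ x in cube, H n x * D x) - B with hδ
    have hδ0 : 0 < δ := sub_pos.2 hcon
    have hR0 : (0 : ℝ) ≤ R := R.2
    have h1 := key n ((2 * n * R + 1) / δ) (by positivity)
    have h3 : (2 * n * R + 1) / δ * δ ≤ 2 * n * R := by
      rw [hδ, mul_sub]
      linarith
    rw [div_mul_cancel₀ _ hδ0.ne'] at h3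
    linarith
  -- the limit
  have hlim : Tendsto (fun n => ∫ x in cube, H n x * D x) atTop
      (𝓝 (∫ x in cube, h x / D x * D x)) := by
    refine tendsto_integral_of_dominated_convergence (fun x => |h x|)
      (fun n => (hHDm n).aestronglyMeasurable) hhi.abs (fun n => ae_of_all _ fun x => hHDle n x)
      (ae_of_all _ fun x => ?_)
    refine tendsto_const_nhds.congr' ?_
    filter_upwards [eventually_ge_atTop ⌈|h x / D x|⌉₊] with n hn
    have h1 : |h x / D x| ≤ n := (Nat.le_ceil _).trans (by exact_mod_cast hn)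
    simp only [hH]
    rw [clamp_self h1]
  have h3 : ∫ x in cube, h x / D x * D x ≤ B := le_of_tendsto' hlim key2
  refine le_trans ?_ h3
  have hi : IntegrableOn (fun x => h x / D x * D x) cube := by
    refine Integrable.mono' hhi.abs
      ((hhm.div sD.cont.measurable).mul sD.cont.measurable).aestronglyMeasurable
      (ae_of_all _ fun x => ?_)
    rw [norm_mul, Real.norm_eq_abs, Real.norm_eq_abs, abs_div]
    exact div_mul_self_le (abs_nonneg _)
  refine integral_mono_ae hhi hi ?_
  have hz : ∀ᵐ x ∂(volume.restrict cube), x ∉ Z :=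
    ae_restrict_of_ae (measure_eq_zero_iff_ae_notMem.1 hZ)
  filter_upwards [hz] with x hx
  rcases eq_or_ne (D x) 0 with hd | hd
  · rw [hd, mul_zero]
    exact h0 x hx hd
  · rw [div_mul_cancel₀ _ hd]

end

end Pool.Agent.TH811.SPD
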