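import Pool.Agent.TH811.SPD.Defs2
import Pool.Agent.TH811.SPD.Prod
import Pool.Agent.TH811.SPD.Pot
import Pool.Agent.TH811.SPD.Str6

/-!
The bound of the pressure term from the comparison along streamlines.
-/

open MeasureTheory Set Filter Topology
open scoped ContDiff
open H459R3.NS Pool.Agent.W268.NS Pool.Agent.GR.Flow

namespace Pool.Agent.TH811.SPD

/-- The bound of the pressure term. -/
theorem press_str {N α ν κ lam : ℝ} (hN : 0 ≤ N) (hα : 0 < α) (hν : 0 ≤ ν) (hκ : 0 ≤ κ)
    (hlam : 0 ≤ lam) {v : V → V} (hv : ∀ i, SP (fun y => v y i))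
    (hdiv : ∀ x, ∑ i, pd i (fun y => v y i) x = 0) {g : ℝ → V → V} (hg : IsFlowOf v g)
    {P f : V → ℝ} (hP : SP P) (hfm : Measurable f) (hfp : Per f) (hf : IntegrableOn f cube)
    (hf0 : ∀ x, 0 ≤ f x) {Z : Set V} (hZ : volume Z = 0)
    (h2 : ∀ x τ, 0 < τ → x ∉ Z → g τ x ∉ Z → sq3 v (g τ x) = sq3 v x →
      (∀ r ∈ Ioo 0 τ, sq3 v x < sq3 v (g r x)) → N < sq3 v x → 0 < growth v x →
      growth v (g τ x) < 0 → P x ≤ P (g τ x) + room ν κ f v x / growth v x
        - room ν κ f v (g τ x) / growth v (g τ x)
        + ∫ r in Ioo 0 τ, (f (g r x) * (1 + sq3 v (g r x)) + lam * ν * grad2 v (g r x))) :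
    ∫ x in cube, deriv (psi N α) (sq3 v x) * (P x * adv v (sq3 v) x)
      ≤ (2 * α * κ + lam) * ν * (∫ x in cube, psi N α (sq3 v x) * grad2 v x)
        + 2 * ν * (∫ x in cube, deriv (psi N α) (sq3 v x) * rad2 v x)
        + (4 * α + 2) * (∫ x in cube, f x * ze N (sq3 v x) ^ (α + 1)) := by
  have := cube_fin
  set w : V → ℝ := sq3 v with hw
  have hws : SP w := sp_sq3 hv
  have hw0 : ∀ x, 0 ≤ w x := sq3_nonneg v
  set φ : ℝ → ℝ := deriv (psi N α) with hφ
  have hφc : ContDiff ℝ ∞ φ := dpsi_contDiff hN
  have hφ0 : ∀ s, 0 ≤ φ s := fun s => dpsi_nonneg hN hα.le s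
  have sφ : SP (fun x => φ (w x)) := sp_comp hws hφc
  have sψ : SP (fun x => psi N α (w x)) := sp_comp hws (psi_contDiff hN)
  have sz : SP (fun x => ze N (w x) ^ (α + 1)) := sp_comp hws (rpow_ze_contDiff hN _)
  have sG : SP (grad2 v) := sp_grad2 hv
  have sR : SP (rad2 v) := sp_rad2 hv
  have sD : SP (adv v w) := sp_adv hv hws
  set D : V → ℝ := adv v w with hD
  have hDg : ∀ x, D x = 2 * growth v x := adv_sq3 hv
  have hroom : ∀ x, 0 ≤ room ν κ f v x := by
    intro x
    unfold room
    have a1 := hw0 x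
    have a2 := grad2_nonneg v x
    have a3 := rad2_nonneg v x
    have a4 := hf0 x
    have a5 : 0 ≤ sq3 v x := a1
    positivity
  -- the function `h`
  set h : V → ℝ := fun x => φ (w x) * (P x * D x) - 2 * (φ (w x) * room ν κ f v x) with hh
  have e_al : ∀ x, φ (w x) * room ν κ f v x
      = ν * (φ (w x) * (κ * (w x * grad2 v x) + rad2 v x))
        + f x * (φ (w x) * (w x * (1 + w x))) := by
    intro x; unfold room; ring
  have sv1 : SP (fun x => φ (w x) * (κ * (w x * grad2 v x) + rad2 v x)) :=
    sφ.mul (((sp_const κ).mul (hws.mul sG)).add sR)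
  have ct2 : Continuous (fun x => φ (w x) * (w x * (1 + w x))) :=
    sφ.cont.mul (hws.cont.mul (continuous_const.add hws.cont))
  have ial : IntegrableOn (fun x => φ (w x) * room ν κ f v x) cube := by
    simp_rw [e_al]
    exact (sv1.int.const_mul ν).add (int_mul_cont hf ct2)
  have iP : IntegrableOn (fun x => φ (w x) * (P x * D x)) cube := (sφ.mul (hP.mul sD)).int
  have ih : IntegrableOn h cube := iP.sub (ial.const_mul 2)
  have hroomm : Measurable (room ν κ f v) := by
    have e : room ν κ f v = fun x => ν * (κ * (w x * grad2 v x) + rad2 v x)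
        + f x * (w x * (1 + w x)) := rfl
    rw [e]
    exact (((((sp_const κ).mul (hws.mul sG)).add sR).cont.measurable).const_mul ν).add
      (hfm.mul (hws.cont.mul (continuous_const.add hws.cont)).measurable)
  have hhm : Measurable h :=
    (sφ.cont.measurable.mul (hP.mul sD).cont.measurable).sub
      ((sφ.cont.measurable.mul hroomm).const_mul 2)
  have hroomp : Per (room ν κ f v) := by
    intro i x
    unfold room
    rw [hfp i x, sG.per i x, sR.per i x]
    rw [show sq3 v (x + Pi.single i 1) = sq3 v x from hws.per i x]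
  have hhp : Per h := by
    intro i x
    simp only [hh, hws.per i x, hP.per i x, sD.per i x, hroomp i x]
  -- the function `F`
  set F : V → ℝ := fun x => f x * (1 + w x) + lam * ν * grad2 v x with hF
  have hFm : Measurable F :=
    (hfm.mul (continuous_const.add hws.cont).measurable).add (sG.cont.measurable.const_mul _)
  have hFp : Per F := by
    intro i x
    simp only [hF, hfp i x, hws.per i x, sG.per i x]
  have hFi : IntegrableOn F cube :=
    (int_mul_cont hf (continuous_const.add hws.cont)).add (sG.int.const_mul _)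
  have hF0 : ∀ x, 0 ≤ F x := by
    intro x
    have a1 := hf0 x
    have a2 := hw0 x
    have a3 := grad2_nonneg v x
    simp only [hF]
    positivity
  have key := exc hv hdiv hg hws hw0 hφc.continuous hφ0 hhm hhp ih hFm hFp hFi hF0 hZ
    (fun x _ hD0 => by
      have hD0' : D x = 0 := hD0
      simp only [hh, hD0', mul_zero, zero_sub]
      have := mul_nonneg (hφ0 (w x)) (hroom x)
      linarith)
    (fun x τ hτ hxZ hyZ hlev habv hDx hDy => by
      have hDx' : 0 < D x := hDx
      have hDy' : D (g τ x) < 0 := hDy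
      have gx : 0 < growth v x := by have := hDg x; linarith
      have gy : growth v (g τ x) < 0 := by have := hDg (g τ x); linarith
      have gx' : growth v x ≠ 0 := gx.ne'
      have gy' : growth v (g τ x) ≠ 0 := gy.ne
      have ex : h x / D x = φ (w x) * (P x - room ν κ f v x / growth v x) := by
        simp only [hh]
        rw [hDg x]
        field_simp
      have ey : h (g τ x) / D (g τ x) = φ (w (g τ x)) * (P (g τ x)
          - room ν κ f v (g τ x) / growth v (g τ x)) := by
        simp only [hh]
        rw [hDg (g τ x)]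
        field_simp
      show h x / D x ≤ h (g τ x) / D (g τ x) + φ (w x) * ∫ r in Ioo 0 τ, F (g r x)
      rw [ex, ey, hlev]
      rcases le_or_gt (w x) N with hle | hlt
      · have : φ (w x) = 0 := dpsi_low hN hle
        simp only [this, zero_mul, add_zero, le_refl]
      · have h3 := h2 x τ hτ hxZ hyZ hlev habv hlt gx gy
        rw [← mul_add]
        refine mul_le_mul_of_nonneg_left ?_ (hφ0 (w x))
        have e5 : ∫ r in Ioo 0 τ, F (g r x) = ∫ r in Ioo 0 τ, (f (g r x) * (1 + sq3 v (g r x))
            + lam * ν * grad2 v (g r x)) := rfl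
        rw [e5]
        linarith)
  -- the integral of `F`
  have hprim : ∀ s, ∫ r in (0 : ℝ)..s, φ r = psi N α s - psi N α 0 := fun s =>
    intervalIntegral.integral_deriv_eq_sub
      (fun r _ => ((psi_contDiff hN).differentiable (by norm_cast)) r)
      (hφc.continuous.intervalIntegrable _ _)
  have hFint : ∫ x in cube, F x * ∫ s in (0 : ℝ)..w x, φ s
      ≤ 2 * (∫ x in cube, f x * ze N (w x) ^ (α + 1))
        + lam * ν * ∫ x in cube, psi N α (w x) * grad2 v x := by
    have m1 : IntegrableOn (fun x => 2 * (f x * ze N (w x) ^ (α + 1))) cube :=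
      (int_mul_cont hf sz.cont).const_mul 2
    have m2 : IntegrableOn (fun x => lam * ν * (psi N α (w x) * grad2 v x)) cube :=
      (sψ.mul sG).int.const_mul _
    rw [← integral_const_mul, ← integral_const_mul, ← integral_add m1 m2]
    simp_rw [hprim]
    refine integral_mono (int_mul_cont hFi (sψ.cont.sub continuous_const)) (m1.add m2) fun x => ?_
    show F x * (psi N α (w x) - psi N α 0) ≤ 2 * (f x * ze N (w x) ^ (α + 1))
      + lam * ν * (psi N α (w x) * grad2 v x)
    have a0 := psi_pos (α := α) hN 0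
    have a1 := hf0 x
    have a3 := one_le_ze hN (w x)
    have a4 := ze_ge_self hN (w x)
    have a5 : psi N α (w x) * (1 + w x) ≤ 2 * ze N (w x) ^ (α + 1) := by
      rw [zepow hN]
      have := mul_le_mul_of_nonneg_left (by linarith : 1 + w x ≤ 2 * ze N (w x))
        (psi_pos (α := α) hN (w x)).le
      linarith
    calc F x * (psi N α (w x) - psi N α 0) ≤ F x * psi N α (w x) :=
          mul_le_mul_of_nonneg_left (by linarith) (hF0 x)
      _ = f x * (psi N α (w x) * (1 + w x)) + lam * ν * (psi N α (w x) * grad2 v x) := by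
          simp only [hF]; ring
      _ ≤ f x * (2 * ze N (w x) ^ (α + 1)) + lam * ν * (psi N α (w x) * grad2 v x) := by
          have := mul_le_mul_of_nonneg_left a5 a1
          linarith
      _ = _ := by ring
  -- the allowance
  have halterm : 2 * ∫ x in cube, φ (w x) * room ν κ f v x
      ≤ 2 * α * κ * ν * (∫ x in cube, psi N α (w x) * grad2 v x)
        + 2 * ν * (∫ x in cube, φ (w x) * rad2 v x)
        + 4 * α * ∫ x in cube, f x * ze N (w x) ^ (α + 1) := by
    have j1 : IntegrableOn (fun x => 2 * α * κ * ν * (psi N α (w x) * grad2 v x)) cube :=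
      (sψ.mul sG).int.const_mul _
    have j2 : IntegrableOn (fun x => 2 * ν * (φ (w x) * rad2 v x)) cube :=
      (sφ.mul sR).int.const_mul _
    have j3 : IntegrableOn (fun x => 4 * α * (f x * ze N (w x) ^ (α + 1))) cube :=
      (int_mul_cont hf sz.cont).const_mul _
    have j12 : IntegrableOn (fun x => 2 * α * κ * ν * (psi N α (w x) * grad2 v x)
        + 2 * ν * (φ (w x) * rad2 v x)) cube := j1.add j2
    rw [← integral_const_mul, ← integral_const_mul, ← integral_const_mul, ← integral_const_mul,
      ← integral_add j1 j2, ← integral_add j12 j3]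
    refine integral_mono (ial.const_mul 2) (j12.add j3) fun x => ?_
    show 2 * (φ (w x) * room ν κ f v x) ≤ 2 * α * κ * ν * (psi N α (w x) * grad2 v x)
      + 2 * ν * (φ (w x) * rad2 v x) + 4 * α * (f x * ze N (w x) ^ (α + 1))
    rw [e_al]
    have b1 : w x * φ (w x) ≤ α * psi N α (w x) := dpsi_mul_le hN hα.le (hw0 x)
    have b2 : w x * φ (w x) * grad2 v x ≤ α * psi N α (w x) * grad2 v x :=
      mul_le_mul_of_nonneg_right b1 (grad2_nonneg v x)
    have b3 : ν * κ * (w x * φ (w x) * grad2 v x) ≤ ν * κ * (α * psi N α (w x) * grad2 v x) :=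
      mul_le_mul_of_nonneg_left b2 (mul_nonneg hν hκ)
    have a3 := one_le_ze hN (w x)
    have a4 := ze_ge_self hN (w x)
    have b4 : psi N α (w x) * (1 + w x) ≤ 2 * ze N (w x) ^ (α + 1) := by
      rw [zepow hN]
      have := mul_le_mul_of_nonneg_left (by linarith : 1 + w x ≤ 2 * ze N (w x))
        (psi_pos (α := α) hN (w x)).le
      linarith
    have b5 : φ (w x) * (w x * (1 + w x)) ≤ 2 * α * ze N (w x) ^ (α + 1) := by
      have hw1 : 0 ≤ 1 + w x := by have := hw0 x; linarith
      calc φ (w x) * (w x * (1 + w x)) = (w x * φ (w x)) * (1 + w x) := by ring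
        _ ≤ (α * psi N α (w x)) * (1 + w x) := mul_le_mul_of_nonneg_right b1 hw1
        _ = α * (psi N α (w x) * (1 + w x)) := by ring
        _ ≤ α * (2 * ze N (w x) ^ (α + 1)) := mul_le_mul_of_nonneg_left b4 hα.le
        _ = _ := by ring
    have b6 := mul_le_mul_of_nonneg_left b5 (hf0 x)
    nlinarith [b3, b6]
  -- conclusion
  have e5 : ∫ x in cube, φ (w x) * (P x * D x) = (∫ x in cube, h x)
      + 2 * ∫ x in cube, φ (w x) * room ν κ f v x := by
    have k3 : IntegrableOn (fun x => 2 * (φ (w x) * room ν κ f v x)) cube := ial.const_mul 2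
    rw [← integral_const_mul, ← integral_add ih k3]
    congr 1
    funext x
    simp only [hh]
    ring
  rw [e5]
  linarith

end Pool.Agent.TH811.SPD
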