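import Pool.Agent.TH811.SPD.Defs3
import Pool.Agent.TH811.SPD.Prod
import Pool.Agent.TH811.SPD.Pot
import Pool.Agent.TH811.SPD.Str6

/-!
The bound of the pressure term from the comparison along streamlines, with the full dissipation.
-/

open MeasureTheory Set Filter Topology
open scoped ENNReal
open H459R3.NS Pool.Agent.W268.NS Pool.Agent.GR.Flow

namespace Pool.Agent.TH811.SPD

/-- The bound of the pressure term. -/
theorem press_end {N α ν κ₁ κ₂ lam : ℝ} (hN : 0 ≤ N) (hα : 0 < α) (hν : 0 ≤ ν) (hκ₁ : 0 ≤ κ₁)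
    (hκ₂ : 0 ≤ κ₂) (hlam : 0 ≤ lam) {v : V → V} (hv : ∀ i, SP (fun y => v y i))
    (hdiv : ∀ x, ∑ i, pd i (fun y => v y i) x = 0) {g : ℝ → V → V} (hg : IsFlowOf v g)
    {P f : V → ℝ} (hP : SP P) (hfm : Measurable f) (hfp : Per f) (hf : IntegrableOn f cube)
    (hf0 : ∀ x, 0 ≤ f x) {Z : Set V} (hZ : volume Z = 0)
    (h2 : ∀ x τ, 0 < τ → x ∉ Z → g τ x ∉ Z → sq3 v (g τ x) = sq3 v x →
      (∀ r ∈ Ioo 0 τ, sq3 v x < sq3 v (g r x)) → N < sq3 v x → 0 < growth v x →
      growth v (g τ x) < 0 → P x ≤ P (g τ x) + endTerm ν κ₁ κ₂ f v x / growth v x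
        - endTerm ν κ₁ κ₂ f v (g τ x) / growth v (g τ x)
        + ∫ r in Ioo 0 τ, (f (g r x) * (1 + sq3 v (g r x)) + lam * ν * grad2 v (g r x))) :
    ∫ x in cube, deriv (psi N α) (sq3 v x) * (P x * adv v (sq3 v) x)
      ≤ (2 * α * κ₁ + lam) * ν * (∫ x in cube, psi N α (sq3 v x) * grad2 v x)
        + 2 * κ₂ * ν * (∫ x in cube, deriv (psi N α) (sq3 v x) * rad2 v x)
        + (4 * α + 2) * (∫ x in cube, f x * ze N (sq3 v x) ^ (α + 1)) := by
  have := cube_fin
  set w : V → ℝ := sq3 v with hw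
  have hws : SP w := sp_sq3 hv
  have hw0 : ∀ x, 0 ≤ w x := sq3_nonneg v
  set φ : ℝ → ℝ := deriv (psi N α) with hφ
  have hφc : ContDiff ℝ (⊤ : ℕ∞) φ := dpsi_contDiff hN
  have hφ0 : ∀ s, 0 ≤ φ s := fun s => dpsi_nonneg hN hα.le s
  have sφ : SP (fun x => φ (w x)) := sp_comp hws hφc
  have sψ : SP (fun x => psi N α (w x)) := sp_comp hws (psi_contDiff hN)
  have sz : SP (fun x => ze N (w x) ^ (α + 1)) := sp_comp hws (rpow_ze_contDiff hN _)
  have sG : SP (grad2 v) := sp_grad2 hv
  have sR : SP (rad2 v) := sp_rad2 hv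
  have sD : SP (adv v w) := sp_adv hv hws
  set D : V → ℝ := adv v w with hD
  have hDg : ∀ x, D x = 2 * growth v x := adv_sq3 hv
  have hroom : ∀ x, 0 ≤ endTerm ν κ₁ κ₂ f v x := by
    intro x
    unfold endTerm
    have a1 := hw0 x
    have a2 := grad2_nonneg v x
    have a3 := rad2_nonneg v x
    have a4 := hf0 x
    have a5 : 0 ≤ sq3 v x := a1
    positivity
  -- the function `h`
  set h : V → ℝ := fun x => φ (w x) * (P x * D x) - 2 * (φ (w x) * endTerm ν κ₁ κ₂ f v x) with hh
  have e_al : ∀ x, φ (w x) * endTerm ν κ₁ κ₂ f v x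
      = ν * (φ (w x) * (κ₁ * (w x * grad2 v x) + κ₂ * rad2 v x))
        + f x * (φ (w x) * (w x * (1 + w x))) := by
    intro x; unfold endTerm; ring
  have sK : SP (fun x => κ₁ * (w x * grad2 v x) + κ₂ * rad2 v x) :=
    ((sp_const κ₁).mul (hws.mul sG)).add ((sp_const κ₂).mul sR)
  have sv1 : SP (fun x => φ (w x) * (κ₁ * (w x * grad2 v x) + κ₂ * rad2 v x)) := sφ.mul sK
  have ct2 : Continuous (fun x => φ (w x) * (w x * (1 + w x))) :=
    sφ.cont.mul (hws.cont.mul (continuous_const.add hws.cont))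
  have ial : IntegrableOn (fun x => φ (w x) * endTerm ν κ₁ κ₂ f v x) cube := by
    simp_rw [e_al]
    exact (sv1.int.const_mul ν).add (int_mul_cont hf ct2)
  have iP : IntegrableOn (fun x => φ (w x) * (P x * D x)) cube := (sφ.mul (hP.mul sD)).int
  have ih : IntegrableOn h cube := iP.sub (ial.const_mul 2)
  have hroomm : Measurable (endTerm ν κ₁ κ₂ f v) := by
    have e : endTerm ν κ₁ κ₂ f v = fun x => ν * (κ₁ * (w x * grad2 v x) + κ₂ * rad2 v x)
        + f x * (w x * (1 + w x)) := rfl
    rw [e]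
    exact (sK.cont.measurable.const_mul ν).add
      (hfm.mul (hws.cont.mul (continuous_const.add hws.cont)).measurable)
  have hhm : Measurable h :=
    (sφ.cont.measurable.mul (hP.mul sD).cont.measurable).sub
      ((sφ.cont.measurable.mul hroomm).const_mul 2)
  have hroomp : Per (endTerm ν κ₁ κ₂ f v) := by
    intro i x
    unfold endTerm
    rw [hfp i x, sG.per i x, sR.per i x]
    rw [show sq3 v (x + Pi.single i 1) = sq3 v x from hws.per i x]
  have hhp : Per h := by
    intro i x
    simp only [hh, hws.per i x, hP.per i x, sD.per i x, hroomp i x]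
  -- the function `F`
  set F : V → ℝ := fun x => f x * (1 + w x) + lam * ν * grad2 v x with hF
  have hFm : Measurable F :=
    (hfm.mul (continuous_const.add hws.cont).measurable).add (sG.cont.measurable.const_mul _)
  have hFp : Per F := by
    intro i x
    simp only [hF, hfp i x, hws.per i x, sG.per i x]
  have hFi : IntegrableOn F cube :=
    (int_mul_cont hf (continuous_const.add hws.cont)).add (sG.int.const_mul _)
  have hF0 : ∀ x, 0 ≤ F x := by
    intro x
    have a1 := hf0 x
    have a2 := hw0 x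
    have a3 := grad2_nonneg v x
    simp only [hF]
    positivity
  have key := exc hv hdiv hg hws hw0 hφc.continuous hφ0 hhm hhp ih hFm hFp hFi hF0 hZ
    (fun x _ hD0 => by
      have hD0' : D x = 0 := hD0
      simp only [hh, hD0', mul_zero, zero_sub]
      have := mul_nonneg (hφ0 (w x)) (hroom x)
      linarith)
    (fun x τ hτ hxZ hyZ hlev habv hDx hDy => by
      have hDx' : 0 < D x := hDx
      have hDy' : D (g τ x) < 0 := hDy
      have gx : 0 < growth v x := by have := hDg x; linarith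
      have gy : growth v (g τ x) < 0 := by have := hDg (g τ x); linarith
      have gx' : growth v x ≠ 0 := gx.ne'
      have gy' : growth v (g τ x) ≠ 0 := gy.ne
      have ex : h x / D x = φ (w x) * (P x - endTerm ν κ₁ κ₂ f v x / growth v x) := by
        simp only [hh]
        rw [hDg x]
        field_simp
      have ey : h (g τ x) / D (g τ x) = φ (w (g τ x)) * (P (g τ x)
          - endTerm ν κ₁ κ₂ f v (g τ x) / growth v (g τ x)) := by
        simp only [hh]
        rw [hDg (g τ x)]
        field_simp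
      show h x / D x ≤ h (g τ x) / D (g τ x) + φ (w x) * ∫ r in Ioo 0 τ, F (g r x)
      rw [ex, ey, hlev]
      rcases le_or_gt (w x) N with hle | hlt
      · have : φ (w x) = 0 := dpsi_low hN hle
        simp only [this, zero_mul, add_zero, le_refl]
      · have h3 := h2 x τ hτ hxZ hyZ hlev habv hlt gx gy
        rw [← mul_add]
        refine mul_le_mul_of_nonneg_left ?_ (hφ0 (w x))
        have e5 : ∫ r in Ioo 0 τ, F (g r x) = ∫ r in Ioo 0 τ, (f (g r x) * (1 + sq3 v (g r x))
            + lam * ν * grad2 v (g r x)) := rfl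
        rw [e5]
        linarith)
  -- the integral of `F`
  have hprim : ∀ s, ∫ r in (0 : ℝ)..s, φ r = psi N α s - psi N α 0 := fun s =>
    intervalIntegral.integral_deriv_eq_sub
      (fun r _ => ((psi_contDiff hN).differentiable (by norm_cast)) r)
      (hφc.continuous.intervalIntegrable _ _)
  have hFint : ∫ x in cube, F x * ∫ s in (0 : ℝ)..w x, φ s
      ≤ 2 * (∫ x in cube, f x * ze N (w x) ^ (α + 1))
        + lam * ν * ∫ x in cube, psi N α (w x) * grad2 v x := by
    have m1 : IntegrableOn (fun x => 2 * (f x * ze N (w x) ^ (α + 1))) cube :=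
      (int_mul_cont hf sz.cont).const_mul 2
    have m2 : IntegrableOn (fun x => lam * ν * (psi N α (w x) * grad2 v x)) cube :=
      (sψ.mul sG).int.const_mul _
    rw [← integral_const_mul, ← integral_const_mul, ← integral_add m1 m2]
    simp_rw [hprim]
    refine integral_mono (int_mul_cont hFi (sψ.cont.sub continuous_const)) (m1.add m2) fun x => ?_
    show F x * (psi N α (w x) - psi N α 0) ≤ 2 * (f x * ze N (w x) ^ (α + 1))
      + lam * ν * (psi N α (w x) * grad2 v x)
    have a0 := psi_pos (α := α) hN 0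
    have a1 := hf0 x
    have a3 := one_le_ze hN (w x)
    have a4 := ze_ge_self hN (w x)
    have a5 : psi N α (w x) * (1 + w x) ≤ 2 * ze N (w x) ^ (α + 1) := by
      rw [zepow hN]
      have := mul_le_mul_of_nonneg_left (by linarith : 1 + w x ≤ 2 * ze N (w x))
        (psi_pos (α := α) hN (w x)).le
      linarith
    calc F x * (psi N α (w x) - psi N α 0) ≤ F x * psi N α (w x) :=
          mul_le_mul_of_nonneg_left (by linarith) (hF0 x)
      _ = f x * (psi N α (w x) * (1 + w x)) + lam * ν * (psi N α (w x) * grad2 v x) := by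
          simp only [hF]; ring
      _ ≤ f x * (2 * ze N (w x) ^ (α + 1)) + lam * ν * (psi N α (w x) * grad2 v x) := by
          have := mul_le_mul_of_nonneg_left a5 a1
          linarith
      _ = _ := by ring
  -- the terms at the end points
  have halterm : 2 * ∫ x in cube, φ (w x) * endTerm ν κ₁ κ₂ f v x
      ≤ 2 * α * κ₁ * ν * (∫ x in cube, psi N α (w x) * grad2 v x)
        + 2 * κ₂ * ν * (∫ x in cube, φ (w x) * rad2 v x)
        + 4 * α * ∫ x in cube, f x * ze N (w x) ^ (α + 1) := by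
    have j1 : IntegrableOn (fun x => 2 * α * κ₁ * ν * (psi N α (w x) * grad2 v x)) cube :=
      (sψ.mul sG).int.const_mul _
    have j2 : IntegrableOn (fun x => 2 * κ₂ * ν * (φ (w x) * rad2 v x)) cube :=
      (sφ.mul sR).int.const_mul _
    have j3 : IntegrableOn (fun x => 4 * α * (f x * ze N (w x) ^ (α + 1))) cube :=
      (int_mul_cont hf sz.cont).const_mul _
    have j12 : IntegrableOn (fun x => 2 * α * κ₁ * ν * (psi N α (w x) * grad2 v x)
        + 2 * κ₂ * ν * (φ (w x) * rad2 v x)) cube := j1.add j2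
    rw [← integral_const_mul, ← integral_const_mul, ← integral_const_mul, ← integral_const_mul,
      ← integral_add j1 j2, ← integral_add j12 j3]
    refine integral_mono (ial.const_mul 2) (j12.add j3) fun x => ?_
    show 2 * (φ (w x) * endTerm ν κ₁ κ₂ f v x) ≤ 2 * α * κ₁ * ν * (psi N α (w x) * grad2 v x)
      + 2 * κ₂ * ν * (φ (w x) * rad2 v x) + 4 * α * (f x * ze N (w x) ^ (α + 1))
    rw [e_al]
    have b1 : w x * φ (w x) ≤ α * psi N α (w x) := dpsi_mul_le hN hα.le (hw0 x)
    have b2 : w x * φ (w x) * grad2 v x ≤ α * psi N α (w x) * grad2 v x :=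
      mul_le_mul_of_nonneg_right b1 (grad2_nonneg v x)
    have b3 : ν * κ₁ * (w x * φ (w x) * grad2 v x) ≤ ν * κ₁ * (α * psi N α (w x) * grad2 v x) :=
      mul_le_mul_of_nonneg_left b2 (mul_nonneg hν hκ₁)
    have a3 := one_le_ze hN (w x)
    have a4 := ze_ge_self hN (w x)
    have b4 : psi N α (w x) * (1 + w x) ≤ 2 * ze N (w x) ^ (α + 1) := by
      rw [zepow hN]
      have := mul_le_mul_of_nonneg_left (by linarith : 1 + w x ≤ 2 * ze N (w x))
        (psi_pos (α := α) hN (w x)).le
      linarith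
    have b5 : φ (w x) * (w x * (1 + w x)) ≤ 2 * α * ze N (w x) ^ (α + 1) := by
      have hw1 : 0 ≤ 1 + w x := by have := hw0 x; linarith
      calc φ (w x) * (w x * (1 + w x)) = (w x * φ (w x)) * (1 + w x) := by ring
        _ ≤ (α * psi N α (w x)) * (1 + w x) := mul_le_mul_of_nonneg_right b1 hw1
        _ = α * (psi N α (w x) * (1 + w x)) := by ring
        _ ≤ α * (2 * ze N (w x) ^ (α + 1)) := mul_le_mul_of_nonneg_left b4 hα.le
        _ = _ := by ring
    have b6 := mul_le_mul_of_nonneg_left b5 (hf0 x)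
    nlinarith [b3, b6]
  -- conclusion
  have e5 : ∫ x in cube, φ (w x) * (P x * D x) = (∫ x in cube, h x)
      + 2 * ∫ x in cube, φ (w x) * endTerm ν κ₁ κ₂ f v x := by
    have k3 : IntegrableOn (fun x => 2 * (φ (w x) * endTerm ν κ₁ κ₂ f v x)) cube := ial.const_mul 2
    rw [← integral_const_mul, ← integral_add ih k3]
    congr 1
    funext x
    simp only [hh]
    ring
  rw [e5]
  linarith

/-- Functions in `L^p`, `p > 3 / 2`, are form-bounded with small constants. -/
theorem lp_form {p : ℝ≥0∞} (hp : 3 / 2 < p) {ε : ℝ} (hε : 0 < ε) :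
    ∃ D : ℝ, 0 ≤ D ∧ ∀ (f : V → ℝ) (β : ℝ),
      AEStronglyMeasurable f (volume.restrict cube) → 0 ≤ β →
      eLpNorm f p (volume.restrict cube) ≤ ENNReal.ofReal β → (∀ x, 0 ≤ f x) →
      IntegrableOn f cube ∧ FormBound ε (D * (β + β ^ (2 / (2 - th p)))) f := by
  obtain ⟨C1, hC10, hC1⟩ := pot_of_Lp hp
  obtain ⟨D1, hD10, hD1⟩ := young2 (θ := th p) (ε := ε / 2) (c := C1)
    (th_nonneg p) (th_lt_two hp) (by positivity) hC10
  refine ⟨2 + 2 * D1, by positivity, fun f β hf hβ hfβ hf0 => ?_⟩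
  have := cube_fin
  have hprob : IsProbabilityMeasure (volume.restrict cube) := ⟨by
    rw [Measure.restrict_apply_univ, volume_cube]⟩
  have hp1 : 1 ≤ p := by
    refine le_trans ?_ hp.le
    rw [ENNReal.le_div_iff_mul_le (by norm_num) (by norm_num)]
    norm_num
  have hLp : MemLp f p (volume.restrict cube) := ⟨hf, hfβ.trans_lt ENNReal.ofReal_lt_top⟩
  have hfi : IntegrableOn f cube := hLp.integrable hp1
  refine ⟨hfi, fun z hzs => ?_⟩
  have hfI : ∫ x in cube, f x ≤ β := by
    have h1 : ENNReal.ofReal (∫ x in cube, f x) ≤ ENNReal.ofReal β := by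
      rw [ofReal_integral_eq_lintegral_ofReal hfi (Filter.Eventually.of_forall hf0)]
      refine le_trans ?_ ((eLpNorm_le_eLpNorm_of_exponent_le hp1 hf).trans hfβ)
      rw [eLpNorm_one_eq_lintegral_enorm]
      refine lintegral_mono fun x => ?_
      rw [← ofReal_norm, Real.norm_eq_abs, abs_of_nonneg (hf0 x)]
    exact (ENNReal.ofReal_le_ofReal_iff hβ).1 h1
  set m := ∫ y in cube, z y with hm
  set g : V → ℝ := fun x => z x - m with hg
  have hgs : SP g := SP.sub' hzs (sp_const m)
  have hg0 : ∫ x in cube, g x = 0 := by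
    simp only [hg]
    rw [integral_sub hzs.int (sp_const m).int, int_const_cube, ← hm, sub_self]
  have hpot := hC1 f β g hf hβ hfβ hgs hg0
  -- norms
  have hnrm : nrm g ^ 2 ≤ nrm z ^ 2 := by
    rw [nrm_sq, nrm_sq]
    have e : ∀ x, g x ^ 2 = z x ^ 2 - (2 * m * z x - m ^ 2) := fun x => by
      simp only [hg]; ring
    simp_rw [e]
    have i1 : IntegrableOn (fun x => z x ^ 2) cube := integrableOn_cube (hzs.cont.pow 2)
    have i2 : IntegrableOn (fun x => 2 * m * z x) cube := hzs.int.const_mul _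
    have i3 : IntegrableOn (fun _ : V => m ^ 2) cube := (sp_const _).int
    have i4 : IntegrableOn (fun x => 2 * m * z x - m ^ 2) cube := i2.sub i3
    rw [integral_sub i1 i4, integral_sub i2 i3, integral_const_mul, ← hm, int_const_cube]
    nlinarith [sq_nonneg m]
  have hgrd : grd g ^ 2 = ∫ x in cube, ∑ j, pd j z x ^ 2 := by
    have ij : ∀ j, IntegrableOn (fun x => pd j g x ^ 2) cube := fun j =>
      integrableOn_cube ((hgs.pd j).cont.pow 2)
    rw [grd_sq, ← integral_finsetSum _ fun j _ => ij j]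
    congr 1
    funext x
    refine Finset.sum_congr rfl fun j _ => ?_
    have a1 : pd j g x = pd j z x - pd j (fun _ => m) x := pd_sub hzs (sp_const m) j x
    have a2 : pd j (fun _ : V => m) x = 0 := by unfold pd; simp
    rw [a1, a2, sub_zero]
  have hY := hD1 β (nrm g) (grd g) hβ (nrm_nonneg _) (grd_nonneg _)
  have hc : ∫ x in cube, f x * ((z x - ∫ y in cube, z y) * (z x - ∫ y in cube, z y))
      ≤ (ε / 2) * (∫ x in cube, ∑ j, pd j z x ^ 2)
        + D1 * (β ^ (2 / (2 - th p)) * nrm z ^ 2) := by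
    have h1 := (le_abs_self _).trans hpot
    refine h1.trans ?_
    have h3 : C1 * β * (nrm g ^ (2 - th p) * grd g ^ th p)
        = C1 * (β * (nrm g ^ (2 - th p) * grd g ^ th p)) := by ring
    rw [h3, ← hgrd]
    refine hY.trans (add_le_add le_rfl ?_)
    have := Real.rpow_nonneg hβ (2 / (2 - th p))
    gcongr
  have hfin := mean_split hzs hfi hf0 hfI hc
  rw [nrm_sq] at hfin
  refine hfin.trans ?_
  have hI0 : 0 ≤ ∫ x in cube, z x ^ 2 := integral_nonneg fun x => sq_nonneg _
  have hβq := Real.rpow_nonneg hβ (2 / (2 - th p))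
  have c1 : 0 ≤ D1 * (β * ∫ x in cube, z x ^ 2) := by positivity
  have c2 : 0 ≤ β ^ (2 / (2 - th p)) * ∫ x in cube, z x ^ 2 := by positivity
  nlinarith

theorem FormBound.add {a b a' b' : ℝ} {f f' : V → ℝ} (hf : FormBound a b f)
    (hf' : FormBound a' b' f') (hi : IntegrableOn f cube) (hi' : IntegrableOn f' cube) :
    FormBound (a + a') (b + b') (fun x => f x + f' x) := by
  intro z hz
  have h1 := hf z hz
  have h2 := hf' z hz
  have e : ∫ x in cube, (f x + f' x) * z x ^ 2
      = (∫ x in cube, f x * z x ^ 2) + ∫ x in cube, f' x * z x ^ 2 := by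
    have i1 : IntegrableOn (fun x => f x * z x ^ 2) cube := int_mul_cont hi (hz.cont.pow 2)
    have i2 : IntegrableOn (fun x => f' x * z x ^ 2) cube := int_mul_cont hi' (hz.cont.pow 2)
    rw [← integral_add i1 i2]
    congr 1
    funext x
    ring
  rw [e]
  linarith

/-- The potential term, the gradient being bounded in two ways. -/
theorem form_end {N α a b : ℝ} (hN : 0 ≤ N) (hα : 0 < α) {f : V → ℝ}
    (hf : FormBound a b f) {v : V → V} (hv : ∀ i, SP (fun y => v y i)) : ∃ Q : ℝ, 0 ≤ Q ∧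
    ∫ x in cube, f x * ze N (sq3 v x) ^ (α + 1)
      ≤ a * Q + b * ∫ x in cube, ze N (sq3 v x) ^ (α + 1) ∧
    Q ≤ (α + 1) ^ 2 * (∫ x in cube, psi N α (sq3 v x) * grad2 v x) ∧
    α * Q ≤ (α + 1) ^ 2 * (∫ x in cube, deriv (psi N α) (sq3 v x) * rad2 v x) := by
  set w : V → ℝ := sq3 v with hw
  have hws : SP w := sp_sq3 hv
  set z : V → ℝ := fun x => ze N (w x) ^ ((α + 1) / 2) with hz
  have hzs : SP z := sp_comp hws (rpow_ze_contDiff hN _)
  have hz2 : ∀ x, z x ^ 2 = ze N (w x) ^ (α + 1) := by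
    intro x
    simp only [hz]
    rw [← Real.rpow_natCast, ← Real.rpow_mul (ze_pos hN _).le]
    congr 1
    push_cast
    ring
  have h1 := hf z hzs
  simp_rw [hz2] at h1
  have ij : ∀ j, IntegrableOn (fun x => pd j z x ^ 2) cube := fun j =>
    integrableOn_cube ((hzs.pd j).cont.pow 2)
  have hgr : ∀ x, ∑ j, pd j z x ^ 2
      = (α + 1) ^ 2 * (ze N (w x) ^ (α - 1) * (tau N (w x) ^ 2 * rad2 v x)) := by
    intro x
    have e1 : ∀ j, pd j z x = (α + 1) / 2 * ze N (w x) ^ ((α + 1) / 2 - 1) * tau N (w x)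
        * pd j w x := by
      intro j
      have a3 : pd j z x = deriv (fun s => ze N s ^ ((α + 1) / 2)) (w x) * pd j w x :=
        pd_comp hws (rpow_ze_contDiff hN _) j x
      rw [a3, (rpow_ze_hasDerivAt hN _ _).deriv]
    have e2 : ∑ j, pd j w x ^ 2 = 4 * rad2 v x := by
      unfold rad2
      rw [Finset.mul_sum]
      refine Finset.sum_congr rfl fun j _ => ?_
      rw [hw, pd_sq3 hv]
      ring
    simp_rw [e1, mul_pow]
    rw [← Finset.mul_sum, e2]
    have hzp := ze_pos hN (w x)
    have e3 : (ze N (w x) ^ ((α + 1) / 2 - 1)) ^ 2 = ze N (w x) ^ (α - 1) := by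
      rw [← Real.rpow_natCast, ← Real.rpow_mul hzp.le]
      congr 1
      push_cast
      ring
    rw [e3]
    ring
  refine ⟨∫ x in cube, ∑ j, pd j z x ^ 2,
    integral_nonneg fun x => Finset.sum_nonneg fun j _ => sq_nonneg _, h1, ?_, ?_⟩
  · rw [← integral_const_mul]
    refine integral_mono (integrable_finsetSum _ fun j _ => ij j)
      (((sp_comp hws (psi_contDiff hN)).mul (sp_grad2 hv)).int.const_mul _) fun x => ?_
    show ∑ j, pd j z x ^ 2 ≤ (α + 1) ^ 2 * (psi N α (w x) * grad2 v x)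
    rw [hgr]
    have hzp := ze_pos hN (w x)
    have e4 : psi N α (w x) = ze N (w x) ^ (α - 1) * ze N (w x) := by
      unfold psi
      rw [Real.rpow_sub_one hzp.ne']
      field_simp
    rw [e4, mul_assoc (ze N (w x) ^ (α - 1))]
    have t2 : tau N (w x) ^ 2 ≤ 1 := pow_le_one₀ (tau_nonneg N (w x)) (tau_le_one N (w x))
    have z1 := ze_ge_self hN (w x)
    have b1 : tau N (w x) ^ 2 * rad2 v x ≤ ze N (w x) * grad2 v x :=
      calc tau N (w x) ^ 2 * rad2 v x ≤ 1 * rad2 v x :=
            mul_le_mul_of_nonneg_right t2 (rad2_nonneg v x)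
        _ = rad2 v x := one_mul _
        _ ≤ w x * grad2 v x := rad2_le v x
        _ ≤ ze N (w x) * grad2 v x := mul_le_mul_of_nonneg_right z1 (grad2_nonneg v x)
    gcongr
  · rw [← integral_const_mul, ← integral_const_mul]
    refine integral_mono ((integrable_finsetSum _ fun j _ => ij j).const_mul _)
      (((sp_comp hws (dpsi_contDiff hN)).mul (sp_rad2 hv)).int.const_mul _) fun x => ?_
    show α * ∑ j, pd j z x ^ 2 ≤ (α + 1) ^ 2 * (deriv (psi N α) (w x) * rad2 v x)
    rw [hgr, psi_deriv hN]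
    have hzp := ze_pos hN (w x)
    have t0 := tau_nonneg N (w x)
    have t1 := tau_le_one N (w x)
    have t2 : tau N (w x) ^ 2 ≤ tau N (w x) := by nlinarith
    have b1 : tau N (w x) ^ 2 * rad2 v x ≤ tau N (w x) * rad2 v x :=
      mul_le_mul_of_nonneg_right t2 (rad2_nonneg v x)
    have b2 : 0 ≤ α * (α + 1) ^ 2 * ze N (w x) ^ (α - 1) := by positivity
    have b3 := mul_le_mul_of_nonneg_left b1 b2
    calc α * ((α + 1) ^ 2 * (ze N (w x) ^ (α - 1) * (tau N (w x) ^ 2 * rad2 v x)))
        = α * (α + 1) ^ 2 * ze N (w x) ^ (α - 1) * (tau N (w x) ^ 2 * rad2 v x) := by ring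
      _ ≤ _ := b3
      _ = _ := by ring

end Pool.Agent.TH811.SPD
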