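import Pool.Agent.TH811.SPD.Str10

/-!
A regularity criterion for the three-dimensional Navier-Stokes equations on the torus which
compares the pressure at the two end points of the excursions of the speed along streamlines.
-/

open MeasureTheory Set H459R3.NS Pool.Agent.TH811.SPD
open scoped ENNReal

set_option autoImplicit false

namespace Pool.Agent.TH811.SPD.Streamlines

/-- Let `3/2 < p ≤ ∞`, `3/p + 2/q = 2`, `ν > 0` and `κ₁, κ₂, lam, δ ≥ 0` with `κ₂ ≤ 1`,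
`κ₁ + lam < 1` (or `κ₁ = 0`, `lam = 1`) and `κ₁ + κ₂ + lam + 9 δ < 2`, let `M` be real, and let
`(u, P)` be a smooth `1`-periodic solution of the Navier-Stokes equations with viscosity `ν` on
`[0, T) × ℝ³`. Let `β^q` and `γ` be integrable on `(0, T)`. Suppose that for almost every
`t ∈ (0, T)` there are periodic Borel functions `f₁, f₂ ≥ 0`, with `L^p` norm of `f₁` at most `β(t)`
and `∫ f₂ z² ≤ δ ν ∫ |∇z|² + γ(t) ∫ z²` for all smooth periodic `z`, and a null set `Z`, such that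
for every excursion `X : [0, τ] → ℝ³` of the speed above a value `> M` along a streamline of `u(t)`,
with entry point `x = X(0)` and exit point `y = X(τ)` outside `Z`,
`P(x) ≤ P(y) + E(x)/a(x) - E(y)/a(y) + ∫₀^τ (f (1 + |u|²) + lam ν |∇u|²)(X(r)) dr`,
where `f = f₁ + f₂`, `a = u · ∇ (|u|² / 2)`, which is positive at `x` and negative at `y`, and
`E = ν (κ₁ |u|² |∇u|² + κ₂ |∇ (|u|² / 2)|²) + f |u|² (1 + |u|²)`.
Then `u` is bounded on `[0, T) × ℝ³`. -/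
theorem result {p : ℝ≥0∞} (hp : 3 / 2 < p) {q : ℝ} (hpq : 3 * (p⁻¹).toReal + 2 / q = 2)
    {ν κ₁ κ₂ lam δ M : ℝ} (hν : 0 < ν) (hκ₁ : 0 ≤ κ₁) (hκ₂ : 0 ≤ κ₂) (hlam : 0 ≤ lam)
    (_hδ : 0 ≤ δ) (h1 : κ₂ ≤ 1) (h2 : κ₁ + lam < 1 ∨ κ₁ = 0 ∧ lam = 1)
    (h3 : κ₁ + κ₂ + lam + 9 * δ < 2) {T : ℝ} {u : ℝ → V → V} {P : ℝ → V → ℝ}
    (h : IsSol ν T u P) {β γ : ℝ → ℝ} (hβ : IntegrableOn (fun t => β t ^ q) (Ioo 0 T))
    (hγ : IntegrableOn γ (Ioo 0 T))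
    (hcomp : ∀ᵐ t ∂(volume.restrict (Ioo 0 T)), 0 ≤ β t ∧ ∃ (f₁ f₂ : V → ℝ) (Z : Set V),
      Measurable f₁ ∧ Per f₁ ∧ (∀ x, 0 ≤ f₁ x) ∧
      eLpNorm f₁ p (volume.restrict cube) ≤ ENNReal.ofReal (β t) ∧
      Measurable f₂ ∧ Per f₂ ∧ (∀ x, 0 ≤ f₂ x) ∧ IntegrableOn f₂ cube ∧
      FormBound (δ * ν) (γ t) f₂ ∧ volume Z = 0 ∧
      ∀ (X : ℝ → V) (τ : ℝ), Excursion (u t) M X τ → X 0 ∉ Z → X τ ∉ Z →
        P t (X 0) ≤ P t (X τ)
          + endTerm ν κ₁ κ₂ (fun x => f₁ x + f₂ x) (u t) (X 0) / growth (u t) (X 0)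
          - endTerm ν κ₁ κ₂ (fun x => f₁ x + f₂ x) (u t) (X τ) / growth (u t) (X τ)
          + ∫ r in Ioo 0 τ, ((f₁ (X r) + f₂ (X r)) * (1 + speed (u t) (X r) ^ 2)
            + lam * ν * grad2 (u t) (X r))) :
    ∃ C, ∀ t ∈ Ico 0 T, ∀ x i, |u t x i| ≤ C := by
  obtain ⟨η, hη, hη1⟩ : ∃ η : ℝ, 0 < η ∧ (1 + η) * κ₁ + lam ≤ 1 := by
    rcases h2 with h2 | ⟨h4, h5⟩
    · refine ⟨(1 - (κ₁ + lam)) / (κ₁ + 1), by apply div_pos <;> linarith, ?_⟩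
      have h6 : (1 - (κ₁ + lam)) / (κ₁ + 1) * κ₁ ≤ 1 - (κ₁ + lam) := by
        rw [div_mul_eq_mul_div, div_le_iff₀ (by linarith)]
        nlinarith
      linarith
    · exact ⟨1, one_pos, by rw [h4, h5]; norm_num⟩
  exact criterion_end hp hpq hν hκ₁ hκ₂ h1 hlam hη hη1 h3 h hβ hγ hcomp

end Pool.Agent.TH811.SPD.Streamlines
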