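import Pool.Agent.W268.NS.TwoPt
import Pool.Agent.TH811.SPD.Part3

/-!
A two-point condition, with a modulus of continuity, which makes the integral of a function
nonpositive up to a term controlled by the modulus.
-/

open MeasureTheory Set Filter Topology
open scoped ENNReal
open H459R3.NS Pool.Agent.W268.NS

namespace Pool.Agent.TH811.SPD

variable {v : V → V} (hv : ∀ i, SP (fun y => v y i))
  (hdiv : ∀ x, ∑ i, pd i (fun y => v y i) x = 0) {w : V → ℝ} (hw : SP w)

/-- The separating functions. -/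
theorem exists_sep' {D : V → ℝ} (hDc : Continuous D) (hw : SP w) {L : ℝ → ℝ} (hL : Continuous L)
    (hL0 : ∀ s, 0 ≤ L s) {h : V → ℝ} (hh : IntegrableOn h cube) {Z : Set V} (hZ : volume Z = 0)
    (h2 : ∀ x ∈ cube \ Z, ∀ y ∈ cube \ Z, w x = w y → 0 < D x → D y < 0 →
      h x / D x ≤ h y / D y + L (w x) * tdist x y) :
    ∃ K : V → ℝ → EReal, (∀ x, Measurable (K x)) ∧
      (∀ x y s, K x s ≤ K y s + ((L s * tdist x y : ℝ) : EReal)) ∧
      (∀ᵐ x ∂(volume.restrict cube), 0 < D x → ((h x / D x : ℝ) : EReal) ≤ K x (w x)) ∧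
      (∀ x ∈ cube \ Z, D x < 0 → K x (w x) ≤ ((h x / D x : ℝ) : EReal)) := by
  set A : ℚ → Set V := fun c => (cube \ Z) ∩ {x | 0 < D x ∧ (c : ℝ) < h x / D x} with hA
  have hAn : ∀ c, NullMeasurableSet (A c) volume := by
    intro c
    obtain ⟨h', hm', he'⟩ := hh.aestronglyMeasurable
    have hm'' := hm'.measurable
    have hB : MeasurableSet (cube ∩ {x | 0 < D x ∧ (c : ℝ) < h' x / D x}) := by
      refine measurableSet_cube.inter (MeasurableSet.inter (s₁ := {x | 0 < D x})
        (s₂ := {x | (c : ℝ) < h' x / D x}) ?_ ?_)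
      · exact measurableSet_lt measurable_const hDc.measurable
      · exact measurableSet_lt measurable_const (hm''.div hDc.measurable)
    refine hB.nullMeasurableSet.congr ?_
    have he : ∀ᵐ x ∂(volume : Measure V), x ∈ cube → h x = h' x :=
      (ae_restrict_iff' measurableSet_cube).1 he'
    have hz : ∀ᵐ x ∂(volume : Measure V), x ∉ Z := measure_eq_zero_iff_ae_notMem.1 hZ
    filter_upwards [he, hz] with x hx hxz
    refine propext ⟨fun ⟨a, b, c⟩ => ⟨⟨a, hxz⟩, b, ?_⟩, fun ⟨⟨a, _⟩, b, c⟩ => ⟨a, b, ?_⟩⟩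
    · rw [hx a]; exact c
    · rw [← hx a]; exact c
  have hAf : ∀ c, volume (A c) ≠ ∞ := fun c =>
    ne_top_of_le_ne_top isCompact_Icc.measure_lt_top.ne
      (measure_mono (t := cube) fun x hx => hx.1.1)
  choose F hFc hFA hF0 using fun c => exists_sigma_compact (hAn c) (hAf c)
  set G : V → ℚ → ℚ → ℕ → Set V := fun x q c n =>
    F c n ∩ {z | (q : ℝ) ≤ c - L (w z) * tdist x z} with hG
  have hGc : ∀ x q c n, IsCompact (G x q c n) := by
    intro x q c n
    have h1 : Continuous fun z : V => tdist x z := tdist_cont x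
    have h3 : Continuous fun z : V => L (w z) := hL.comp hw.cont
    have h4 : Continuous fun z : V => (c : ℝ) - L (w z) * tdist x z :=
      continuous_const.sub (h3.mul h1)
    have h5 : Continuous fun _ : V => (q : ℝ) := continuous_const
    have h6 : IsClosed {z : V | (q : ℝ) ≤ (c : ℝ) - L (w z) * tdist x z} := isClosed_le h5 h4
    exact (hFc c n).inter_right h6
  set S : V → ℚ → Set ℝ := fun x q => ⋃ c : ℚ, ⋃ n : ℕ, w '' (G x q c n) with hS
  have hSm : ∀ x q, MeasurableSet (S x q) := fun x q =>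
    MeasurableSet.iUnion fun c => MeasurableSet.iUnion fun n =>
      ((hGc x q c n).image hw.cont).isClosed.measurableSet
  have hSmem : ∀ x q s, s ∈ S x q ↔ ∃ (c : ℚ) (n : ℕ) (z : V), z ∈ F c n ∧ w z = s ∧
      (q : ℝ) ≤ c - L s * tdist x z := by
    intro x q s
    simp only [hS, hG, mem_iUnion, mem_image, mem_inter_iff, mem_ofPred_eq]
    constructor
    · rintro ⟨c, n, z, ⟨h1, h3⟩, rfl⟩
      exact ⟨c, n, z, h1, rfl, h3⟩
    · rintro ⟨c, n, z, h1, rfl, h3⟩
      exact ⟨c, n, z, ⟨h1, h3⟩, rfl⟩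
  classical
  set K : V → ℝ → EReal := fun x s => ⨆ q : ℚ, if s ∈ S x q then (((q : ℝ)) : EReal) else ⊥ with hK
  have hKle : ∀ x s q, s ∈ S x q → (((q : ℝ)) : EReal) ≤ K x s := by
    intro x s q hq
    simp only [hK]
    refine le_iSup_of_le q ?_
    rw [if_pos hq]
  refine ⟨K, fun x => Measurable.iSup fun q => Measurable.ite (hSm x q) measurable_const
    measurable_const, ?_, ?_, ?_⟩
  · intro x y s
    simp only [hK]
    refine iSup_le fun q => ?_
    split_ifs with hq
    · obtain ⟨c, n, z, hz, hwz, hqc⟩ := (hSmem x q s).1 hq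
      by_contra hcon
      rw [not_le] at hcon
      have h3 : K y s < (((q : ℝ) - L s * tdist x y : ℝ) : EReal) := by
        rw [EReal.coe_sub]
        refine (EReal.lt_sub_iff_add_lt (Or.inl (EReal.coe_ne_bot _))
          (Or.inl (EReal.coe_ne_top _))).2 ?_
        exact hcon
      obtain ⟨q', hq1, hq2⟩ := EReal.lt_iff_exists_rat_btwn.1 h3
      have hq2' : (q' : ℝ) < q - L s * tdist x y := by exact_mod_cast hq2
      have h4 : s ∈ S y q' := by
        rw [hSmem]
        refine ⟨c, n, z, hz, hwz, ?_⟩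
        have h5 := tdist_triangle y x z
        rw [tdist_comm y x] at h5
        have h6 := mul_le_mul_of_nonneg_left h5 (hL0 s)
        linarith
      exact absurd ((hKle y s q' h4).trans_lt hq1) (lt_irrefl _)
    · exact bot_le
  · have h1 : ∀ᵐ x ∂(volume : Measure V), x ∉ Z := measure_eq_zero_iff_ae_notMem.1 hZ
    have h3 : ∀ᵐ x ∂(volume : Measure V), ∀ c, x ∉ A c \ ⋃ n, F c n :=
      ae_all_iff.2 fun c => measure_eq_zero_iff_ae_notMem.1 (hF0 c)
    rw [ae_restrict_iff' measurableSet_cube]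
    filter_upwards [h1, h3] with x hxz hxc hxQ hpos
    by_contra hcon
    rw [not_le] at hcon
    obtain ⟨c, hc1, hc2⟩ := EReal.lt_iff_exists_rat_btwn.1 hcon
    have hc2' : (c : ℝ) < h x / D x := by exact_mod_cast hc2
    have hxA : x ∈ A c := ⟨⟨hxQ, hxz⟩, hpos, hc2'⟩
    have hxF : x ∈ ⋃ n, F c n := by
      by_contra hn
      exact hxc c ⟨hxA, hn⟩
    obtain ⟨n, hn⟩ := mem_iUnion.1 hxF
    have hvS : w x ∈ S x c := by
      rw [hSmem]
      refine ⟨c, n, x, hn, rfl, ?_⟩
      rw [tdist_self, mul_zero, sub_zero]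
    exact absurd ((hKle x (w x) c hvS).trans_lt hc1) (lt_irrefl _)
  · intro x hx hneg
    simp only [hK]
    refine iSup_le fun q => ?_
    split_ifs with hq
    · obtain ⟨c, n, z, hz, hwz, hqc⟩ := (hSmem x q (w x)).1 hq
      have hA' := hFA c n hz
      have h3 := h2 z hA'.1 x hx hwz hA'.2.1 hneg
      rw [hwz, tdist_comm z x] at h3
      have h4 : (q : ℝ) ≤ h x / D x := by
        have := hA'.2.2.le
        linarith
      exact_mod_cast h4
    · exact bot_le

theorem sp_one : SP (fun _ : V => (1 : ℝ)) := ⟨contDiff_const, fun _ _ => rfl⟩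

theorem adv_one (v : V → V) (x : V) : adv v (fun _ => (1 : ℝ)) x = 0 := by
  unfold adv pd
  simp

include hv hdiv hw in
theorem int_null_one {K : ℝ → ℝ} {B : ℝ} (hK : Measurable K) (hB : ∀ s, |K s| ≤ B) :
    ∫ x in cube, K (w x) * adv v w x = 0 := by
  have h := int_null hv hdiv sp_one hw hK hB
  simp_rw [adv_one, one_mul, zero_mul] at h
  simpa using h

/-- the averaged moderator -/
noncomputable def avg (m n : ℕ) (k : V → ℝ → ℝ) (w : V → ℝ) (x : V) : ℝ :=
  ∑ j ∈ grid n, chi m n j x * k (node n j) (w x)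

include hv hdiv hw in
/-- The integral of the averaged moderator. -/
theorem int_avg (hw0 : ∀ x, 0 ≤ w x) {L : ℝ → ℝ} (hL : Continuous L) (hL0 : ∀ s, 0 ≤ L s)
    {k : V → ℝ → ℝ} {B : ℝ} (hk : ∀ x, Measurable (k x)) (hB : ∀ x s, |k x s| ≤ B)
    (hlip : ∀ x y s, |k x s - k y s| ≤ L s * tdist x y) {μ n : ℕ} (hμ : 1 ≤ μ)
    (hn : μ ^ 2 + 1 < n) :
    IntegrableOn (fun x => avg (μ ^ 2) n k w x * adv v w x) cube ∧
    ∫ x in cube, avg (μ ^ 2) n k w x * adv v w x
      ≤ 6 * Real.pi * ∫ x in cube, (∑ i, |v x i|) * ∫ r in (0 : ℝ)..w x, L r := by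
  have := cube_fin
  set D : V → ℝ := adv v w with hD
  have hDc : Continuous D := (sp_adv hv hw).cont
  have hkw : ∀ y, Measurable fun x => k y (w x) := fun y => (hk y).comp hw.cont.measurable
  have hint : ∀ j, IntegrableOn (fun x => chi (μ ^ 2) n j x * k (node n j) (w x) * D x) cube := by
    intro j
    have e : (fun x => chi (μ ^ 2) n j x * k (node n j) (w x) * D x)
        = fun x => k (node n j) (w x) * (chi (μ ^ 2) n j x * D x) := by
      funext x; ring
    rw [e]
    exact (integrableOn_cube ((sp_chi _ _ _).cont.mul hDc)).bdd_mul (c := B)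
      (hkw _).aestronglyMeasurable (Filter.Eventually.of_forall fun x => hB _ _)
  have e0 : ∀ x, avg (μ ^ 2) n k w x * D x
      = ∑ j ∈ grid n, chi (μ ^ 2) n j x * k (node n j) (w x) * D x := by
    intro x
    unfold avg
    rw [Finset.sum_mul]
  have hI : IntegrableOn (fun x => avg (μ ^ 2) n k w x * D x) cube := by
    simp_rw [e0]
    exact integrable_finsetSum _ fun j _ => hint j
  refine ⟨hI, ?_⟩
  simp_rw [e0]
  rw [integral_finsetSum _ fun j _ => hint j]
  have e1 : ∀ j ∈ grid n, ∫ x in cube, chi (μ ^ 2) n j x * k (node n j) (w x) * D x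
      = -∫ x in cube, adv v (chi (μ ^ 2) n j) x * ∫ r in (0 : ℝ)..w x, k (node n j) r :=
    fun j _ => int_null hv hdiv (sp_chi _ _ _) hw (hk _) (hB _)
  rw [Finset.sum_congr rfl e1, Finset.sum_neg_distrib]
  have hHc : ∀ y, Continuous fun s => ∫ r in (0 : ℝ)..s, k y r := fun y => prim_meas (hk y) (hB y)
  have i1 : ∀ j, IntegrableOn (fun x => adv v (chi (μ ^ 2) n j) x
      * ∫ r in (0 : ℝ)..w x, k (node n j) r) cube := fun j =>
    integrableOn_cube ((sp_adv hv (sp_chi _ _ _)).cont.mul ((hHc _).comp hw.cont))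
  rw [← integral_finsetSum _ fun j _ => i1 j, ← integral_neg, ← integral_const_mul]
  have hLc : Continuous fun s => ∫ r in (0 : ℝ)..s, L r :=
    intervalIntegral.continuous_primitive (fun a b => hL.intervalIntegrable a b) 0
  have hvc : Continuous fun x => ∑ i, |v x i| := continuous_finsetSum _ fun i _ => (hv i).cont.abs
  refine setIntegral_mono_on ?_ ?_ measurableSet_Icc fun x _ => ?_
  · exact (integrable_finsetSum _ fun j _ => i1 j).neg
  · exact (integrableOn_cube (hvc.mul (hLc.comp hw.cont))).const_mul _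
  -- the pointwise bound
  have hki : ∀ y a b, IntervalIntegrable (k y) volume a b := fun y a b => by
    refine (intervalIntegrable_const (c := B)).mono_fun (hk y).aestronglyMeasurable ?_
    exact Filter.Eventually.of_forall fun s => (hB y s).trans (le_abs_self B)
  set H : V → ℝ := fun y => ∫ r in (0 : ℝ)..w x, k y r with hH
  set Lam : ℝ := ∫ r in (0 : ℝ)..w x, L r with hLam
  have hHlip : ∀ y, |H y - H x| ≤ Lam * tdist x y := by
    intro y
    simp only [hH]
    rw [← intervalIntegral.integral_sub (hki _ _ _) (hki _ _ _), ← Real.norm_eq_abs]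
    refine (intervalIntegral.norm_integral_le_integral_norm (hw0 x)).trans ?_
    rw [hLam, ← intervalIntegral.integral_mul_const]
    refine intervalIntegral.integral_mono_on (hw0 x) ((hki _ _ _).sub (hki _ _ _)).norm
      ((hL.intervalIntegrable _ _).mul_const _) fun r _ => ?_
    rw [tdist_comm x y]
    exact hlip y x r
  have e2 : ∑ j ∈ grid n, adv v (chi (μ ^ 2) n j) x * H (node n j)
      = ∑ i, v x i * ∑ j ∈ grid n, pd i (chi (μ ^ 2) n j) x * (H (node n j) - H x) := by
    have e3 : ∀ i, ∑ j ∈ grid n, pd i (chi (μ ^ 2) n j) x * (H (node n j) - H x)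
        = ∑ j ∈ grid n, pd i (chi (μ ^ 2) n j) x * H (node n j) := by
      intro i
      simp_rw [mul_sub]
      rw [Finset.sum_sub_distrib, ← Finset.sum_mul, pd_chi_sum hn x i, zero_mul, sub_zero]
    simp_rw [e3, Finset.mul_sum]
    rw [Finset.sum_comm]
    refine Finset.sum_congr rfl fun j _ => ?_
    unfold adv
    rw [Finset.sum_mul]
    refine Finset.sum_congr rfl fun i _ => ?_
    ring
  show -(∑ j ∈ grid n, adv v (chi (μ ^ 2) n j) x * H (node n j)) ≤ _
  rw [e2]
  refine (neg_le_abs _).trans ((Finset.abs_sum_le_sum_abs _ _).trans ?_)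
  have e4 : 6 * Real.pi * ((∑ i, |v x i|) * Lam) = ∑ i, |v x i| * (6 * Real.pi * Lam) := by
    rw [← Finset.sum_mul]; ring
  rw [e4]
  refine Finset.sum_le_sum fun i _ => ?_
  rw [abs_mul]
  refine mul_le_mul_of_nonneg_left ?_ (abs_nonneg _)
  have hLam0 : 0 ≤ Lam := intervalIntegral.integral_nonneg (hw0 x) fun r _ => hL0 r
  calc |∑ j ∈ grid n, pd i (chi (μ ^ 2) n j) x * (H (node n j) - H x)|
      ≤ ∑ j ∈ grid n, |pd i (chi (μ ^ 2) n j) x * (H (node n j) - H x)| :=
        Finset.abs_sum_le_sum_abs _ _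
    _ ≤ ∑ j ∈ grid n, |pd i (chi (μ ^ 2) n j) x| * tdist x (node n j) * Lam := by
        refine Finset.sum_le_sum fun j _ => ?_
        rw [abs_mul, mul_assoc]
        refine mul_le_mul_of_nonneg_left ?_ (abs_nonneg _)
        rw [mul_comm]
        exact hHlip _
    _ = (∑ j ∈ grid n, |pd i (chi (μ ^ 2) n j) x| * tdist x (node n j)) * Lam := by
        rw [Finset.sum_mul]
    _ ≤ 6 * Real.pi * Lam := mul_le_mul_of_nonneg_right (pd_chi_tdist hμ hn x i) hLam0

theorem avg_sub {k : V → ℝ → ℝ} {L : ℝ → ℝ} (hL0 : ∀ s, 0 ≤ L s)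
    (hlip : ∀ x y s, |k x s - k y s| ≤ L s * tdist x y) {μ n : ℕ} (hμ : 1 ≤ μ)
    (hn : μ ^ 2 + 1 < n) (x : V) : |k x (w x) - avg (μ ^ 2) n k w x| ≤ L (w x) * (3 / μ) := by
  have e : k x (w x) - avg (μ ^ 2) n k w x
      = ∑ j ∈ grid n, chi (μ ^ 2) n j x * (k x (w x) - k (node n j) (w x)) := by
    simp_rw [mul_sub]
    rw [Finset.sum_sub_distrib, ← Finset.sum_mul, chi_sum hn, one_mul]
    rfl
  rw [e]
  calc |∑ j ∈ grid n, chi (μ ^ 2) n j x * (k x (w x) - k (node n j) (w x))|
      ≤ ∑ j ∈ grid n, |chi (μ ^ 2) n j x * (k x (w x) - k (node n j) (w x))| :=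
        Finset.abs_sum_le_sum_abs _ _
    _ ≤ ∑ j ∈ grid n, L (w x) * (chi (μ ^ 2) n j x * tdist x (node n j)) := by
        refine Finset.sum_le_sum fun j _ => ?_
        rw [abs_mul, abs_of_nonneg (chi_nonneg _ _ _ _)]
        have := mul_le_mul_of_nonneg_left (hlip x (node n j) (w x)) (chi_nonneg (μ ^ 2) n j x)
        linarith
    _ = L (w x) * ∑ j ∈ grid n, chi (μ ^ 2) n j x * tdist x (node n j) := by
        rw [Finset.mul_sum]
    _ ≤ L (w x) * (3 / μ) := mul_le_mul_of_nonneg_left (chi_tdist hμ hn x) (hL0 _)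

end Pool.Agent.TH811.SPD
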